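import Pool.Agent.Run7.h145.QL.Y2

/-! Odd negative values. -/

set_option autoImplicit false

namespace Pool.Agent.Run7.h145.QL.X

open Finset Filter Topology
open Pool.Agent.Run7.h145.QP (Pol Sy Lf Pol_add)
open Pool.Agent.Run7.h145.QL

/-- The points of the box with `x ∈ D` and an odd negative value between `u` and `v`. -/
def PointsN {k : ℕ} (A : Fin k → Fin k → ℤ) (l : Fin k → ℤ) (c : ℤ) (a b : Fin k → ℤ) (u v : ℤ)
    (D : Set (Fin k → ℤ)) : Set (Fin k → ℤ) :=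
  {x | (∀ i, a i < x i ∧ x i ≤ b i) ∧ (u < Val A l c x ∧ Val A l c x ≤ v) ∧
    (Val A l c x < 0 ∧ Odd (Val A l c x)) ∧ x ∈ D}

/-- The frequency of `P` among the odd negative values. -/
def FrequencyN (P : ℤ → Prop) (f : ℝ) : Prop := ∀ (k : ℕ) (A : Fin k → Fin k → ℤ), RankTwo A →
  ∀ (B ε : ℝ) (q : ℕ), 0 < B → 0 < ε → 1 ≤ q → ∃ R₀ : ℕ, ∀ R : ℕ, R₀ ≤ R →
  ∀ (l : Fin k → ℤ) (c : ℤ) (a b : Fin k → ℤ), (∀ i, |(l i : ℝ)| ≤ B * R) → |(c : ℝ)| ≤ B * R ^ 2 →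
  (∀ i, |a i| ≤ R ∧ |b i| ≤ R) → ∀ (u v : ℤ) (D : Set (Fin k → ℤ)),
  (∀ x y : Fin k → ℤ, (∀ i, x i ≡ y i [ZMOD q]) → (x ∈ D ↔ y ∈ D)) →
  |({x ∈ PointsN A l c a b u v D | P (Val A l c x)}.ncard : ℝ) - f * (PointsN A l c a b u v D).ncard| ≤ ε * R ^ k

theorem oddneg {z : ℤ} : Odd (-z) ↔ Odd z := by
  rw [Int.odd_iff, Int.odd_iff]
  omega

/-- reflection of the points -/
theorem refl_pts {k : ℕ} (A : Fin k → Fin k → ℤ) (l : Fin k → ℤ) (c : ℤ) (a b : Fin k → ℤ) (u v : ℤ)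
    (D : Set (Fin k → ℤ)) (Q : ℤ → Prop) :
    {x ∈ Points (fun i j => -A i j) (fun i => -l i) (-c) a b (-v - 1) (-u - 1) D |
      Odd (Val (fun i j => -A i j) (fun i => -l i) (-c) x) ∧
      Q (-((Val (fun i j => -A i j) (fun i => -l i) (-c) x).toNat : ℤ))} =
      {x ∈ PointsN A l c a b u v D | Q (Val A l c x)} := by
  ext x
  constructor
  · rintro ⟨⟨g1, g2, g3, g4⟩, g5, g6⟩
    rw [val_neg] at g2 g3 g5 g6
    rw [oddneg] at g5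
    refine ⟨⟨g1, by omega, ⟨by omega, g5⟩, g4⟩, ?_⟩
    rw [Int.toNat_of_nonneg g3.le, neg_neg] at g6
    exact g6
  · rintro ⟨⟨g1, g2, ⟨g3, g5⟩, g4⟩, g6⟩
    have g3' : 0 < -Val A l c x := by omega
    refine ⟨⟨g1, by rw [val_neg]; omega, by rw [val_neg]; omega, g4⟩, ?_, ?_⟩
    · rw [val_neg, oddneg]; exact g5
    · rw [val_neg, Int.toNat_of_nonneg g3'.le, neg_neg]; exact g6

theorem refl_pts0 {k : ℕ} (A : Fin k → Fin k → ℤ) (l : Fin k → ℤ) (c : ℤ) (a b : Fin k → ℤ) (u v : ℤ)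
    (D : Set (Fin k → ℤ)) :
    {x ∈ Points (fun i j => -A i j) (fun i => -l i) (-c) a b (-v - 1) (-u - 1) D |
      Odd (Val (fun i j => -A i j) (fun i => -l i) (-c) x)} = PointsN A l c a b u v D := by
  have := refl_pts A l c a b u v D (fun _ => True)
  simp only [and_true] at this
  rw [this]
  rfl

theorem neg_of_odd {P : ℤ → Prop} {f : ℝ} (h : FrequencyOdd (fun n => P (-(n : ℤ))) f) : FrequencyN P f := by
  intro k A hA B ε q hB hε hq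
  obtain ⟨R₀, h1⟩ := h k (fun i j => -A i j) (rank_neg hA) B ε q hB hε hq
  refine ⟨R₀, fun R hR l c a b hl hc hab u v D hD => ?_⟩
  have h2 := h1 R hR (fun i => -l i) (-c) a b (fun i => by push_cast; rw [abs_neg]; exact hl i) (by
    push_cast; rw [abs_neg]; exact hc) hab (-v - 1) (-u - 1) D hD
  have e1 := refl_pts A l c a b u v D P
  rw [refl_pts0] at h2
  beta_reduce at h2
  rw [e1] at h2
  exact h2

theorem odd_of_neg {P : ℤ → Prop} {f : ℝ} (h : FrequencyN P f) : FrequencyOdd (fun n => P (-(n : ℤ))) f := by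
  intro k A hA B ε q hB hε hq
  obtain ⟨R₀, h1⟩ := h k (fun i j => -A i j) (rank_neg hA) B ε q hB hε hq
  refine ⟨R₀, fun R hR l c a b hl hc hab u v D hD => ?_⟩
  have h2 := h1 R hR (fun i => -l i) (-c) a b (fun i => by push_cast; rw [abs_neg]; exact hl i) (by
    push_cast; rw [abs_neg]; exact hc) hab (-v - 1) (-u - 1) D hD
  have e1 := refl_pts (fun i j => -A i j) (fun i => -l i) (-c) a b (-v - 1) (-u - 1) D P
  have e2 := refl_pts0 (fun i j => -A i j) (fun i => -l i) (-c) a b (-v - 1) (-u - 1) D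
  simp only [neg_neg] at e1 e2
  have e3 : -(-u - 1) - 1 = u := by ring
  have e4 : -(-v - 1) - 1 = v := by ring
  rw [e3, e4] at e1 e2
  rw [← e1, ← e2] at h2
  exact h2

theorem neg_of {Q : ℕ → Prop} {P : ℤ → Prop} {f : ℝ} (h : QV.Fr Q f) (n0 : ℕ)
    (hPQ : ∀ n, n0 ≤ n → Odd n → (Q n ↔ P (-(n : ℤ)))) : FrequencyN P f :=
  neg_of_odd (odd_of h n0 hPQ)

/-- CUBES, odd negative values -/
theorem cubes_neg {P : ℤ → Prop} {f : ℝ} (h : FrequencyN P f) {k : ℕ} {A : Fin k → Fin k → ℤ} (hA : RankTwo A)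
    (l : Fin k → ℤ) (c : ℤ) {x₀ z : Fin k → ℤ} (h0 : ∑ i, ∑ j, A i j * x₀ i * x₀ j < 0) (hz : Odd (Val A l c z)) :
    Tendsto (fun N : ℕ => ({x : Fin k → ℤ | (∀ i, |x i| ≤ N) ∧ (Val A l c x < 0 ∧ Odd (Val A l c x)) ∧
      P (Val A l c x)}.ncard : ℝ) /
      {x : Fin k → ℤ | (∀ i, |x i| ≤ N) ∧ (Val A l c x < 0 ∧ Odd (Val A l c x))}.ncard) atTop (𝓝 f) := by
  have h1 := cubes_odd (odd_of_neg h) (rank_neg hA) (fun i => -l i) (-c) (x₀ := x₀) (z := z) (by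
    simp only [neg_mul, sum_neg_distrib]; linarith) (by rw [val_neg, oddneg]; exact hz)
  refine h1.congr fun N => ?_
  have e1 : {x : Fin k → ℤ | (∀ i, |x i| ≤ N) ∧ (0 < Val (fun i j => -A i j) (fun i => -l i) (-c) x ∧
      Odd (Val (fun i j => -A i j) (fun i => -l i) (-c) x)) ∧
      P (-((Val (fun i j => -A i j) (fun i => -l i) (-c) x).toNat : ℤ))} =
      {x : Fin k → ℤ | (∀ i, |x i| ≤ N) ∧ (Val A l c x < 0 ∧ Odd (Val A l c x)) ∧ P (Val A l c x)} := by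
    ext x
    simp only [Set.mem_ofPred_eq]
    refine and_congr_right fun _ => ?_
    constructor
    · rintro ⟨⟨g1, g2⟩, g3⟩
      rw [val_neg] at g1 g2 g3
      rw [Int.toNat_of_nonneg g1.le, neg_neg] at g3
      exact ⟨⟨by omega, oddneg.1 g2⟩, g3⟩
    · rintro ⟨⟨g1, g2⟩, g3⟩
      rw [val_neg]
      have g1' : 0 < -Val A l c x := by omega
      refine ⟨⟨g1', oddneg.2 g2⟩, ?_⟩
      rw [Int.toNat_of_nonneg g1'.le, neg_neg]
      exact g3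
  have e2 : {x : Fin k → ℤ | (∀ i, |x i| ≤ N) ∧ (0 < Val (fun i j => -A i j) (fun i => -l i) (-c) x ∧
      Odd (Val (fun i j => -A i j) (fun i => -l i) (-c) x))} =
      {x : Fin k → ℤ | (∀ i, |x i| ≤ N) ∧ (Val A l c x < 0 ∧ Odd (Val A l c x))} := by
    ext x
    simp only [Set.mem_ofPred_eq, val_neg, oddneg]
    refine and_congr_right fun _ => and_congr_left fun _ => ?_
    omega
  rw [e1, e2]

/-- SUMS OF TWO SQUARES -/
theorem two_squares_neg {P : ℤ → Prop} {f : ℝ} (h : FrequencyN P f) :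
    Tendsto (fun N : ℕ => ({p : ℤ × ℤ | Odd (p.1 ^ 2 + p.2 ^ 2) ∧ p.1 ^ 2 + p.2 ^ 2 ≤ N ∧
      P (-(p.1 ^ 2 + p.2 ^ 2))}.ncard : ℝ) /
      {p : ℤ × ℤ | Odd (p.1 ^ 2 + p.2 ^ 2) ∧ p.1 ^ 2 + p.2 ^ 2 ≤ N}.ncard) atTop (𝓝 f) := by
  refine (two_squares_odd (odd_of_neg h)).congr fun N => ?_
  congr 3
  ext p
  simp only [Set.mem_ofPred_eq]
  rw [Int.toNat_of_nonneg (by positivity)]

/-- PRODUCTS -/
theorem products_neg {P : ℤ → Prop} {f : ℝ} (h : FrequencyN P f) :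
    Tendsto (fun N : ℕ => ({p : ℕ × ℕ | Odd p.1 ∧ Odd p.2 ∧ p.1 ≤ N ∧ p.2 ≤ N ∧
      P (-((p.1 : ℤ) * (p.2 : ℤ)))}.ncard : ℝ) /
      {p : ℕ × ℕ | Odd p.1 ∧ Odd p.2 ∧ p.1 ≤ N ∧ p.2 ≤ N}.ncard) atTop (𝓝 f) := by
  refine (products_odd (odd_of_neg h)).congr fun N => ?_
  simp only [Nat.cast_mul]

/-- REPRESENTATIONS -/
theorem represent_neg {P : ℤ → Prop} {f : ℝ} (hf : 0 < f) (h : FrequencyN P f) {α β γ : ℤ}
    (hdisc : β ^ 2 ≠ 4 * α * γ) :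
    ∃ κ : ℝ, 0 < κ ∧ ∃ n₀ : ℕ, ∀ n : ℕ, n₀ ≤ n → (∃ x y : ℤ, Odd (n - (α * x ^ 2 + β * x * y + γ * y ^ 2))) →
      κ * n ≤ {p : ℤ × ℤ | (0 < p.1 ∧ p.1 ^ 2 ≤ n) ∧ (0 < p.2 ∧ p.2 ^ 2 ≤ n) ∧
        ∃ t : ℤ, t < 0 ∧ Odd t ∧ P t ∧ (n : ℤ) = (α * p.1 ^ 2 + β * p.1 * p.2 + γ * p.2 ^ 2) - t}.ncard := by
  obtain ⟨κ, hκ, n₀, h1⟩ := represent_odd hf (odd_of_neg h) hdisc
  refine ⟨κ, hκ, n₀, fun n hn hp => (h1 n hn hp).trans (le_of_eq ?_)⟩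
  congr 2
  ext p
  simp only [Set.mem_ofPred_eq]
  refine and_congr_right fun _ => and_congr_right fun _ => ?_
  constructor
  · rintro ⟨t, ht, hP, he⟩
    refine ⟨-(t : ℤ), ?_, ?_, hP, by rw [he]; ring⟩
    · have := ht.pos
      omega
    · rw [oddneg, Int.odd_coe_nat]; exact ht
  · rintro ⟨t, ht0, ht, hP, he⟩
    refine ⟨(-t).toNat, ?_, ?_, ?_⟩
    · rw [odd_toNat (by omega), oddneg]; exact ht
    · rw [Int.toNat_of_nonneg (by omega), neg_neg]; exact hP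
    · rw [Int.toNat_of_nonneg (by omega), he]; ring

end Pool.Agent.Run7.h145.QL.X
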