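import Pool.Agent.Run7.h145.QL.X

/-! Values of one sign. -/

set_option autoImplicit false

namespace Pool.Agent.Run7.h145.QL.X

open Finset Filter Topology
open Pool.Agent.Run7.h145.QP (Pol Sy Lf Pol_add)
open Pool.Agent.Run7.h145.QL

theorem of_frS' {s : ℤ} (hs : s = 1 ∨ s = -1) {S : Set ℤ} {f : ℝ} (h : QV.Fr (fun n : ℕ => s * (n : ℤ) ∈ S) f) :
    FrequencyS s S f := of_frS hs (of_fr h)

theorem of_S {s : ℤ} (hs : s = 1 ∨ s = -1) {S : Set ℤ} {f : ℝ} (h : FrequencyS s S f) :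
    Frequency (fun n => s * (n : ℤ) ∈ S) f := by
  intro k A hA B ε q hB hε hq
  rcases hs with rfl | rfl
  · obtain ⟨R₀, h1⟩ := h k A hA B ε q hB hε hq
    refine ⟨R₀, fun R hR l c a b hl hc hab u v D hD => ?_⟩
    have h2 := h1 R hR l c a b hl hc hab u v D hD
    have e1 : {x ∈ Points A l c a b u v D | (1 : ℤ) * ((Val A l c x).toNat : ℤ) ∈ S} =
        {x ∈ PointsS 1 A l c a b u v D | Val A l c x ∈ S} := by
      ext x
      constructor
      · rintro ⟨⟨g1, g2, g3, g4⟩, g5⟩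
        refine ⟨⟨g1, g2, by rw [one_mul]; exact g3, g4⟩, ?_⟩
        rw [one_mul, Int.toNat_of_nonneg g3.le] at g5
        exact g5
      · rintro ⟨⟨g1, g2, g3, g4⟩, g5⟩
        rw [one_mul] at g3
        refine ⟨⟨g1, g2, g3, g4⟩, ?_⟩
        rw [one_mul, Int.toNat_of_nonneg g3.le]
        exact g5
    have e2 : Points A l c a b u v D = PointsS 1 A l c a b u v D := by
      unfold Points PointsS
      simp only [one_mul]
    beta_reduce
    rw [e1, e2]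
    exact h2
  · obtain ⟨R₀, h1⟩ := h k (fun i j => -A i j) (rank_neg hA) B ε q hB hε hq
    refine ⟨R₀, fun R hR l c a b hl hc hab u v D hD => ?_⟩
    have h2 := h1 R hR (fun i => -l i) (-c) a b (fun i => by push_cast; rw [abs_neg]; exact hl i) (by
      push_cast; rw [abs_neg]; exact hc) hab (-v - 1) (-u - 1) D hD
    have e1 : {x ∈ PointsS (-1) (fun i j => -A i j) (fun i => -l i) (-c) a b (-v - 1) (-u - 1) D |
        Val (fun i j => -A i j) (fun i => -l i) (-c) x ∈ S} =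
        {x ∈ Points A l c a b u v D | (-1 : ℤ) * ((Val A l c x).toNat : ℤ) ∈ S} := by
      ext x
      constructor
      · rintro ⟨⟨g1, g2, g3, g4⟩, g5⟩
        rw [val_neg] at g2 g3 g5
        have g3' : 0 < Val A l c x := by omega
        refine ⟨⟨g1, by omega, g3', g4⟩, ?_⟩
        rw [Int.toNat_of_nonneg g3'.le, neg_one_mul]
        exact g5
      · rintro ⟨⟨g1, g2, g3, g4⟩, g5⟩
        rw [Int.toNat_of_nonneg g3.le, neg_one_mul] at g5
        refine ⟨⟨g1, by rw [val_neg]; omega, by rw [val_neg]; omega, g4⟩, ?_⟩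
        rw [val_neg]
        exact g5
    have e2 : PointsS (-1) (fun i j => -A i j) (fun i => -l i) (-c) a b (-v - 1) (-u - 1) D =
        Points A l c a b u v D := by
      ext x
      constructor
      · rintro ⟨g1, g2, g3, g4⟩
        rw [val_neg] at g2 g3
        exact ⟨g1, by omega, by omega, g4⟩
      · rintro ⟨g1, g2, g3, g4⟩
        exact ⟨g1, by rw [val_neg]; omega, by rw [val_neg]; omega, g4⟩
    rw [e1, e2] at h2
    exact h2

/-- CUBES, one sign -/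
theorem cubes_S {s : ℤ} (hs : s = 1 ∨ s = -1) {S : Set ℤ} {f : ℝ} (h : FrequencyS s S f) {k : ℕ}
    {A : Fin k → Fin k → ℤ} (hA : RankTwo A)
    (l : Fin k → ℤ) (c : ℤ) {x₀ : Fin k → ℤ} (h0 : 0 < s * ∑ i, ∑ j, A i j * x₀ i * x₀ j) :
    Tendsto (fun N : ℕ => ({x : Fin k → ℤ | (∀ i, |x i| ≤ N) ∧ 0 < s * Val A l c x ∧ Val A l c x ∈ S}.ncard : ℝ) /
      {x : Fin k → ℤ | (∀ i, |x i| ≤ N) ∧ 0 < s * Val A l c x}.ncard) atTop (𝓝 f) := by
  have hF := of_S hs h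
  rcases hs with rfl | rfl
  · refine (cubes hF hA l c (x₀ := x₀) (by rwa [one_mul] at h0)).congr fun N => ?_
    have e1 : {x : Fin k → ℤ | (∀ i, |x i| ≤ N) ∧ 0 < Val A l c x ∧ (1 : ℤ) * ((Val A l c x).toNat : ℤ) ∈ S} =
        {x : Fin k → ℤ | (∀ i, |x i| ≤ N) ∧ 0 < 1 * Val A l c x ∧ Val A l c x ∈ S} := by
      ext x
      simp only [Set.mem_ofPred_eq, one_mul]
      refine and_congr_right fun _ => and_congr_right fun h1 => ?_
      rw [Int.toNat_of_nonneg h1.le]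
    rw [e1]
    simp only [one_mul]
  · refine (cubes hF (rank_neg hA) (fun i => -l i) (-c) (x₀ := x₀) (by
      simp only [neg_mul, sum_neg_distrib, one_mul] at h0 ⊢; exact h0)).congr fun N => ?_
    have e1 : {x : Fin k → ℤ | (∀ i, |x i| ≤ N) ∧ 0 < Val (fun i j => -A i j) (fun i => -l i) (-c) x ∧
        (-1 : ℤ) * ((Val (fun i j => -A i j) (fun i => -l i) (-c) x).toNat : ℤ) ∈ S} =
        {x : Fin k → ℤ | (∀ i, |x i| ≤ N) ∧ 0 < -1 * Val A l c x ∧ Val A l c x ∈ S} := by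
      ext x
      simp only [Set.mem_ofPred_eq, val_neg, neg_one_mul]
      refine and_congr_right fun _ => and_congr_right fun h1 => ?_
      rw [Int.toNat_of_nonneg h1.le, neg_neg]
    have e2 : {x : Fin k → ℤ | (∀ i, |x i| ≤ N) ∧ 0 < Val (fun i j => -A i j) (fun i => -l i) (-c) x} =
        {x : Fin k → ℤ | (∀ i, |x i| ≤ N) ∧ 0 < -1 * Val A l c x} := by
      ext x
      simp only [Set.mem_ofPred_eq, val_neg, neg_one_mul]
    rw [e1, e2]

theorem two_squares_S {s : ℤ} (hs : s = 1 ∨ s = -1) {S : Set ℤ} {f : ℝ} (h : FrequencyS s S f) :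
    Tendsto (fun N : ℕ => ({p : ℤ × ℤ | 0 < p.1 ^ 2 + p.2 ^ 2 ∧ p.1 ^ 2 + p.2 ^ 2 ≤ N ∧
      s * (p.1 ^ 2 + p.2 ^ 2) ∈ S}.ncard : ℝ) /
      {p : ℤ × ℤ | 0 < p.1 ^ 2 + p.2 ^ 2 ∧ p.1 ^ 2 + p.2 ^ 2 ≤ N}.ncard) atTop (𝓝 f) := by
  refine (two_squares (of_S hs h)).congr fun N => ?_
  congr 3
  ext p
  simp only [Set.mem_ofPred_eq]
  rw [Int.toNat_of_nonneg (by positivity)]

theorem products_S {s : ℤ} (hs : s = 1 ∨ s = -1) {S : Set ℤ} {f : ℝ} (h : FrequencyS s S f) :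
    Tendsto (fun N : ℕ => ({p : ℕ × ℕ | 1 ≤ p.1 ∧ 1 ≤ p.2 ∧ p.1 ≤ N ∧ p.2 ≤ N ∧
      s * ((p.1 : ℤ) * (p.2 : ℤ)) ∈ S}.ncard : ℝ) / N ^ 2) atTop (𝓝 f) := by
  refine (products (of_S hs h)).congr fun N => ?_
  simp only [Nat.cast_mul]

theorem represent_S {s : ℤ} (hs : s = 1 ∨ s = -1) {S : Set ℤ} {f : ℝ} (hf : 0 < f) (h : FrequencyS s S f)
    {α β γ : ℤ} (hdisc : β ^ 2 ≠ 4 * α * γ) :
    ∃ κ : ℝ, 0 < κ ∧ ∃ n₀ : ℕ, ∀ n : ℕ, n₀ ≤ n →
      κ * n ≤ {p : ℤ × ℤ | (0 < p.1 ∧ p.1 ^ 2 ≤ n) ∧ (0 < p.2 ∧ p.2 ^ 2 ≤ n) ∧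
        ∃ t ∈ S, 0 < s * t ∧ s * n = (α * p.1 ^ 2 + β * p.1 * p.2 + γ * p.2 ^ 2) + t}.ncard := by
  obtain ⟨κ, hκ, n₀, h1⟩ := represent hf (of_S hs h) (α := s * α) (β := s * β) (γ := s * γ) (by
    have hss : s ^ 2 = 1 := by rcases hs with rfl | rfl <;> norm_num
    intro h2
    apply hdisc
    linear_combination h2 + (4 * α * γ - β ^ 2) * (hss))
  refine ⟨κ, hκ, n₀, fun n hn => (h1 n hn).trans (le_of_eq ?_)⟩
  congr 2
  ext p
  simp only [Set.mem_ofPred_eq]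
  refine and_congr_right fun _ => and_congr_right fun _ => ?_
  have hss : s * s = 1 := by rcases hs with rfl | rfl <;> norm_num
  constructor
  · rintro ⟨t, ht, hS, he⟩
    refine ⟨s * t, hS, ?_, ?_⟩
    · rw [← mul_assoc, hss, one_mul]; exact_mod_cast ht
    · rw [he]
      linear_combination (α * p.1 ^ 2 + β * p.1 * p.2 + γ * p.2 ^ 2) * hss
  · rintro ⟨t, ht, ht0, he⟩
    refine ⟨(s * t).toNat, by omega, ?_, ?_⟩
    · rw [Int.toNat_of_nonneg ht0.le, ← mul_assoc, hss, one_mul]; exact ht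
    · rw [Int.toNat_of_nonneg ht0.le]
      have : (n : ℤ) = s * (s * n) := by rw [← mul_assoc, hss, one_mul]
      rw [this, he]
      ring

end Pool.Agent.Run7.h145.QL.X
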