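import Pool.Agent.Run7.h145.QL.Y

/-! Odd values: sums of two squares, products, transfer. -/

set_option autoImplicit false

namespace Pool.Agent.Run7.h145.QL.X

open Finset Filter Topology
open Pool.Agent.Run7.h145.QP (Pol Sy Lf Pol_add)
open Pool.Agent.Run7.h145.QL

theorem odd_toNat {z : ℤ} (h0 : 0 < z) : Odd z.toNat ↔ Odd z := by
  rw [Nat.odd_iff, Int.odd_iff]
  omega

theorem odd_of {P Q : ℕ → Prop} {f : ℝ} (h : QV.Fr P f) (n0 : ℕ) (hPQ : ∀ n, n0 ≤ n → Odd n → (P n ↔ Q n)) :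
    FrequencyOdd Q f := by
  have h1 : QV.Fr (fun n => (Odd n → Q n) ∧ (¬ Odd n → P n)) f := by
    refine QV.congr n0 (fun n hn => ?_) h
    have := hPQ n hn
    tauto
  intro k A hA B ε q hB hε hq
  obtain ⟨R₀, h2⟩ := of_fr_odd h1 k A hA B ε q hB hε hq
  refine ⟨R₀, fun R hR l c a b hl hc hab u v D hD => ?_⟩
  have h3 := h2 R hR l c a b hl hc hab u v D hD
  have e : {x ∈ Points A l c a b u v D | Odd (Val A l c x) ∧ ((Odd (Val A l c x).toNat → Q (Val A l c x).toNat) ∧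
      (¬ Odd (Val A l c x).toNat → P (Val A l c x).toNat))} =
      {x ∈ Points A l c a b u v D | Odd (Val A l c x) ∧ Q (Val A l c x).toNat} := by
    ext x
    constructor
    · rintro ⟨g1, g2, g3, g4⟩
      exact ⟨g1, g2, g3 ((odd_toNat g1.2.2.1).2 g2)⟩
    · rintro ⟨g1, g2, g3⟩
      exact ⟨g1, g2, fun _ => g3, fun g4 => absurd ((odd_toNat g1.2.2.1).2 g2) g4⟩
  rw [e] at h3
  exact h3

/-- SUMS OF TWO SQUARES, odd -/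
theorem two_squares_odd {P : ℕ → Prop} {f : ℝ} (h : FrequencyOdd P f) :
    Tendsto (fun N : ℕ => ({p : ℤ × ℤ | Odd (p.1 ^ 2 + p.2 ^ 2) ∧ p.1 ^ 2 + p.2 ^ 2 ≤ N ∧
      P (p.1 ^ 2 + p.2 ^ 2).toNat}.ncard : ℝ) /
      {p : ℤ × ℤ | Odd (p.1 ^ 2 + p.2 ^ 2) ∧ p.1 ^ 2 + p.2 ^ 2 ≤ N}.ncard) atTop (𝓝 f) := by
  have hfin : ∀ N : ℕ, {p : ℤ × ℤ | Odd (p.1 ^ 2 + p.2 ^ 2) ∧ p.1 ^ 2 + p.2 ^ 2 ≤ N}.Finite := by
    intro N
    apply ((Set.finite_Icc (-(N : ℤ)) N).prod (Set.finite_Icc (-(N : ℤ)) N)).subset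
    rintro ⟨x, y⟩ ⟨-, h2⟩
    simp only at h2
    have hx : x ^ 2 ≤ N := by nlinarith [sq_nonneg y]
    have hy : y ^ 2 ≤ N := by nlinarith [sq_nonneg x]
    have key : ∀ t : ℤ, t ^ 2 ≤ N → -(N : ℤ) ≤ t ∧ t ≤ N := by
      intro t ht
      constructor <;> nlinarith [sq_nonneg t, sq_nonneg (t - 1), sq_nonneg (t + 1)]
    exact ⟨key x hx, key y hy⟩
  refine ratio_lim (κ := 1 / 64) (j := 1) (by norm_num) ?_ fun ε hε => ?_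
  · filter_upwards [eventually_ge_atTop 32] with N hN
    set m := Nat.sqrt (N / 8) with hm
    have h1 : m ^ 2 ≤ N / 8 := Nat.sqrt_le' _
    have h2 : N / 8 < (m + 1) ^ 2 := Nat.lt_succ_sqrt' _
    have hm1 : 2 ≤ m := Nat.le_sqrt'.2 (by omega)
    have h3 : N ≤ 64 * m ^ 2 := by
      have : (m + 1) ^ 2 ≤ 4 * m ^ 2 := by nlinarith
      omega
    have hsub : (fun p : ℤ × ℤ => (2 * p.1 - 1, 2 * p.2)) ''
        (((Ioc (0 : ℤ) m) ×ˢ (Ioc (0 : ℤ) m) : Finset (ℤ × ℤ)) : Set (ℤ × ℤ)) ⊆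
        {p : ℤ × ℤ | Odd (p.1 ^ 2 + p.2 ^ 2) ∧ p.1 ^ 2 + p.2 ^ 2 ≤ N} := by
      rintro _ ⟨⟨x, y⟩, hp, rfl⟩
      rw [mem_coe, mem_product, mem_Ioc, mem_Ioc] at hp
      obtain ⟨⟨q1, q2⟩, q3, q4⟩ := hp
      simp only at q1 q2 q3 q4
      have e1 : (2 * x - 1) ^ 2 ≤ (2 * (m : ℤ)) ^ 2 := pow_le_pow_left₀ (by omega) (by omega) 2
      have e2 : (2 * y) ^ 2 ≤ (2 * (m : ℤ)) ^ 2 := pow_le_pow_left₀ (by omega) (by omega) 2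
      have e3 : 8 * m ^ 2 ≤ N := by omega
      have e4 : 8 * (m : ℤ) ^ 2 ≤ N := by exact_mod_cast e3
      refine ⟨?_, ?_⟩
      · show Odd ((2 * x - 1) ^ 2 + (2 * y) ^ 2)
        refine ⟨2 * x ^ 2 - 2 * x + 2 * y ^ 2, by ring⟩
      · show (2 * x - 1) ^ 2 + (2 * y) ^ 2 ≤ N
        nlinarith
    have hinj : Function.Injective (fun p : ℤ × ℤ => (2 * p.1 - 1, 2 * p.2)) := by
      rintro ⟨x, y⟩ ⟨x', y'⟩ h
      simp only [Prod.mk.injEq] at h ⊢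
      omega
    have h4 := Set.ncard_le_ncard hsub (hfin N)
    rw [Set.ncard_image_of_injective _ hinj, Set.ncard_coe_finset, card_product] at h4
    simp only [Int.card_Ioc, sub_zero, Int.toNat_natCast] at h4
    have h5 : N ≤ 64 * {p : ℤ × ℤ | Odd (p.1 ^ 2 + p.2 ^ 2) ∧ p.1 ^ 2 + p.2 ^ 2 ≤ N}.ncard := by nlinarith
    have h6 : (N : ℝ) ≤ 64 * ({p : ℤ × ℤ | Odd (p.1 ^ 2 + p.2 ^ 2) ∧ p.1 ^ 2 + p.2 ^ 2 ≤ N}.ncard : ℝ) := by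
      exact_mod_cast h5
    rw [pow_one]
    linarith
  · obtain ⟨R₀, h1⟩ := h 2 (Bin 1 0 1) (bin_rank (by norm_num)) 1 (ε / 4) 1 one_pos (by positivity) le_rfl
    filter_upwards [eventually_ge_atTop (R₀ ^ 2 + 1)] with N hN
    set R := Nat.sqrt N with hR
    have hR1 : R₀ ≤ R := Nat.le_sqrt'.2 (by omega)
    have hR2 : 1 ≤ R := Nat.le_sqrt'.2 (by omega)
    have hRN : R ^ 2 ≤ N := Nat.sqrt_le' N
    have hRN' : N < (R + 1) ^ 2 := Nat.lt_succ_sqrt' N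
    have h3 := h1 (R + 1) (by omega) 0 0 (fun _ => -((R : ℤ) + 1)) (fun _ => (R : ℤ) + 1) (by
      intro i; simp; positivity) (by simp; positivity) (by
      intro i
      constructor
      · rw [abs_neg, abs_of_nonneg (by positivity)]; push_cast; exact le_rfl
      · rw [abs_of_nonneg (by positivity)]; push_cast; exact le_rfl) 0 N Set.univ (fun _ _ _ => Iff.rfl)
    have hbox : ∀ x : Fin 2 → ℤ, x 0 ^ 2 + x 1 ^ 2 ≤ N → ∀ i, -((R : ℤ) + 1) < x i ∧ x i ≤ (R : ℤ) + 1 := by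
      intro x hx
      have hz : (N : ℤ) < ((R : ℤ) + 1) ^ 2 := by exact_mod_cast hRN'
      have key : ∀ t : ℤ, t ^ 2 ≤ N → -((R : ℤ) + 1) < t ∧ t ≤ (R : ℤ) + 1 := by
        intro t ht
        have h5 : t ^ 2 < ((R : ℤ) + 1) ^ 2 := lt_of_le_of_lt ht hz
        have h6 := abs_lt_of_sq_lt_sq h5 (by positivity)
        rw [abs_lt] at h6
        exact ⟨h6.1, h6.2.le⟩
      intro i
      fin_cases i
      · exact key _ (by have := sq_nonneg (x 1); simp only [Fin.zero_eta]; linarith)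
      · exact key _ (by have := sq_nonneg (x 0); simp only [Fin.mk_one]; linarith)
    have hval : ∀ x : Fin 2 → ℤ, Val (Bin 1 0 1) 0 0 x = x 0 ^ 2 + x 1 ^ 2 := by
      intro x; rw [bin_val]; ring
    have hp : ∀ x y : ℤ, Odd (x ^ 2 + y ^ 2) → 0 < x ^ 2 + y ^ 2 := by
      intro x y ho
      have h7 : 0 ≤ x ^ 2 + y ^ 2 := by positivity
      rcases h7.eq_or_lt with h8 | h8
      · rw [← h8] at ho
        simp at ho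
      · exact h8
    rw [ncard_pair (fun x y => Odd (x ^ 2 + y ^ 2) ∧ x ^ 2 + y ^ 2 ≤ N ∧ P (x ^ 2 + y ^ 2).toNat),
      ncard_pair (fun x y => Odd (x ^ 2 + y ^ 2) ∧ x ^ 2 + y ^ 2 ≤ N)]
    have e1 : {x ∈ Points (Bin 1 0 1) 0 0 (fun _ : Fin 2 => -((R : ℤ) + 1)) (fun _ => (R : ℤ) + 1) 0 N Set.univ |
        Odd (Val (Bin 1 0 1) 0 0 x) ∧ P (Val (Bin 1 0 1) 0 0 x).toNat} =
        {x : Fin 2 → ℤ | Odd (x 0 ^ 2 + x 1 ^ 2) ∧ x 0 ^ 2 + x 1 ^ 2 ≤ N ∧ P (x 0 ^ 2 + x 1 ^ 2).toNat} := by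
      ext x
      simp only [Points, Set.mem_ofPred_eq, hval]
      constructor
      · rintro ⟨⟨-, ⟨q1, q2⟩, -⟩, q3, q4⟩; exact ⟨q3, q2, q4⟩
      · rintro ⟨q1, q2, q3⟩; exact ⟨⟨hbox x q2, ⟨hp _ _ q1, q2⟩, hp _ _ q1, trivial⟩, q1, q3⟩
    have e2 : {x ∈ Points (Bin 1 0 1) 0 0 (fun _ : Fin 2 => -((R : ℤ) + 1)) (fun _ => (R : ℤ) + 1) 0 N Set.univ |
        Odd (Val (Bin 1 0 1) 0 0 x)} =
        {x : Fin 2 → ℤ | Odd (x 0 ^ 2 + x 1 ^ 2) ∧ x 0 ^ 2 + x 1 ^ 2 ≤ N} := by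
      ext x
      simp only [Points, Set.mem_ofPred_eq, hval]
      constructor
      · rintro ⟨⟨-, ⟨q1, q2⟩, -⟩, q3⟩; exact ⟨q3, q2⟩
      · rintro ⟨q1, q2⟩; exact ⟨⟨hbox x q2, ⟨hp _ _ q1, q2⟩, hp _ _ q1, trivial⟩, q1⟩
    rw [e1, e2] at h3
    refine h3.trans ?_
    have h4 : ((R + 1 : ℕ) : ℝ) ^ 2 ≤ 4 * N := by
      have : (R + 1) ^ 2 ≤ 4 * R ^ 2 := by nlinarith
      have : (R + 1) ^ 2 ≤ 4 * N := by omega
      exact_mod_cast this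
    calc ε / 4 * ((R + 1 : ℕ) : ℝ) ^ 2 ≤ ε / 4 * (4 * N) := by gcongr
      _ = ε * (N : ℝ) ^ 1 := by ring

/-- PRODUCTS of odd numbers -/
theorem products_odd {P : ℕ → Prop} {f : ℝ} (h : FrequencyOdd P f) :
    Tendsto (fun N : ℕ => ({p : ℕ × ℕ | Odd p.1 ∧ Odd p.2 ∧ p.1 ≤ N ∧ p.2 ≤ N ∧ P (p.1 * p.2)}.ncard : ℝ) /
      {p : ℕ × ℕ | Odd p.1 ∧ Odd p.2 ∧ p.1 ≤ N ∧ p.2 ≤ N}.ncard) atTop (𝓝 f) := by
  have hP : ∀ (N : ℕ) (Q : ℕ → Prop), {p : ℕ × ℕ | Odd p.1 ∧ Odd p.2 ∧ p.1 ≤ N ∧ p.2 ≤ N ∧ Q (p.1 * p.2)}.ncard =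
      {x ∈ Points (Bin 0 1 0) 0 0 (fun _ => 0) (fun _ => (N : ℤ)) 0 (N ^ 2) Set.univ |
        Odd (Val (Bin 0 1 0) 0 0 x) ∧ Q (Val (Bin 0 1 0) 0 0 x).toNat}.ncard := by
    intro N Q
    have hval : ∀ x : Fin 2 → ℤ, Val (Bin 0 1 0) 0 0 x = x 0 * x 1 := by
      intro x; rw [bin_val]; ring
    have hpts : ∀ x : Fin 2 → ℤ, x ∈ Points (Bin 0 1 0) 0 0 (fun _ => 0) (fun _ => (N : ℤ)) 0 (N ^ 2) Set.univ ↔
        0 < x 0 ∧ 0 < x 1 ∧ x 0 ≤ N ∧ x 1 ≤ N := by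
      intro x
      simp only [Points, Set.mem_ofPred_eq, hval, Fin.forall_fin_two]
      constructor
      · rintro ⟨⟨⟨q1, q2⟩, q3, q4⟩, -⟩; exact ⟨q1, q3, q2, q4⟩
      · rintro ⟨q1, q3, q2, q4⟩
        have q5 : 0 < x 0 * x 1 := mul_pos q1 q3
        have q6 : x 0 * x 1 ≤ (N : ℤ) ^ 2 := by
          rw [sq]; exact mul_le_mul q2 q4 q3.le (by positivity)
        exact ⟨⟨⟨q1, q2⟩, q3, q4⟩, ⟨q5, q6⟩, q5, trivial⟩
    have := ncard_pairN (fun x y => Odd x ∧ Odd y ∧ x ≤ N ∧ y ≤ N ∧ Q (x * y).toNat)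
    have e3 : {p : ℕ × ℕ | Odd p.1 ∧ Odd p.2 ∧ p.1 ≤ N ∧ p.2 ≤ N ∧ Q (p.1 * p.2)} =
        {p : ℕ × ℕ | 1 ≤ p.1 ∧ 1 ≤ p.2 ∧ (Odd (p.1 : ℤ) ∧ Odd (p.2 : ℤ) ∧ (p.1 : ℤ) ≤ N ∧ (p.2 : ℤ) ≤ N ∧
          Q ((p.1 : ℤ) * (p.2 : ℤ)).toNat)} := by
      ext p
      simp only [Set.mem_ofPred_eq]
      rw [← Nat.cast_mul, Int.toNat_natCast, Int.odd_coe_nat, Int.odd_coe_nat, Nat.cast_le, Nat.cast_le]
      constructor
      · rintro ⟨g1, g2, g3⟩; exact ⟨g1.pos, g2.pos, g1, g2, g3⟩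
      · rintro ⟨-, -, g1, g2, g3⟩; exact ⟨g1, g2, g3⟩
    rw [e3, this]
    congr 1
    ext x
    simp only [Set.mem_ofPred_eq, hpts, hval, Int.odd_mul]
    tauto
  have hP0 : ∀ N : ℕ, {p : ℕ × ℕ | Odd p.1 ∧ Odd p.2 ∧ p.1 ≤ N ∧ p.2 ≤ N}.ncard =
      {x ∈ Points (Bin 0 1 0) 0 0 (fun _ => 0) (fun _ => (N : ℤ)) 0 (N ^ 2) Set.univ |
        Odd (Val (Bin 0 1 0) 0 0 x)}.ncard := by
    intro N
    have := hP N (fun _ => True)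
    simp only [and_true] at this
    exact this
  refine ratio_lim (κ := 1 / 16) (j := 2) (by norm_num) ?_ fun ε hε => ?_
  · filter_upwards [eventually_ge_atTop 2] with N hN
    have hsub : (fun p : ℕ × ℕ => (2 * p.1 + 1, 2 * p.2 + 1)) ''
        (((range (N / 2)) ×ˢ (range (N / 2)) : Finset (ℕ × ℕ)) : Set (ℕ × ℕ)) ⊆
        {p : ℕ × ℕ | Odd p.1 ∧ Odd p.2 ∧ p.1 ≤ N ∧ p.2 ≤ N} := by
      rintro _ ⟨⟨x, y⟩, hp, rfl⟩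
      rw [mem_coe, mem_product, mem_range, mem_range] at hp
      simp only at hp
      refine ⟨⟨x, rfl⟩, ⟨y, rfl⟩, ?_, ?_⟩
      · show 2 * x + 1 ≤ N; omega
      · show 2 * y + 1 ≤ N; omega
    have hinj : Function.Injective (fun p : ℕ × ℕ => (2 * p.1 + 1, 2 * p.2 + 1)) := by
      rintro ⟨x, y⟩ ⟨x', y'⟩ h
      simp only [Prod.mk.injEq] at h ⊢
      omega
    have hfin : {p : ℕ × ℕ | Odd p.1 ∧ Odd p.2 ∧ p.1 ≤ N ∧ p.2 ≤ N}.Finite := by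
      apply ((Set.finite_Iic N).prod (Set.finite_Iic N)).subset
      rintro ⟨x, y⟩ ⟨-, -, h1, h2⟩
      exact ⟨h1, h2⟩
    have h4 := Set.ncard_le_ncard hsub hfin
    rw [Set.ncard_image_of_injective _ hinj, Set.ncard_coe_finset, card_product, card_range] at h4
    have h5 : N ^ 2 ≤ 16 * {p : ℕ × ℕ | Odd p.1 ∧ Odd p.2 ∧ p.1 ≤ N ∧ p.2 ≤ N}.ncard := by
      have h6 : N ≤ 4 * (N / 2) := by omega
      nlinarith
    have h6 : (N : ℝ) ^ 2 ≤ 16 * ({p : ℕ × ℕ | Odd p.1 ∧ Odd p.2 ∧ p.1 ≤ N ∧ p.2 ≤ N}.ncard : ℝ) := by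
      exact_mod_cast h5
    linarith
  obtain ⟨R₀, h1⟩ := h 2 (Bin 0 1 0) (bin_rank (by norm_num)) 1 ε 1 one_pos hε le_rfl
  filter_upwards [eventually_ge_atTop R₀] with N hN
  have h2 := h1 N hN 0 0 (fun _ => 0) (fun _ => (N : ℤ)) (by intro i; simp) (by simp) (by
    intro i
    refine ⟨by simp, ?_⟩
    rw [abs_of_nonneg (by positivity)]) 0 (N ^ 2) Set.univ (fun _ _ _ => Iff.rfl)
  rw [hP, hP0]
  exact h2

end Pool.Agent.Run7.h145.QL.X
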