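import Pool.Agent.Run7.h145.QL.R

/-! Frequencies along quadratic polynomials: the statements, and their consequences for cubes, sums of two
squares, products and representations. -/

set_option autoImplicit false

namespace Pool.Agent.Run7.h145.QL.X

open Finset Filter Topology
open Pool.Agent.Run7.h145.QP (Pol Sy Lf Pol_add)
open Pool.Agent.Run7.h145.QL

/-- The value at `x` of the quadratic polynomial with quadratic part `∑ A i j x i x j`, linear part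
`∑ l i x i` and constant term `c`. -/
def Val {k : ℕ} (A : Fin k → Fin k → ℤ) (l : Fin k → ℤ) (c : ℤ) (x : Fin k → ℤ) : ℤ :=
  ∑ i, ∑ j, A i j * x i * x j + ∑ i, l i * x i + c

/-- The quadratic form `∑ A i j x i x j` has rank at least two. -/
def RankTwo {k : ℕ} (A : Fin k → Fin k → ℤ) : Prop :=
  ∃ p q r s : Fin k, (A p r + A r p) * (A q s + A s q) ≠ (A p s + A s p) * (A q r + A r q)

/-- The points of the box with `x ∈ D` and a positive value between `u` and `v`. -/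
def Points {k : ℕ} (A : Fin k → Fin k → ℤ) (l : Fin k → ℤ) (c : ℤ) (a b : Fin k → ℤ) (u v : ℤ)
    (D : Set (Fin k → ℤ)) : Set (Fin k → ℤ) :=
  {x | (∀ i, a i < x i ∧ x i ≤ b i) ∧ (u < Val A l c x ∧ Val A l c x ≤ v) ∧ 0 < Val A l c x ∧ x ∈ D}

/-- The frequency of `P` along quadratic polynomials is `f`. -/
def Frequency (P : ℕ → Prop) (f : ℝ) : Prop := ∀ (k : ℕ) (A : Fin k → Fin k → ℤ), RankTwo A →
  ∀ (B ε : ℝ) (q : ℕ), 0 < B → 0 < ε → 1 ≤ q → ∃ R₀ : ℕ, ∀ R : ℕ, R₀ ≤ R →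
  ∀ (l : Fin k → ℤ) (c : ℤ) (a b : Fin k → ℤ), (∀ i, |(l i : ℝ)| ≤ B * R) → |(c : ℝ)| ≤ B * R ^ 2 →
  (∀ i, |a i| ≤ R ∧ |b i| ≤ R) → ∀ (u v : ℤ) (D : Set (Fin k → ℤ)),
  (∀ x y : Fin k → ℤ, (∀ i, x i ≡ y i [ZMOD q]) → (x ∈ D ↔ y ∈ D)) →
  |({x ∈ Points A l c a b u v D | P (Val A l c x).toNat}.ncard : ℝ) - f * (Points A l c a b u v D).ncard| ≤ ε * R ^ k

/-- The frequency of `P` along the odd values of quadratic polynomials is `f`. -/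
def FrequencyOdd (P : ℕ → Prop) (f : ℝ) : Prop := ∀ (k : ℕ) (A : Fin k → Fin k → ℤ), RankTwo A →
  ∀ (B ε : ℝ) (q : ℕ), 0 < B → 0 < ε → 1 ≤ q → ∃ R₀ : ℕ, ∀ R : ℕ, R₀ ≤ R →
  ∀ (l : Fin k → ℤ) (c : ℤ) (a b : Fin k → ℤ), (∀ i, |(l i : ℝ)| ≤ B * R) → |(c : ℝ)| ≤ B * R ^ 2 →
  (∀ i, |a i| ≤ R ∧ |b i| ≤ R) → ∀ (u v : ℤ) (D : Set (Fin k → ℤ)),
  (∀ x y : Fin k → ℤ, (∀ i, x i ≡ y i [ZMOD q]) → (x ∈ D ↔ y ∈ D)) →
  |({x ∈ Points A l c a b u v D | Odd (Val A l c x) ∧ P (Val A l c x).toNat}.ncard : ℝ) -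
    f * {x ∈ Points A l c a b u v D | Odd (Val A l c x)}.ncard| ≤ ε * R ^ k

/-- The points of the box with `x ∈ D` and a value of sign `s` between `u` and `v`. -/
def PointsS {k : ℕ} (s : ℤ) (A : Fin k → Fin k → ℤ) (l : Fin k → ℤ) (c : ℤ) (a b : Fin k → ℤ) (u v : ℤ)
    (D : Set (Fin k → ℤ)) : Set (Fin k → ℤ) :=
  {x | (∀ i, a i < x i ∧ x i ≤ b i) ∧ (u < Val A l c x ∧ Val A l c x ≤ v) ∧ 0 < s * Val A l c x ∧ x ∈ D}

/-- The frequency of the set `S` of integers among the values of sign `s` of quadratic polynomials is `f`. -/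
def FrequencyS (s : ℤ) (S : Set ℤ) (f : ℝ) : Prop := ∀ (k : ℕ) (A : Fin k → Fin k → ℤ), RankTwo A →
  ∀ (B ε : ℝ) (q : ℕ), 0 < B → 0 < ε → 1 ≤ q → ∃ R₀ : ℕ, ∀ R : ℕ, R₀ ≤ R →
  ∀ (l : Fin k → ℤ) (c : ℤ) (a b : Fin k → ℤ), (∀ i, |(l i : ℝ)| ≤ B * R) → |(c : ℝ)| ≤ B * R ^ 2 →
  (∀ i, |a i| ≤ R ∧ |b i| ≤ R) → ∀ (u v : ℤ) (D : Set (Fin k → ℤ)),
  (∀ x y : Fin k → ℤ, (∀ i, x i ≡ y i [ZMOD q]) → (x ∈ D ↔ y ∈ D)) →
  |({x ∈ PointsS s A l c a b u v D | Val A l c x ∈ S}.ncard : ℝ) - f * (PointsS s A l c a b u v D).ncard| ≤ ε * R ^ k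

theorem mi {k : ℕ} {A : Fin k → Fin k → ℤ} (h : RankTwo A) : Mi A := by
  obtain ⟨p, q, r, s, h⟩ := h
  refine ⟨p, q, r, s, ?_, ?_, ?_⟩
  · rintro rfl
    apply h
    ring
  · rintro rfl
    exact h rfl
  · unfold Sy
    intro h1
    exact h (sub_eq_zero.1 h1)

theorem of_fr {P : ℕ → Prop} {f : ℝ} (h : QV.Fr P f) : Frequency P f := by
  intro k A hA B ε q hB hε hq
  obtain ⟨R₀, -, h1⟩ := count_form h (mi hA) hB hε hq
  refine ⟨R₀, fun R hR l c a b hl hc hab u v D hD => ?_⟩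
  have h2 := h1 R hR l c a b hl hc hab u v D hD
  have e1 : {x ∈ Points A l c a b u v D | P (Val A l c x).toNat} = {x : Fin k → ℤ | (∀ i, a i < x i ∧ x i ≤ b i) ∧
      (u < Pol A l c x ∧ Pol A l c x ≤ v) ∧ 0 < Pol A l c x ∧ x ∈ D ∧ P (Pol A l c x).toNat} := by
    ext x
    constructor
    · rintro ⟨⟨g1, g2, g3, g4⟩, g5⟩; exact ⟨g1, g2, g3, g4, g5⟩
    · rintro ⟨g1, g2, g3, g4, g5⟩; exact ⟨⟨g1, g2, g3, g4⟩, g5⟩
  rw [e1]
  exact h2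

theorem of_fr_odd {P : ℕ → Prop} {f : ℝ} (h : QV.Fr P f) : FrequencyOdd P f := by
  intro k A hA B ε q hB hε hq
  obtain ⟨R₀, -, h1⟩ := count_odd h (mi hA) hB hε hq
  refine ⟨R₀, fun R hR l c a b hl hc hab u v D hD => ?_⟩
  have h2 := h1 R hR l c a b hl hc hab u v D hD
  have e1 : {x ∈ Points A l c a b u v D | Odd (Val A l c x) ∧ P (Val A l c x).toNat} =
      {x : Fin k → ℤ | (∀ i, a i < x i ∧ x i ≤ b i) ∧ (u < Pol A l c x ∧ Pol A l c x ≤ v) ∧ 0 < Pol A l c x ∧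
      (x ∈ D ∧ Odd (Pol A l c x)) ∧ P (Pol A l c x).toNat} := by
    ext x
    constructor
    · rintro ⟨⟨g1, g2, g3, g4⟩, g5, g6⟩; exact ⟨g1, g2, g3, ⟨g4, g5⟩, g6⟩
    · rintro ⟨g1, g2, g3, ⟨g4, g5⟩, g6⟩; exact ⟨⟨g1, g2, g3, g4⟩, g5, g6⟩
  have e2 : {x ∈ Points A l c a b u v D | Odd (Val A l c x)} =
      {x : Fin k → ℤ | (∀ i, a i < x i ∧ x i ≤ b i) ∧ (u < Pol A l c x ∧ Pol A l c x ≤ v) ∧ 0 < Pol A l c x ∧
      x ∈ D ∧ Odd (Pol A l c x)} := by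
    ext x
    constructor
    · rintro ⟨⟨g1, g2, g3, g4⟩, g5⟩; exact ⟨g1, g2, g3, g4, g5⟩
    · rintro ⟨g1, g2, g3, g4, g5⟩; exact ⟨⟨g1, g2, g3, g4⟩, g5⟩
  rw [e1, e2]
  exact h2

/-- reflection -/
theorem val_neg {k : ℕ} (A : Fin k → Fin k → ℤ) (l : Fin k → ℤ) (c : ℤ) (x : Fin k → ℤ) :
    Val (fun i j => -A i j) (fun i => -l i) (-c) x = -Val A l c x := by
  unfold Val
  simp only [neg_mul, sum_neg_distrib]
  ring

theorem rank_neg {k : ℕ} {A : Fin k → Fin k → ℤ} (h : RankTwo A) : RankTwo (fun i j => -A i j) := by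
  obtain ⟨p, q, r, s, h⟩ := h
  refine ⟨p, q, r, s, fun h1 => h ?_⟩
  linear_combination h1

theorem of_frS {s : ℤ} (hs : s = 1 ∨ s = -1) {S : Set ℤ} {f : ℝ} (h : Frequency (fun n => s * (n : ℤ) ∈ S) f) :
    FrequencyS s S f := by
  intro k A hA B ε q hB hε hq
  rcases hs with rfl | rfl
  · obtain ⟨R₀, h1⟩ := h k A hA B ε q hB hε hq
    refine ⟨R₀, fun R hR l c a b hl hc hab u v D hD => ?_⟩
    have h2 := h1 R hR l c a b hl hc hab u v D hD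
    have e1 : {x ∈ Points A l c a b u v D | (1 : ℤ) * ((Val A l c x).toNat : ℤ) ∈ S} =
        {x ∈ PointsS 1 A l c a b u v D | Val A l c x ∈ S} := by
      ext x
      constructor
      · rintro ⟨⟨g1, g2, g3, g4⟩, g5⟩
        refine ⟨⟨g1, g2, by rw [one_mul]; exact g3, g4⟩, ?_⟩
        rw [one_mul, Int.toNat_of_nonneg g3.le] at g5
        exact g5
      · rintro ⟨⟨g1, g2, g3, g4⟩, g5⟩
        rw [one_mul] at g3
        refine ⟨⟨g1, g2, g3, g4⟩, ?_⟩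
        rw [one_mul, Int.toNat_of_nonneg g3.le]
        exact g5
    have e2 : Points A l c a b u v D = PointsS 1 A l c a b u v D := by
      unfold Points PointsS
      simp only [one_mul]
    rw [e1, e2] at h2
    exact h2
  · obtain ⟨R₀, h1⟩ := h k (fun i j => -A i j) (rank_neg hA) B ε q hB hε hq
    refine ⟨R₀, fun R hR l c a b hl hc hab u v D hD => ?_⟩
    have h2 := h1 R hR (fun i => -l i) (-c) a b (fun i => by push_cast; rw [abs_neg]; exact hl i) (by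
      push_cast; rw [abs_neg]; exact hc) hab (-v - 1) (-u - 1) D hD
    have e1 : {x ∈ Points (fun i j => -A i j) (fun i => -l i) (-c) a b (-v - 1) (-u - 1) D |
        (-1 : ℤ) * ((Val (fun i j => -A i j) (fun i => -l i) (-c) x).toNat : ℤ) ∈ S} =
        {x ∈ PointsS (-1) A l c a b u v D | Val A l c x ∈ S} := by
      ext x
      constructor
      · rintro ⟨⟨g1, g2, g3, g4⟩, g5⟩
        rw [val_neg] at g2 g3 g5
        refine ⟨⟨g1, by omega, by omega, g4⟩, ?_⟩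
        rw [Int.toNat_of_nonneg g3.le, neg_one_mul, neg_neg] at g5
        exact g5
      · rintro ⟨⟨g1, g2, g3, g4⟩, g5⟩
        have g3' : 0 < -Val A l c x := by omega
        refine ⟨⟨g1, by rw [val_neg]; omega, by rw [val_neg]; omega, g4⟩, ?_⟩
        rw [val_neg, Int.toNat_of_nonneg g3'.le, neg_one_mul, neg_neg]
        exact g5
    have e2 : Points (fun i j => -A i j) (fun i => -l i) (-c) a b (-v - 1) (-u - 1) D = PointsS (-1) A l c a b u v D := by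
      ext x
      constructor
      · rintro ⟨g1, g2, g3, g4⟩
        rw [val_neg] at g2 g3
        exact ⟨g1, by omega, by omega, g4⟩
      · rintro ⟨g1, g2, g3, g4⟩
        exact ⟨g1, by rw [val_neg]; omega, by rw [val_neg]; omega, g4⟩
    rw [e1, e2] at h2
    exact h2

/-! ### ratios -/

theorem ratio_lim {a b : ℕ → ℝ} {f κ : ℝ} {j : ℕ} (hκ : 0 < κ) (hb : ∀ᶠ N : ℕ in atTop, κ * (N : ℝ) ^ j ≤ b N)
    (h : ∀ ε : ℝ, 0 < ε → ∀ᶠ N : ℕ in atTop, |a N - f * b N| ≤ ε * (N : ℝ) ^ j) :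
    Tendsto (fun N => a N / b N) atTop (𝓝 f) := by
  rw [Metric.tendsto_atTop]
  intro ε hε
  obtain ⟨N₀, h1⟩ := eventually_atTop.1 ((hb.and (h (ε * κ / 2) (by positivity))).and (eventually_ge_atTop 1))
  refine ⟨N₀, fun N hN => ?_⟩
  obtain ⟨⟨h2, h3⟩, h4⟩ := h1 N hN
  have hN0 : (0 : ℝ) < (N : ℝ) ^ j := pow_pos (by exact_mod_cast h4) j
  have hb0 : 0 < b N := lt_of_lt_of_le (by positivity) h2
  rw [Real.dist_eq]
  have e : a N / b N - f = (a N - f * b N) / b N := by field_simp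
  rw [e, abs_div, abs_of_pos hb0, div_lt_iff₀ hb0]
  calc |a N - f * b N| ≤ ε * κ / 2 * (N : ℝ) ^ j := h3
    _ < ε * (κ * (N : ℝ) ^ j) := by nlinarith [mul_pos (mul_pos hε hκ) hN0]
    _ ≤ ε * b N := by gcongr

/-- the points of a cube -/
def Cube (k N : ℕ) : Set (Fin k → ℤ) := {x | ∀ i, |x i| ≤ N}

theorem cube_finite (k N : ℕ) : (Cube k N).Finite := by
  have : Cube k N = ((Fintype.piFinset (fun _ => Finset.Icc (-(N : ℤ)) N) : Finset (Fin k → ℤ)) : Set (Fin k → ℤ)) := by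
    ext x
    simp [Cube, abs_le, Pi.le_def, forall_and]
  rw [this]
  exact Finset.finite_toSet _

theorem cube_iff {k N : ℕ} {x : Fin k → ℤ} : (∀ i, |x i| ≤ (N : ℤ)) ↔ ∀ i, -(N : ℤ) - 1 < x i ∧ x i ≤ (N : ℤ) := by
  refine forall_congr' fun i => ?_
  rw [abs_le]
  constructor
  · rintro ⟨h1, h2⟩; exact ⟨by omega, h2⟩
  · rintro ⟨h1, h2⟩; exact ⟨by omega, h2⟩

/-- a polynomial whose quadratic part takes a positive value is positive at a positive proportion of the points -/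
theorem pos_prop {k : ℕ} (A : Fin k → Fin k → ℤ) (l : Fin k → ℤ) (c : ℤ) {x₀ : Fin k → ℤ}
    (h0 : 0 < ∑ i, ∑ j, A i j * x₀ i * x₀ j) : ∃ κ : ℝ, 0 < κ ∧ ∀ᶠ N : ℕ in atTop,
      κ * (N : ℝ) ^ k ≤ {x : Fin k → ℤ | (∀ i, |x i| ≤ N) ∧ 0 < Val A l c x}.ncard := by
  set X : ℤ := ∑ i, |x₀ i| with hX
  set a : ℤ := ∑ i, ∑ j, |A i j| with ha
  set Λ : ℤ := ∑ i, |l i| with hΛ
  have hX0 : 0 ≤ X := sum_nonneg fun _ _ => abs_nonneg _
  have ha0 : 0 ≤ a := sum_nonneg fun _ _ => sum_nonneg fun _ _ => abs_nonneg _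
  have hΛ0 : 0 ≤ Λ := sum_nonneg fun _ _ => abs_nonneg _
  have hXi : ∀ i, |x₀ i| ≤ X := fun i => single_le_sum (f := fun i => |x₀ i|) (fun _ _ => abs_nonneg _) (mem_univ i)
  have bil : ∀ (x y : Fin k → ℤ) (u v : ℤ), (∀ i, |x i| ≤ u) → (∀ i, |y i| ≤ v) → 0 ≤ u → 0 ≤ v →
      |∑ i, ∑ j, A i j * x i * y j| ≤ a * (u * v) := by
    intro x y u v hx hy hu hv
    calc |∑ i, ∑ j, A i j * x i * y j| ≤ ∑ i, ∑ j, |A i j * x i * y j| :=
          (abs_sum_le_sum_abs _ _).trans (sum_le_sum fun i _ => abs_sum_le_sum_abs _ _)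
      _ ≤ ∑ i, ∑ j, |A i j| * (u * v) := by
          refine sum_le_sum fun i _ => sum_le_sum fun j _ => ?_
          rw [abs_mul, abs_mul, mul_assoc]
          exact mul_le_mul_of_nonneg_left (mul_le_mul (hx i) (hy j) (abs_nonneg _) hu) (abs_nonneg _)
      _ = a * (u * v) := by rw [ha, sum_mul]; simp_rw [sum_mul]
  set D : ℤ := 2 * a * X + a + 2 with hD
  have hD2 : 2 ≤ D := by nlinarith [mul_nonneg ha0 hX0]
  set m₀ : ℤ := Λ * (D * X + 1) + |c| + 1 with hm₀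
  have key : ∀ (m : ℤ) (y : Fin k → ℤ), m₀ ≤ m → (∀ i, |y i| ≤ m) → 0 < Val A l c (fun i => D * m * x₀ i + y i) := by
    intro m y hm hy
    have hm0 : 1 ≤ m := by
      have : 0 ≤ Λ * (D * X + 1) := by positivity
      have := abs_nonneg c
      omega
    have e1 : ∑ i, ∑ j, A i j * (D * m * x₀ i + y i) * (D * m * x₀ j + y j) =
        D ^ 2 * m ^ 2 * ∑ i, ∑ j, A i j * x₀ i * x₀ j + D * m * ∑ i, ∑ j, A i j * x₀ i * y j +
        D * m * ∑ i, ∑ j, A i j * y i * x₀ j + ∑ i, ∑ j, A i j * y i * y j := by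
      simp_rw [mul_sum, ← sum_add_distrib]
      refine sum_congr rfl fun i _ => sum_congr rfl fun j _ => ?_
      ring
    have b1 := bil x₀ y X m hXi hy hX0 (by omega)
    have b2 := bil y x₀ m X hy hXi (by omega) hX0
    have b3 := bil y y m m hy hy (by omega) (by omega)
    have b4 : |∑ i, l i * (D * m * x₀ i + y i)| ≤ Λ * ((D * X + 1) * m) := by
      calc |∑ i, l i * (D * m * x₀ i + y i)| ≤ ∑ i, |l i| * ((D * X + 1) * m) := by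
            refine (abs_sum_le_sum_abs _ _).trans (sum_le_sum fun i _ => ?_)
            rw [abs_mul]
            refine mul_le_mul_of_nonneg_left ?_ (abs_nonneg _)
            refine (abs_add_le _ _).trans ?_
            rw [abs_mul, abs_mul, abs_of_nonneg (by omega : 0 ≤ D), abs_of_nonneg (by omega : 0 ≤ m)]
            have c1 := mul_le_mul_of_nonneg_left (hXi i) (by positivity : 0 ≤ D * m)
            have c2 := hy i
            nlinarith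
        _ = Λ * ((D * X + 1) * m) := by rw [hΛ, sum_mul]
    have hval : Val A l c (fun i => D * m * x₀ i + y i) =
        D ^ 2 * m ^ 2 * ∑ i, ∑ j, A i j * x₀ i * x₀ j + D * m * ∑ i, ∑ j, A i j * x₀ i * y j +
        D * m * ∑ i, ∑ j, A i j * y i * x₀ j + ∑ i, ∑ j, A i j * y i * y j +
        ∑ i, l i * (D * m * x₀ i + y i) + c := by
      unfold Val
      rw [e1]
    rw [hval]
    have hDm : 0 ≤ D * m := by positivity
    have f1 := mul_le_mul_of_nonneg_left (abs_le.1 b1).1 hDm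
    have f2 := mul_le_mul_of_nonneg_left (abs_le.1 b2).1 hDm
    have f3 := (abs_le.1 b3).1
    have f4 := (abs_le.1 b4).1
    have f5 := neg_abs_le c
    have f6 : D ^ 2 * m ^ 2 * 1 ≤ D ^ 2 * m ^ 2 * ∑ i, ∑ j, A i j * x₀ i * x₀ j :=
      mul_le_mul_of_nonneg_left (by omega) (by positivity)
    -- D² - 2 a X D - a ≥ 1
    have g1 : 1 ≤ D ^ 2 - 2 * a * X * D - a := by
      have : D ^ 2 - 2 * a * X * D - a = D * (a + 2) - a := by rw [hD]; ring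
      rw [this]
      nlinarith
    have g2 : m ^ 2 * 1 ≤ m ^ 2 * (D ^ 2 - 2 * a * X * D - a) := mul_le_mul_of_nonneg_left g1 (by positivity)
    have g3 : Λ * (D * X + 1) + |c| + 1 ≤ m := hm
    have g4 : (Λ * (D * X + 1) + |c| + 1) * m ≤ m * m := mul_le_mul_of_nonneg_right g3 (by omega)
    have g5 : |c| * 1 ≤ |c| * m := mul_le_mul_of_nonneg_left hm0 (abs_nonneg _)
    nlinarith
  set E : ℕ := (D * X + 1).toNat with hE
  have hE1 : (E : ℤ) = D * X + 1 := by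
    rw [hE]; exact Int.toNat_of_nonneg (by positivity)
  have hE0 : 1 ≤ E := by
    have : (1 : ℤ) ≤ E := by rw [hE1]; nlinarith [mul_nonneg (by omega : 0 ≤ D) hX0]
    exact_mod_cast this
  refine ⟨1 / (2 * E) ^ k, by positivity, ?_⟩
  filter_upwards [eventually_ge_atTop (E * (m₀.toNat + 1))] with N hN
  set m : ℕ := N / E with hm
  have hm1 : m₀.toNat + 1 ≤ m := by
    rw [hm, Nat.le_div_iff_mul_le (by omega)]
    linarith
  have hm2 : m₀ ≤ m := by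
    have := Int.self_le_toNat m₀
    have h3 : ((m₀.toNat : ℕ) : ℤ) ≤ m := by exact_mod_cast (by omega : m₀.toNat ≤ m)
    omega
  have hmE : m * E ≤ N := Nat.div_mul_le_self _ _
  have hmN : N ≤ 2 * E * m := by
    have := Nat.lt_mul_div_succ N (show 0 < E by omega)
    rw [← hm] at this
    nlinarith
  have hinj : Function.Injective (fun y : Fin k → ℤ => fun i => D * m * x₀ i + y i) := by
    intro y y' h
    ext i
    have := congrFun h i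
    simpa using this
  have hsub : (fun y : Fin k → ℤ => fun i => D * m * x₀ i + y i) ''
      ((Fintype.piFinset (fun _ : Fin k => Ioc (0 : ℤ) m) : Finset (Fin k → ℤ)) : Set (Fin k → ℤ)) ⊆
      {x : Fin k → ℤ | (∀ i, |x i| ≤ N) ∧ 0 < Val A l c x} := by
    rintro x ⟨y, hy, rfl⟩
    rw [mem_coe, Fintype.mem_piFinset] at hy
    have hy' : ∀ i, |y i| ≤ m := by
      intro i
      have := mem_Ioc.1 (hy i)
      rw [abs_le]; constructor <;> omega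
    refine ⟨fun i => ?_, key m y hm2 hy'⟩
    refine (abs_add_le _ _).trans ?_
    rw [abs_mul, abs_mul, abs_of_nonneg (by omega : 0 ≤ D), abs_of_nonneg (by positivity : (0 : ℤ) ≤ m)]
    have c1 := mul_le_mul_of_nonneg_left (hXi i) (by positivity : 0 ≤ D * m)
    have c2 := hy' i
    have c3 : (m : ℤ) * E ≤ N := by exact_mod_cast hmE
    rw [hE1] at c3
    nlinarith
  have hfin : {x : Fin k → ℤ | (∀ i, |x i| ≤ N) ∧ 0 < Val A l c x}.Finite :=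
    (cube_finite k N).subset fun x hx => hx.1
  have h1 := Set.ncard_le_ncard hsub hfin
  rw [Set.ncard_image_of_injective _ hinj, Set.ncard_coe_finset, Fintype.card_piFinset] at h1
  simp only [Int.card_Ioc, sub_zero, Int.toNat_natCast, prod_const, card_univ, Fintype.card_fin] at h1
  have h2 : ((m ^ k : ℕ) : ℝ) ≤ ({x : Fin k → ℤ | (∀ i, |x i| ≤ N) ∧ 0 < Val A l c x}.ncard : ℝ) := by
    exact_mod_cast h1
  refine le_trans ?_ h2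
  rw [one_div, inv_mul_le_iff₀ (by positivity)]
  push_cast
  rw [← mul_pow]
  apply pow_le_pow_left₀ (Nat.cast_nonneg _)
  exact_mod_cast hmN

theorem coef_bound {k : ℕ} (l : Fin k → ℤ) (c : ℤ) : ∃ L : ℝ, 0 < L ∧ (∀ i, |(l i : ℝ)| ≤ L) ∧ |(c : ℝ)| ≤ L := by
  refine ⟨∑ i, |(l i : ℝ)| + |(c : ℝ)| + 1, by positivity, fun i => ?_, ?_⟩
  · have := Finset.single_le_sum (f := fun i => |(l i : ℝ)|) (fun i _ => abs_nonneg _) (Finset.mem_univ i)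
    have h2 := abs_nonneg (c : ℝ)
    linarith
  · have : 0 ≤ ∑ i, |(l i : ℝ)| := Finset.sum_nonneg fun i _ => abs_nonneg _
    linarith

theorem val_bd {k : ℕ} (A : Fin k → Fin k → ℤ) (l : Fin k → ℤ) (c : ℤ) (N : ℕ) :
    ∃ V : ℤ, 0 ≤ V ∧ ∀ x : Fin k → ℤ, (∀ i, |x i| ≤ (N : ℤ)) → |Val A l c x| ≤ V := by
  obtain ⟨V, hV⟩ := ((cube_finite k N).image (fun x => |Val A l c x|)).bddAbove
  refine ⟨max V 0, le_max_right _ _, fun x hx => ?_⟩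
  exact (hV (Set.mem_image_of_mem _ hx)).trans (le_max_left _ _)

/-- CUBES -/
theorem cubes {P : ℕ → Prop} {f : ℝ} (h : Frequency P f) {k : ℕ} {A : Fin k → Fin k → ℤ} (hA : RankTwo A)
    (l : Fin k → ℤ) (c : ℤ) {x₀ : Fin k → ℤ} (h0 : 0 < ∑ i, ∑ j, A i j * x₀ i * x₀ j) :
    Tendsto (fun N : ℕ => ({x : Fin k → ℤ | (∀ i, |x i| ≤ N) ∧ 0 < Val A l c x ∧ P (Val A l c x).toNat}.ncard : ℝ) /
      {x : Fin k → ℤ | (∀ i, |x i| ≤ N) ∧ 0 < Val A l c x}.ncard) atTop (𝓝 f) := by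
  obtain ⟨κ, hκ, hpos⟩ := pos_prop A l c h0
  refine ratio_lim hκ hpos fun ε hε => ?_
  obtain ⟨L, hL0, hL1, hL2⟩ := coef_bound l c
  obtain ⟨R₀, h1⟩ := h k A hA L (ε / 2 ^ k) 1 hL0 (by positivity) le_rfl
  filter_upwards [eventually_ge_atTop (R₀ + 1)] with N hN
  have hN1 : (1 : ℝ) ≤ N := by exact_mod_cast (by omega : 1 ≤ N)
  obtain ⟨V, hV0, hV⟩ := val_bd A l c N
  have h2 := h1 (N + 1) (by omega) l c (fun _ => -(N : ℤ) - 1) (fun _ => (N : ℤ)) (fun i => by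
      push_cast
      have := hL1 i
      nlinarith) (by
      push_cast
      have : (1 : ℝ) ≤ ((N : ℝ) + 1) ^ 2 := by nlinarith
      nlinarith) (fun i => by
      constructor
      · rw [abs_le]; push_cast; constructor <;> omega
      · rw [abs_le]; push_cast; constructor <;> omega) 0 V Set.univ (fun _ _ _ => Iff.rfl)
  have e1 : {x ∈ Points A l c (fun _ => -(N : ℤ) - 1) (fun _ => (N : ℤ)) 0 V Set.univ | P (Val A l c x).toNat} =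
      {x : Fin k → ℤ | (∀ i, |x i| ≤ N) ∧ 0 < Val A l c x ∧ P (Val A l c x).toNat} := by
    ext x
    constructor
    · rintro ⟨⟨g1, g2, g3, -⟩, g5⟩; exact ⟨cube_iff.2 g1, g3, g5⟩
    · rintro ⟨g1, g3, g5⟩
      exact ⟨⟨cube_iff.1 g1, ⟨g3, (le_abs_self _).trans (hV x g1)⟩, g3, trivial⟩, g5⟩
  have e2 : Points A l c (fun _ => -(N : ℤ) - 1) (fun _ => (N : ℤ)) 0 V Set.univ =
      {x : Fin k → ℤ | (∀ i, |x i| ≤ N) ∧ 0 < Val A l c x} := by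
    ext x
    constructor
    · rintro ⟨g1, g2, g3, -⟩; exact ⟨cube_iff.2 g1, g3⟩
    · rintro ⟨g1, g3⟩
      exact ⟨cube_iff.1 g1, ⟨g3, (le_abs_self _).trans (hV x g1)⟩, g3, trivial⟩
  rw [e1, e2] at h2
  refine h2.trans ?_
  calc ε / 2 ^ k * ((N + 1 : ℕ) : ℝ) ^ k ≤ ε / 2 ^ k * (2 * N) ^ k := by
        gcongr
        push_cast; linarith
    _ = ε * (N : ℝ) ^ k := by rw [mul_pow]; field_simp

/-- pairs -/
theorem ncard_pair (Φ : ℤ → ℤ → Prop) : {p : ℤ × ℤ | Φ p.1 p.2}.ncard = {x : Fin 2 → ℤ | Φ (x 0) (x 1)}.ncard := by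
  have e : {p : ℤ × ℤ | Φ p.1 p.2} = (finTwoArrowEquiv ℤ) '' {x : Fin 2 → ℤ | Φ (x 0) (x 1)} := by
    ext p
    simp only [Set.mem_ofPred_eq, Set.mem_image]
    constructor
    · intro h
      exact ⟨![p.1, p.2], by simpa using h, by simp [finTwoArrowEquiv]⟩
    · rintro ⟨x, hx, rfl⟩
      simpa [finTwoArrowEquiv] using hx
  rw [e, Set.ncard_image_of_injective _ (finTwoArrowEquiv ℤ).injective]

/-- binary forms -/
def Bin (α β γ : ℤ) : Fin 2 → Fin 2 → ℤ := ![![α, β], ![0, γ]]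

theorem bin_val (α β γ c : ℤ) (x : Fin 2 → ℤ) :
    Val (Bin α β γ) 0 c x = α * x 0 ^ 2 + β * x 0 * x 1 + γ * x 1 ^ 2 + c := by
  unfold Val Bin
  simp [Fin.sum_univ_two]
  ring

theorem bin_rank {α β γ : ℤ} (h : β ^ 2 ≠ 4 * α * γ) : RankTwo (Bin α β γ) := by
  refine ⟨0, 1, 0, 1, ?_⟩
  unfold Bin
  simp
  intro h1
  apply h
  linear_combination -h1

/-- SUMS OF TWO SQUARES -/
theorem two_squares {P : ℕ → Prop} {f : ℝ} (h : Frequency P f) :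
    Tendsto (fun N : ℕ => ({p : ℤ × ℤ | 0 < p.1 ^ 2 + p.2 ^ 2 ∧ p.1 ^ 2 + p.2 ^ 2 ≤ N ∧
      P (p.1 ^ 2 + p.2 ^ 2).toNat}.ncard : ℝ) /
      {p : ℤ × ℤ | 0 < p.1 ^ 2 + p.2 ^ 2 ∧ p.1 ^ 2 + p.2 ^ 2 ≤ N}.ncard) atTop (𝓝 f) := by
  have hfin : ∀ N : ℕ, {p : ℤ × ℤ | 0 < p.1 ^ 2 + p.2 ^ 2 ∧ p.1 ^ 2 + p.2 ^ 2 ≤ N}.Finite := by
    intro N
    apply ((Set.finite_Icc (-(N : ℤ)) N).prod (Set.finite_Icc (-(N : ℤ)) N)).subset
    rintro ⟨x, y⟩ ⟨-, h2⟩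
    simp only at h2
    have hx : x ^ 2 ≤ N := by nlinarith [sq_nonneg y]
    have hy : y ^ 2 ≤ N := by nlinarith [sq_nonneg x]
    have key : ∀ t : ℤ, t ^ 2 ≤ N → -(N : ℤ) ≤ t ∧ t ≤ N := by
      intro t ht
      constructor <;> nlinarith [sq_nonneg t, sq_nonneg (t - 1), sq_nonneg (t + 1)]
    exact ⟨key x hx, key y hy⟩
  refine ratio_lim (κ := 1 / 8) (j := 1) (by norm_num) ?_ fun ε hε => ?_
  · filter_upwards [eventually_ge_atTop 8] with N hN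
    set m := Nat.sqrt (N / 2) with hm
    have h1 : m ^ 2 ≤ N / 2 := Nat.sqrt_le' _
    have h2 : N / 2 < (m + 1) ^ 2 := Nat.lt_succ_sqrt' _
    have hm1 : 2 ≤ m := Nat.le_sqrt'.2 (by omega)
    have h3 : N ≤ 8 * m ^ 2 := by
      have : (m + 1) ^ 2 ≤ 4 * m ^ 2 := by nlinarith
      omega
    have hsub : (((Ioc (0 : ℤ) m) ×ˢ (Ioc (0 : ℤ) m) : Finset (ℤ × ℤ)) : Set (ℤ × ℤ)) ⊆
        {p : ℤ × ℤ | 0 < p.1 ^ 2 + p.2 ^ 2 ∧ p.1 ^ 2 + p.2 ^ 2 ≤ N} := by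
      rintro ⟨x, y⟩ hp
      rw [mem_coe, mem_product, mem_Ioc, mem_Ioc] at hp
      obtain ⟨⟨q1, q2⟩, q3, q4⟩ := hp
      simp only at q1 q2 q3 q4
      have e1 : x ^ 2 ≤ (m : ℤ) ^ 2 := pow_le_pow_left₀ q1.le q2 2
      have e2 : y ^ 2 ≤ (m : ℤ) ^ 2 := pow_le_pow_left₀ q3.le q4 2
      have e3 : 2 * m ^ 2 ≤ N := by omega
      have e4 : 2 * (m : ℤ) ^ 2 ≤ N := by exact_mod_cast e3
      refine ⟨?_, ?_⟩
      · show 0 < x ^ 2 + y ^ 2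
        positivity
      · show x ^ 2 + y ^ 2 ≤ N
        linarith
    have h4 := Set.ncard_le_ncard hsub (hfin N)
    rw [Set.ncard_coe_finset, card_product] at h4
    simp only [Int.card_Ioc, sub_zero, Int.toNat_natCast] at h4
    have h5 : N ≤ 8 * {p : ℤ × ℤ | 0 < p.1 ^ 2 + p.2 ^ 2 ∧ p.1 ^ 2 + p.2 ^ 2 ≤ N}.ncard := by nlinarith
    have h6 : (N : ℝ) ≤ 8 * ({p : ℤ × ℤ | 0 < p.1 ^ 2 + p.2 ^ 2 ∧ p.1 ^ 2 + p.2 ^ 2 ≤ N}.ncard : ℝ) := by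
      exact_mod_cast h5
    rw [pow_one]
    linarith
  · obtain ⟨R₀, h1⟩ := h 2 (Bin 1 0 1) (bin_rank (by norm_num)) 1 (ε / 4) 1 one_pos (by positivity) le_rfl
    filter_upwards [eventually_ge_atTop (R₀ ^ 2 + 1)] with N hN
    set R := Nat.sqrt N with hR
    have hR1 : R₀ ≤ R := Nat.le_sqrt'.2 (by omega)
    have hR2 : 1 ≤ R := Nat.le_sqrt'.2 (by omega)
    have hRN : R ^ 2 ≤ N := Nat.sqrt_le' N
    have hRN' : N < (R + 1) ^ 2 := Nat.lt_succ_sqrt' N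
    have h3 := h1 (R + 1) (by omega) 0 0 (fun _ => -((R : ℤ) + 1)) (fun _ => (R : ℤ) + 1) (by
      intro i; simp; positivity) (by simp; positivity) (by
      intro i
      constructor
      · rw [abs_neg, abs_of_nonneg (by positivity)]; push_cast; exact le_rfl
      · rw [abs_of_nonneg (by positivity)]; push_cast; exact le_rfl) 0 N Set.univ (fun _ _ _ => Iff.rfl)
    have hbox : ∀ x : Fin 2 → ℤ, x 0 ^ 2 + x 1 ^ 2 ≤ N → ∀ i, -((R : ℤ) + 1) < x i ∧ x i ≤ (R : ℤ) + 1 := by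
      intro x hx
      have hz : (N : ℤ) < ((R : ℤ) + 1) ^ 2 := by exact_mod_cast hRN'
      have key : ∀ t : ℤ, t ^ 2 ≤ N → -((R : ℤ) + 1) < t ∧ t ≤ (R : ℤ) + 1 := by
        intro t ht
        have h5 : t ^ 2 < ((R : ℤ) + 1) ^ 2 := lt_of_le_of_lt ht hz
        have h6 := abs_lt_of_sq_lt_sq h5 (by positivity)
        rw [abs_lt] at h6
        exact ⟨h6.1, h6.2.le⟩
      intro i
      fin_cases i
      · exact key _ (by have := sq_nonneg (x 1); simp only [Fin.zero_eta]; linarith)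
      · exact key _ (by have := sq_nonneg (x 0); simp only [Fin.mk_one]; linarith)
    have hval : ∀ x : Fin 2 → ℤ, Val (Bin 1 0 1) 0 0 x = x 0 ^ 2 + x 1 ^ 2 := by
      intro x; rw [bin_val]; ring
    rw [ncard_pair (fun x y => 0 < x ^ 2 + y ^ 2 ∧ x ^ 2 + y ^ 2 ≤ N ∧ P (x ^ 2 + y ^ 2).toNat),
      ncard_pair (fun x y => 0 < x ^ 2 + y ^ 2 ∧ x ^ 2 + y ^ 2 ≤ N)]
    have e1 : {x ∈ Points (Bin 1 0 1) 0 0 (fun _ : Fin 2 => -((R : ℤ) + 1)) (fun _ => (R : ℤ) + 1) 0 N Set.univ |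
        P (Val (Bin 1 0 1) 0 0 x).toNat} =
        {x : Fin 2 → ℤ | 0 < x 0 ^ 2 + x 1 ^ 2 ∧ x 0 ^ 2 + x 1 ^ 2 ≤ N ∧ P (x 0 ^ 2 + x 1 ^ 2).toNat} := by
      ext x
      simp only [Points, Set.mem_ofPred_eq, hval]
      constructor
      · rintro ⟨⟨-, ⟨q1, q2⟩, -⟩, q3⟩; exact ⟨q1, q2, q3⟩
      · rintro ⟨q1, q2, q3⟩; exact ⟨⟨hbox x q2, ⟨q1, q2⟩, q1, trivial⟩, q3⟩
    have e2 : Points (Bin 1 0 1) 0 0 (fun _ : Fin 2 => -((R : ℤ) + 1)) (fun _ => (R : ℤ) + 1) 0 N Set.univ =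
        {x : Fin 2 → ℤ | 0 < x 0 ^ 2 + x 1 ^ 2 ∧ x 0 ^ 2 + x 1 ^ 2 ≤ N} := by
      ext x
      simp only [Points, Set.mem_ofPred_eq, hval]
      constructor
      · rintro ⟨-, ⟨q1, q2⟩, -⟩; exact ⟨q1, q2⟩
      · rintro ⟨q1, q2⟩; exact ⟨hbox x q2, ⟨q1, q2⟩, q1, trivial⟩
    rw [e1, e2] at h3
    refine h3.trans ?_
    have h4 : ((R + 1 : ℕ) : ℝ) ^ 2 ≤ 4 * N := by
      have : (R + 1) ^ 2 ≤ 4 * R ^ 2 := by nlinarith
      have : (R + 1) ^ 2 ≤ 4 * N := by omega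
      exact_mod_cast this
    calc ε / 4 * ((R + 1 : ℕ) : ℝ) ^ 2 ≤ ε / 4 * (4 * N) := by gcongr
      _ = ε * (N : ℝ) ^ 1 := by ring

theorem ncard_pairN (Φ : ℤ → ℤ → Prop) : {p : ℕ × ℕ | 1 ≤ p.1 ∧ 1 ≤ p.2 ∧ Φ p.1 p.2}.ncard =
    {x : Fin 2 → ℤ | 0 < x 0 ∧ 0 < x 1 ∧ Φ (x 0) (x 1)}.ncard := by
  have e : {x : Fin 2 → ℤ | 0 < x 0 ∧ 0 < x 1 ∧ Φ (x 0) (x 1)} =
      (fun p : ℕ × ℕ => (![(p.1 : ℤ), (p.2 : ℤ)] : Fin 2 → ℤ)) '' {p : ℕ × ℕ | 1 ≤ p.1 ∧ 1 ≤ p.2 ∧ Φ p.1 p.2} := by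
    ext x
    constructor
    · rintro ⟨h1, h2, h3⟩
      refine ⟨((x 0).toNat, (x 1).toNat), ⟨?_, ?_, ?_⟩, ?_⟩
      · simp only; omega
      · simp only; omega
      · simp only
        rw [Int.toNat_of_nonneg h1.le, Int.toNat_of_nonneg h2.le]
        exact h3
      · simp only
        rw [Int.toNat_of_nonneg h1.le, Int.toNat_of_nonneg h2.le]
        ext i
        fin_cases i <;> rfl
    · rintro ⟨p, ⟨h1, h2, h3⟩, rfl⟩
      refine ⟨?_, ?_, ?_⟩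
      · show (0 : ℤ) < (p.1 : ℤ); omega
      · show (0 : ℤ) < (p.2 : ℤ); omega
      · exact h3
  rw [e, Set.ncard_image_of_injective]
  intro p p' h
  have h0 := congrFun h 0
  have h1 := congrFun h 1
  simp only [Matrix.cons_val_zero, Matrix.cons_val_one] at h0 h1
  have h0' : p.1 = p'.1 := by exact_mod_cast h0
  have h1' : p.2 = p'.2 := by exact_mod_cast h1
  exact Prod.ext h0' h1'

/-- PRODUCTS -/
theorem products {P : ℕ → Prop} {f : ℝ} (h : Frequency P f) :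
    Tendsto (fun N : ℕ => ({p : ℕ × ℕ | 1 ≤ p.1 ∧ 1 ≤ p.2 ∧ p.1 ≤ N ∧ p.2 ≤ N ∧ P (p.1 * p.2)}.ncard : ℝ) / N ^ 2)
      atTop (𝓝 f) := by
  refine ratio_lim (κ := 1) (j := 2) one_pos (Eventually.of_forall fun N => by rw [one_mul]) fun ε hε => ?_
  obtain ⟨R₀, h1⟩ := h 2 (Bin 0 1 0) (bin_rank (by norm_num)) 1 ε 1 one_pos hε le_rfl
  filter_upwards [eventually_ge_atTop R₀] with N hN
  have h2 := h1 N hN 0 0 (fun _ => 0) (fun _ => (N : ℤ)) (by intro i; simp) (by simp) (by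
    intro i
    refine ⟨by simp, ?_⟩
    rw [abs_of_nonneg (by positivity)]) 0 (N ^ 2) Set.univ (fun _ _ _ => Iff.rfl)
  have hval : ∀ x : Fin 2 → ℤ, Val (Bin 0 1 0) 0 0 x = x 0 * x 1 := by
    intro x; rw [bin_val]; ring
  have hpts : ∀ x : Fin 2 → ℤ, x ∈ Points (Bin 0 1 0) 0 0 (fun _ => 0) (fun _ => (N : ℤ)) 0 (N ^ 2) Set.univ ↔
      0 < x 0 ∧ 0 < x 1 ∧ x 0 ≤ N ∧ x 1 ≤ N := by
    intro x
    simp only [Points, Set.mem_ofPred_eq, hval, Fin.forall_fin_two]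
    constructor
    · rintro ⟨⟨⟨q1, q2⟩, q3, q4⟩, -⟩; exact ⟨q1, q3, q2, q4⟩
    · rintro ⟨q1, q3, q2, q4⟩
      have q5 : 0 < x 0 * x 1 := mul_pos q1 q3
      have q6 : x 0 * x 1 ≤ (N : ℤ) ^ 2 := by
        rw [sq]; exact mul_le_mul q2 q4 q3.le (by positivity)
      exact ⟨⟨⟨q1, q2⟩, q3, q4⟩, ⟨q5, q6⟩, q5, trivial⟩
  have e1 : {x ∈ Points (Bin 0 1 0) 0 0 (fun _ => 0) (fun _ => (N : ℤ)) 0 (N ^ 2) Set.univ |
      P (Val (Bin 0 1 0) 0 0 x).toNat}.ncard =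
      {p : ℕ × ℕ | 1 ≤ p.1 ∧ 1 ≤ p.2 ∧ p.1 ≤ N ∧ p.2 ≤ N ∧ P (p.1 * p.2)}.ncard := by
    have := ncard_pairN (fun x y => x ≤ N ∧ y ≤ N ∧ P (x * y).toNat)
    simp only [Nat.cast_le] at this
    have e3 : {p : ℕ × ℕ | 1 ≤ p.1 ∧ 1 ≤ p.2 ∧ p.1 ≤ N ∧ p.2 ≤ N ∧ P (p.1 * p.2)} =
        {p : ℕ × ℕ | 1 ≤ p.1 ∧ 1 ≤ p.2 ∧ p.1 ≤ N ∧ p.2 ≤ N ∧ P ((p.1 : ℤ) * (p.2 : ℤ)).toNat} := by
      ext p
      simp only [Set.mem_ofPred_eq]
      rw [← Nat.cast_mul, Int.toNat_natCast]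
    rw [e3, this]
    congr 1
    ext x
    simp only [Set.mem_ofPred_eq, hpts, hval]
    tauto
  have e2 : (Points (Bin 0 1 0) 0 0 (fun _ => 0) (fun _ => (N : ℤ)) 0 (N ^ 2) Set.univ).ncard = N ^ 2 := by
    have e4 : Points (Bin 0 1 0) 0 0 (fun _ => 0) (fun _ => (N : ℤ)) 0 (N ^ 2) Set.univ =
        ((Fintype.piFinset (fun _ : Fin 2 => Ioc (0 : ℤ) N) : Finset (Fin 2 → ℤ)) : Set (Fin 2 → ℤ)) := by
      ext x
      rw [hpts]
      simp only [Fintype.coe_piFinset, Set.mem_pi, Set.mem_univ, forall_const, mem_coe, mem_Ioc, Fin.forall_fin_two]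
      tauto
    rw [e4, Set.ncard_coe_finset, Fintype.card_piFinset]
    simp
  rw [e1, e2] at h2
  push_cast at h2
  exact h2

/-- REPRESENTATIONS -/
theorem represent {P : ℕ → Prop} {f : ℝ} (hf : 0 < f) (h : Frequency P f) {α β γ : ℤ} (hdisc : β ^ 2 ≠ 4 * α * γ) :
    ∃ κ : ℝ, 0 < κ ∧ ∃ n₀ : ℕ, ∀ n : ℕ, n₀ ≤ n →
      κ * n ≤ {p : ℤ × ℤ | (0 < p.1 ∧ p.1 ^ 2 ≤ n) ∧ (0 < p.2 ∧ p.2 ^ 2 ≤ n) ∧
        ∃ t : ℕ, 1 ≤ t ∧ P t ∧ (n : ℤ) = (α * p.1 ^ 2 + β * p.1 * p.2 + γ * p.2 ^ 2) + t}.ncard := by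
  set D : ℕ := α.natAbs + β.natAbs + γ.natAbs + 1 with hD
  have hD1 : 1 ≤ D := by omega
  have hDr : (1 : ℝ) ≤ D := by exact_mod_cast hD1
  set ε : ℝ := f / (32 * D ^ 2) with hε
  have hε0 : 0 < ε := by positivity
  obtain ⟨R₀, h'⟩ := h 2 (Bin (-α) (-β) (-γ)) (bin_rank (by intro h1; apply hdisc; linear_combination h1)) 4 ε 1
    (by norm_num) hε0 le_rfl
  refine ⟨f / (128 * D ^ 2), by positivity, (R₀ + 4 * D) ^ 2, fun n hn => ?_⟩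
  set R := Nat.sqrt n with hR
  have hR1 : R₀ + 4 * D ≤ R := Nat.le_sqrt'.2 hn
  have hRn : R ^ 2 ≤ n := Nat.sqrt_le' n
  have hRn' : n < (R + 1) ^ 2 := Nat.lt_succ_sqrt' n
  have hn4 : n ≤ 4 * R ^ 2 := by nlinarith
  set m := R / (2 * D) with hm
  have hmR : m * (2 * D) ≤ R := Nat.div_mul_le_self _ _
  have hmR' : R < (m + 1) * (2 * D) := by
    have := Nat.lt_mul_div_succ R (show 0 < 2 * D by omega)
    rw [← hm] at this
    linarith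
  have hm4 : R ≤ 4 * D * m := by nlinarith
  have hmle : m ≤ R := by nlinarith
  have h1 := h' R (by omega) 0 n (fun _ => 0) (fun _ => (m : ℤ)) (by
    intro i; simp) (by
    have : |((n : ℤ) : ℝ)| = n := by simp
    rw [this]
    exact_mod_cast hn4) (by
    intro i
    refine ⟨by simp, ?_⟩
    rw [abs_of_nonneg (by positivity)]
    exact_mod_cast hmle) 0 (2 * n) Set.univ (fun _ _ _ => Iff.rfl)
  have hval : ∀ x : Fin 2 → ℤ, Val (Bin (-α) (-β) (-γ)) 0 n x =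
      n - (α * x 0 ^ 2 + β * x 0 * x 1 + γ * x 1 ^ 2) := by
    intro x; rw [bin_val]; ring
  have hpos : ∀ x : Fin 2 → ℤ, (∀ i, (0 : ℤ) < x i ∧ x i ≤ m) → 0 < Val (Bin (-α) (-β) (-γ)) 0 n x ∧
      Val (Bin (-α) (-β) (-γ)) 0 n x ≤ 2 * n := by
    intro x hx
    rw [hval]
    have h0 := hx 0
    have h1 := hx 1
    have hb : |α * x 0 ^ 2 + β * x 0 * x 1 + γ * x 1 ^ 2| ≤ D * m ^ 2 := by
      have a0 : |x 0| ≤ m := by rw [abs_le]; omega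
      have a1 : |x 1| ≤ m := by rw [abs_le]; omega
      have t1 : |α * x 0 ^ 2| ≤ |α| * m ^ 2 := by
        rw [abs_mul, abs_pow]; gcongr
      have t2 : |β * x 0 * x 1| ≤ |β| * m ^ 2 := by
        rw [abs_mul, abs_mul, sq, mul_assoc]; gcongr
      have t3 : |γ * x 1 ^ 2| ≤ |γ| * m ^ 2 := by
        rw [abs_mul, abs_pow]; gcongr
      have t4 := abs_add_three (α * x 0 ^ 2) (β * x 0 * x 1) (γ * x 1 ^ 2)
      have hDz : (D : ℤ) = |α| + |β| + |γ| + 1 := by rw [hD]; push_cast; ring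
      have t5 : (0 : ℤ) ≤ (m : ℤ) ^ 2 := by positivity
      rw [hDz]
      have t6 : (|α| + |β| + |γ| + 1) * (m : ℤ) ^ 2 = |α| * m ^ 2 + |β| * m ^ 2 + |γ| * m ^ 2 + m ^ 2 := by ring
      rw [t6]
      linarith
    have hDm : D * m ^ 2 < n := by
      have q1 : (m * (2 * D)) ^ 2 ≤ R ^ 2 := Nat.pow_le_pow_left hmR 2
      have hR0 : 0 < R := by omega
      have q2 : 0 < R ^ 2 := by positivity
      nlinarith
    have hDm' : (D : ℤ) * (m : ℤ) ^ 2 < n := by exact_mod_cast hDm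
    have hb' := abs_le.1 hb
    constructor
    · linarith [hb'.2]
    · linarith [hb'.1]
  have e1 : Points (Bin (-α) (-β) (-γ)) 0 n (fun _ : Fin 2 => (0 : ℤ)) (fun _ => (m : ℤ)) 0 (2 * n) Set.univ =
      ((Fintype.piFinset (fun _ : Fin 2 => Ioc (0 : ℤ) m) : Finset (Fin 2 → ℤ)) : Set (Fin 2 → ℤ)) := by
    ext x
    simp only [Fintype.coe_piFinset, Set.mem_pi, Set.mem_univ, forall_const, mem_coe, mem_Ioc]
    constructor
    · rintro ⟨g1, -⟩; exact g1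
    · intro g1
      obtain ⟨g2, g3⟩ := hpos x g1
      exact ⟨g1, ⟨g2, g3⟩, g2, trivial⟩
  have e2 : (Points (Bin (-α) (-β) (-γ)) 0 n (fun _ : Fin 2 => (0 : ℤ)) (fun _ => (m : ℤ)) 0 (2 * n) Set.univ).ncard =
      m ^ 2 := by
    rw [e1, Set.ncard_coe_finset, Fintype.card_piFinset]
    simp
  rw [e2] at h1
  rw [ncard_pair (fun x y => (0 < x ∧ x ^ 2 ≤ n) ∧ (0 < y ∧ y ^ 2 ≤ n) ∧
    ∃ t : ℕ, 1 ≤ t ∧ P t ∧ (n : ℤ) = (α * x ^ 2 + β * x * y + γ * y ^ 2) + t)]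
  have hsub : {x ∈ Points (Bin (-α) (-β) (-γ)) 0 n (fun _ : Fin 2 => (0 : ℤ)) (fun _ => (m : ℤ)) 0 (2 * n) Set.univ |
      P (Val (Bin (-α) (-β) (-γ)) 0 n x).toNat} ⊆ {x : Fin 2 → ℤ | (0 < x 0 ∧ x 0 ^ 2 ≤ n) ∧ (0 < x 1 ∧ x 1 ^ 2 ≤ n) ∧
      ∃ t : ℕ, 1 ≤ t ∧ P t ∧ (n : ℤ) = (α * x 0 ^ 2 + β * x 0 * x 1 + γ * x 1 ^ 2) + t} := by
    rintro x ⟨⟨q1, q2, q3, -⟩, q4⟩
    have hsq : ∀ t : ℤ, 0 < t → t ≤ m → t ^ 2 ≤ n := by
      intro t ht0 ht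
      have p1 : t ^ 2 ≤ (m : ℤ) ^ 2 := pow_le_pow_left₀ ht0.le ht 2
      have p2 : m ^ 2 ≤ n := (Nat.pow_le_pow_left hmle 2).trans hRn
      have p3 : (m : ℤ) ^ 2 ≤ n := by exact_mod_cast p2
      linarith
    refine ⟨⟨(q1 0).1, hsq _ (q1 0).1 (q1 0).2⟩, ⟨(q1 1).1, hsq _ (q1 1).1 (q1 1).2⟩,
      (Val (Bin (-α) (-β) (-γ)) 0 n x).toNat, by omega, q4, ?_⟩
    rw [Int.toNat_of_nonneg q3.le, hval]; ring
  have hfin : {x : Fin 2 → ℤ | (0 < x 0 ∧ x 0 ^ 2 ≤ n) ∧ (0 < x 1 ∧ x 1 ^ 2 ≤ n) ∧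
      ∃ t : ℕ, 1 ≤ t ∧ P t ∧ (n : ℤ) = (α * x 0 ^ 2 + β * x 0 * x 1 + γ * x 1 ^ 2) + t}.Finite := by
    apply (cube_finite 2 n).subset
    rintro x ⟨⟨q1, q2⟩, ⟨q3, q4⟩, -⟩ i
    fin_cases i
    · simp only [Fin.zero_eta]; rw [abs_of_pos q1]; nlinarith
    · simp only [Fin.mk_one]; rw [abs_of_pos q3]; nlinarith
  have h2 := Set.ncard_le_ncard hsub hfin
  have h2r : ({x ∈ Points (Bin (-α) (-β) (-γ)) 0 n (fun _ : Fin 2 => (0 : ℤ)) (fun _ => (m : ℤ)) 0 (2 * n) Set.univ |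
      P (Val (Bin (-α) (-β) (-γ)) 0 n x).toNat}.ncard : ℝ) ≤
      ({x : Fin 2 → ℤ | (0 < x 0 ∧ x 0 ^ 2 ≤ n) ∧ (0 < x 1 ∧ x 1 ^ 2 ≤ n) ∧
      ∃ t : ℕ, 1 ≤ t ∧ P t ∧ (n : ℤ) = (α * x 0 ^ 2 + β * x 0 * x 1 + γ * x 1 ^ 2) + t}.ncard : ℝ) := by exact_mod_cast h2
  refine le_trans ?_ h2r
  have h3 := (abs_le.1 h1).1
  have hmr : (R : ℝ) ≤ 4 * D * m := by exact_mod_cast hm4
  have h4 : (R : ℝ) ^ 2 / (16 * D ^ 2) ≤ m ^ 2 := by
    rw [div_le_iff₀ (by positivity)]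
    calc (R : ℝ) ^ 2 ≤ (4 * D * m) ^ 2 := pow_le_pow_left₀ (by positivity) hmr 2
      _ = _ := by ring
  have h5 : (n : ℝ) ≤ 4 * R ^ 2 := by exact_mod_cast hn4
  have h6 : f * ((R : ℝ) ^ 2 / (16 * D ^ 2)) ≤ f * m ^ 2 := by gcongr
  have h7 : f / (128 * D ^ 2) * (n : ℝ) ≤ f / (128 * D ^ 2) * (4 * R ^ 2) := by gcongr
  have h8 : f / (128 * (D : ℝ) ^ 2) * (4 * R ^ 2) = f * ((R : ℝ) ^ 2 / (16 * D ^ 2)) - ε * R ^ 2 := by
    rw [hε]; field_simp; ring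
  push_cast at h3
  linarith

end Pool.Agent.Run7.h145.QL.X
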