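import Pool.Agent.Run7.h145.QL.Y4
import Pool.Agent.Run7.h145.QP.E3

/-! The theorem for invariant sets, uniform in the set and in the periodic condition. -/

set_option autoImplicit false

namespace Pool.Agent.Run7.h145.QL.X

open Finset Filter Topology
open Pool.Agent.Run7.h145.QP (Pol Sy Lf Pol_add main_S sa)
open Pool.Agent.H499R2.ND (Inv HD dens_side)
open Pool.Agent.Run7.h145.QL
open scoped Classical

variable {k : ℕ}

theorem class_ncard (A : Fin k → Fin k → ℤ) (l : Fin k → ℤ) (c : ℤ) (a b : Fin k → ℤ) {q : ℕ} (hq : 1 ≤ q)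
    {r : Fin k → ℤ} (hr : ∀ i, 0 ≤ r i ∧ r i < q) (Q : ℤ → Prop) :
    {x : Fin k → ℤ | (∀ i, a i < x i ∧ x i ≤ b i) ∧ (∀ i, x i % (q : ℤ) = r i) ∧ Q (Pol A l c x)}.ncard =
      {y : Fin k → ℤ | (∀ i, (a i - r i) / q < y i ∧ y i ≤ (b i - r i) / q) ∧
        Q (Pol (fun i j => (q : ℤ) ^ 2 * A i j) (fun j => (q : ℤ) * (∑ i, Sy A i j * r i + l j)) (Pol A l c r) y)}.ncard := by
  have hq0 : (0 : ℤ) < q := by exact_mod_cast hq
  have hinj : Function.Injective (fun y : Fin k → ℤ => fun i => r i + (q : ℤ) * y i) := by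
    intro y y' h
    ext i
    have h1 : r i + (q : ℤ) * y i = r i + (q : ℤ) * y' i := congrFun h i
    exact mul_left_cancel₀ hq0.ne' (by linarith)
  conv_rhs => rw [← Set.ncard_image_of_injective _ hinj]
  congr 1
  ext x
  constructor
  · rintro ⟨h1, h2, h3⟩
    have e : (fun i => r i + (q : ℤ) * (x i / q)) = x := by
      ext i
      rw [← h2 i, add_comm]
      exact Int.mul_ediv_add_emod _ _
    refine ⟨fun i => x i / q, ⟨fun i => ?_, ?_⟩, e⟩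
    · have h4 := h1 i
      have h5 : r i + (q : ℤ) * (x i / q) = x i := congrFun e i
      constructor
      · rw [Int.ediv_lt_iff_lt_mul hq0]; nlinarith
      · rw [Int.le_ediv_iff_mul_le hq0]; nlinarith
    · rw [← pol_sub, e]
      exact h3
  · rintro ⟨y, ⟨h1, h2⟩, rfl⟩
    refine ⟨fun i => ?_, fun i => ?_, ?_⟩
    · have h3 := h1 i
      have h4 := (Int.ediv_lt_iff_lt_mul hq0).1 h3.1
      have h5 := (Int.le_ediv_iff_mul_le hq0).1 h3.2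
      show a i < r i + (q : ℤ) * y i ∧ r i + (q : ℤ) * y i ≤ b i
      constructor <;> nlinarith
    · show (r i + (q : ℤ) * y i) % (q : ℤ) = r i
      rw [Int.add_mul_emod_self_left]
      exact Int.emod_eq_of_lt (hr i).1 (hr i).2
    · rw [pol_sub]
      exact h2

theorem mi_mul' {A : Fin k → Fin k → ℤ} (hA : Mi A) {q : ℤ} (hq : q ≠ 0) : Mi (fun i j => q * A i j) := mi_mul hA hq

/-- one class -/
theorem class_S {s : ℤ} (hs : s = 1 ∨ s = -1) {A : Fin k → Fin k → ℤ} (hA : RankTwo A) {B ε : ℝ} (hB : 0 < B)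
    (hε : 0 < ε) {q : ℕ} (hq : 1 ≤ q) : ∃ R₀ : ℕ, 1 ≤ R₀ ∧ ∀ (S : Set ℤ) (δ : ℝ), Inv 1 S → HD s S δ → 0 ≤ δ ∧ δ ≤ 1 →
      ∀ R : ℕ, R₀ ≤ R → ∀ (l : Fin k → ℤ) (c : ℤ) (a b : Fin k → ℤ),
      Bnd B R l c a b → ∀ (u v : ℤ) (r : Fin k → ℤ), (∀ i, 0 ≤ r i ∧ r i < q) →
      |({x : Fin k → ℤ | (∀ i, a i < x i ∧ x i ≤ b i) ∧ (∀ i, x i % (q : ℤ) = r i) ∧
          ((u < Pol A l c x ∧ Pol A l c x ≤ v) ∧ 0 < s * Pol A l c x) ∧ Pol A l c x ∈ S}.ncard : ℝ) -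
        δ * {x : Fin k → ℤ | (∀ i, a i < x i ∧ x i ≤ b i) ∧ (∀ i, x i % (q : ℤ) = r i) ∧
          ((u < Pol A l c x ∧ Pol A l c x ≤ v) ∧ 0 < s * Pol A l c x)}.ncard| ≤ ε * R ^ k := by
  have hqz : ((q : ℤ) ^ 2) ≠ 0 := by
    have : (q : ℤ) ≠ 0 := by exact_mod_cast (by omega : q ≠ 0)
    exact pow_ne_zero 2 this
  obtain ⟨p1, p2, p3, p4, h1, h2, h3⟩ := mi_mul (mi hA) hqz
  have hB' : 0 < (q : ℝ) ^ 2 * (2 * sa A + (k + 1) * B) := by
    have : (1 : ℝ) ≤ q := by exact_mod_cast hq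
    positivity
  obtain ⟨R₀, h4⟩ := main_S (fun i j => (q : ℤ) ^ 2 * A i j) h1 h2 h3 hB' hε
  refine ⟨R₀ + 1, by omega, fun S δ hS hδ h01 R hR l c a b hb u v r hr => ?_⟩
  have hR1 : 1 ≤ R := by omega
  obtain ⟨b1, b2, b3, b4⟩ := bnd_sub A hB hq hR1 hb hr
  have hc1 := class_ncard A l c a b hq hr (fun z => ((u < z ∧ z ≤ v) ∧ 0 < s * z) ∧ z ∈ S)
  have hc2 := class_ncard A l c a b hq hr (fun z => ((u < z ∧ z ≤ v) ∧ 0 < s * z))
  rw [hc1, hc2]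
  set A' : Fin k → Fin k → ℤ := fun i j => (q : ℤ) ^ 2 * A i j with hA'
  set l' : Fin k → ℤ := fun j => (q : ℤ) * (∑ i, Sy A i j * r i + l j) with hl'
  set c' : ℤ := Pol A l c r with hc'
  rcases hs with rfl | rfl
  · obtain ⟨δ', g0, g1, g2⟩ := dens_side odd_one (by norm_num) (Or.inr rfl : (-1 : ℤ) = 1 ∨ (-1 : ℤ) = -1) hS
    have h5 := h4 S hS δ δ' hδ g2 h01 ⟨g0, g1⟩ R (by omega) l' c' _ _ b1 b2 b3 b4 (max u 0) v
    rw [Fintype.card_fin] at h5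
    have e1 : {x : Fin k → ℤ | (∀ i, (a i - r i) / q < x i ∧ x i ≤ (b i - r i) / q) ∧
        (max u 0 < Pol A' l' c' x ∧ Pol A' l' c' x ≤ v) ∧ Pol A' l' c' x ∈ S} =
        {y : Fin k → ℤ | (∀ i, (a i - r i) / q < y i ∧ y i ≤ (b i - r i) / q) ∧
        ((u < Pol A' l' c' y ∧ Pol A' l' c' y ≤ v) ∧ 0 < 1 * Pol A' l' c' y) ∧ Pol A' l' c' y ∈ S} := by
      ext x
      simp only [Set.mem_ofPred_eq, max_lt_iff, one_mul]
      tauto
    have e2 : {x : Fin k → ℤ | (∀ i, (a i - r i) / q < x i ∧ x i ≤ (b i - r i) / q) ∧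
        (max u 0 < Pol A' l' c' x ∧ Pol A' l' c' x ≤ v) ∧ 0 < Pol A' l' c' x} =
        {y : Fin k → ℤ | (∀ i, (a i - r i) / q < y i ∧ y i ≤ (b i - r i) / q) ∧
        ((u < Pol A' l' c' y ∧ Pol A' l' c' y ≤ v) ∧ 0 < 1 * Pol A' l' c' y)} := by
      ext x
      simp only [Set.mem_ofPred_eq, max_lt_iff, one_mul]
      tauto
    have e3 : {x : Fin k → ℤ | (∀ i, (a i - r i) / q < x i ∧ x i ≤ (b i - r i) / q) ∧
        (max u 0 < Pol A' l' c' x ∧ Pol A' l' c' x ≤ v) ∧ Pol A' l' c' x < 0} = ∅ := by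
      ext x
      simp only [Set.mem_ofPred_eq, max_lt_iff, Set.mem_empty_iff_false, iff_false]
      rintro ⟨-, ⟨⟨-, h6⟩, -⟩, h7⟩
      omega
    rw [e1, e2, e3, Set.ncard_empty, Nat.cast_zero, mul_zero, sub_zero] at h5
    exact h5
  · obtain ⟨δ', g0, g1, g2⟩ := dens_side odd_one (by norm_num) (Or.inl rfl : (1 : ℤ) = 1 ∨ (1 : ℤ) = -1) hS
    have h5 := h4 S hS δ' δ g2 hδ ⟨g0, g1⟩ h01 R (by omega) l' c' _ _ b1 b2 b3 b4 u (min v (-1))
    rw [Fintype.card_fin] at h5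
    have e1 : {x : Fin k → ℤ | (∀ i, (a i - r i) / q < x i ∧ x i ≤ (b i - r i) / q) ∧
        (u < Pol A' l' c' x ∧ Pol A' l' c' x ≤ min v (-1)) ∧ Pol A' l' c' x ∈ S} =
        {y : Fin k → ℤ | (∀ i, (a i - r i) / q < y i ∧ y i ≤ (b i - r i) / q) ∧
        ((u < Pol A' l' c' y ∧ Pol A' l' c' y ≤ v) ∧ 0 < -1 * Pol A' l' c' y) ∧ Pol A' l' c' y ∈ S} := by
      ext x
      simp only [Set.mem_ofPred_eq, le_min_iff, neg_one_mul]
      have : Pol A' l' c' x ≤ -1 ↔ 0 < -Pol A' l' c' x := by omega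
      rw [this]
      tauto
    have e2 : {x : Fin k → ℤ | (∀ i, (a i - r i) / q < x i ∧ x i ≤ (b i - r i) / q) ∧
        (u < Pol A' l' c' x ∧ Pol A' l' c' x ≤ min v (-1)) ∧ Pol A' l' c' x < 0} =
        {y : Fin k → ℤ | (∀ i, (a i - r i) / q < y i ∧ y i ≤ (b i - r i) / q) ∧
        ((u < Pol A' l' c' y ∧ Pol A' l' c' y ≤ v) ∧ 0 < -1 * Pol A' l' c' y)} := by
      ext x
      simp only [Set.mem_ofPred_eq, le_min_iff, neg_one_mul]
      have h7 : Pol A' l' c' x ≤ -1 ↔ 0 < -Pol A' l' c' x := by omega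
      have h8 : Pol A' l' c' x < 0 ↔ 0 < -Pol A' l' c' x := by omega
      rw [h7, h8]
      tauto
    have e3 : {x : Fin k → ℤ | (∀ i, (a i - r i) / q < x i ∧ x i ≤ (b i - r i) / q) ∧
        (u < Pol A' l' c' x ∧ Pol A' l' c' x ≤ min v (-1)) ∧ 0 < Pol A' l' c' x} = ∅ := by
      ext x
      simp only [Set.mem_ofPred_eq, le_min_iff, Set.mem_empty_iff_false, iff_false]
      rintro ⟨-, ⟨-, -, h6⟩, h7⟩
      omega
    rw [e1, e2, e3, Set.ncard_empty, Nat.cast_zero, mul_zero, sub_zero] at h5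
    exact h5

/-- THE UNIFORM THEOREM -/
theorem unif_S {s : ℤ} (hs : s = 1 ∨ s = -1) {A : Fin k → Fin k → ℤ} (hA : RankTwo A) {B ε : ℝ} (hB : 0 < B)
    (hε : 0 < ε) {q : ℕ} (hq : 1 ≤ q) : ∃ R₀ : ℕ, ∀ (S : Set ℤ) (δ : ℝ), Inv 1 S → HD s S δ → 0 ≤ δ ∧ δ ≤ 1 →
      ∀ R : ℕ, R₀ ≤ R → ∀ (l : Fin k → ℤ) (c : ℤ) (a b : Fin k → ℤ),
      (∀ i, |(l i : ℝ)| ≤ B * R) → |(c : ℝ)| ≤ B * R ^ 2 → (∀ i, |a i| ≤ R ∧ |b i| ≤ R) →
      ∀ (u v : ℤ) (D : Set (Fin k → ℤ)), (∀ x y : Fin k → ℤ, (∀ i, x i ≡ y i [ZMOD q]) → (x ∈ D ↔ y ∈ D)) →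
      |({x ∈ PointsS s A l c a b u v D | Val A l c x ∈ S}.ncard : ℝ) - δ * (PointsS s A l c a b u v D).ncard| ≤
        ε * R ^ k := by
  have hq0 : (0 : ℤ) < q := by exact_mod_cast hq
  have hqr : (1 : ℝ) ≤ q := by exact_mod_cast hq
  obtain ⟨R₀, -, h1⟩ := class_S hs hA hB (show 0 < ε / q ^ k by positivity) hq
  refine ⟨R₀, fun S δ hS hδ h01 R hR l c a b hl hc hab u v D hD => ?_⟩
  set T := (Fintype.piFinset (fun _ : Fin k => Ico (0 : ℤ) q)).filter (fun x => x ∈ D) with hT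
  have hTc : (#T : ℝ) ≤ q ^ k := by
    have h2 : #T ≤ #(Fintype.piFinset (fun _ : Fin k => Ico (0 : ℤ) q)) := card_filter_le _ _
    rw [Fintype.card_piFinset] at h2
    simp only [Int.card_Ico, sub_zero, Int.toNat_natCast, prod_const, card_univ, Fintype.card_fin] at h2
    exact_mod_cast h2
  set F := (Fintype.piFinset (fun i => Ioc (a i) (b i))).filter
    (fun x => (u < Pol A l c x ∧ Pol A l c x ≤ v) ∧ 0 < s * Pol A l c x) with hF
  have key : ∀ Q : ℤ → Prop, {x ∈ PointsS s A l c a b u v D | Q (Val A l c x)}.ncard =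
      ∑ r ∈ T, {x : Fin k → ℤ | (∀ i, a i < x i ∧ x i ≤ b i) ∧ (∀ i, x i % (q : ℤ) = r i) ∧
          ((u < Pol A l c x ∧ Pol A l c x ≤ v) ∧ 0 < s * Pol A l c x) ∧ Q (Pol A l c x)}.ncard := by
    intro Q
    have e0 : {x ∈ PointsS s A l c a b u v D | Q (Val A l c x)}.ncard = #(F.filter (fun x => x ∈ D ∧ Q (Pol A l c x))) := by
      rw [← Set.ncard_coe_finset]
      congr 1
      ext x
      rw [mem_coe, mem_filter, hF, mem_filter, Fintype.mem_piFinset]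
      constructor
      · rintro ⟨⟨g1, g2, g3, g4⟩, g5⟩
        exact ⟨⟨fun i => mem_Ioc.2 (g1 i), g2, g3⟩, g4, g5⟩
      · rintro ⟨⟨g1, g2, g3⟩, g4, g5⟩
        exact ⟨⟨fun i => mem_Ioc.1 (g1 i), g2, g3, g4⟩, g5⟩
    rw [e0]
    have hmaps : ∀ x ∈ F.filter (fun x => x ∈ D ∧ Q (Pol A l c x)), (fun i => x i % (q : ℤ)) ∈ T := by
      intro x hx
      rw [mem_filter] at hx
      rw [hT, mem_filter, Fintype.mem_piFinset]
      refine ⟨fun i => ?_, ?_⟩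
      · rw [mem_Ico]
        exact ⟨Int.emod_nonneg _ hq0.ne', Int.emod_lt_of_pos _ hq0⟩
      · exact (hD _ _ fun i => Int.mod_modEq _ _).2 hx.2.1
    rw [card_eq_sum_card_fiberwise hmaps]
    apply sum_congr rfl
    intro r hr
    rw [hT, mem_filter] at hr
    rw [← Set.ncard_coe_finset]
    congr 1
    ext x
    rw [mem_coe, mem_filter, mem_filter, hF, mem_filter, Fintype.mem_piFinset]
    constructor
    · rintro ⟨⟨⟨g1, g2, g3⟩, g4, g5⟩, g6⟩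
      exact ⟨fun i => mem_Ioc.1 (g1 i), fun i => congrFun g6 i, ⟨g2, g3⟩, g5⟩
    · rintro ⟨g1, g2, ⟨g3, g4⟩, g5⟩
      have e : (fun i => x i % (q : ℤ)) = r := funext g2
      refine ⟨⟨⟨fun i => mem_Ioc.2 (g1 i), g3, g4⟩, ?_, g5⟩, e⟩
      have hr2 := hr.2
      rw [← e] at hr2
      exact (hD _ _ fun i => Int.mod_modEq _ _).1 hr2
  have e1 := key (fun z => z ∈ S)
  have e2 := key (fun _ => True)
  simp only [and_true] at e2
  have e3 : {x | x ∈ PointsS s A l c a b u v D} = PointsS s A l c a b u v D := rfl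
  rw [e3] at e2
  rw [e1, e2]
  push_cast
  rw [mul_sum, ← sum_sub_distrib]
  calc |∑ r ∈ T, (({x : Fin k → ℤ | (∀ i, a i < x i ∧ x i ≤ b i) ∧ (∀ i, x i % (q : ℤ) = r i) ∧
          ((u < Pol A l c x ∧ Pol A l c x ≤ v) ∧ 0 < s * Pol A l c x) ∧ Pol A l c x ∈ S}.ncard : ℝ) -
        δ * {x : Fin k → ℤ | (∀ i, a i < x i ∧ x i ≤ b i) ∧ (∀ i, x i % (q : ℤ) = r i) ∧
          ((u < Pol A l c x ∧ Pol A l c x ≤ v) ∧ 0 < s * Pol A l c x)}.ncard)| ≤ ∑ _r ∈ T, ε / q ^ k * R ^ k := by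
        refine (abs_sum_le_sum_abs _ _).trans (sum_le_sum fun r hr => ?_)
        rw [hT, mem_filter, Fintype.mem_piFinset] at hr
        exact h1 S δ hS hδ h01 R hR l c a b ⟨hl, hc, fun i => (hab i).1, fun i => (hab i).2⟩ u v r
          (fun i => by have := hr.1 i; rwa [mem_Ico] at this)
    _ = #T * (ε / q ^ k * R ^ k) := by rw [sum_const, nsmul_eq_mul]
    _ ≤ q ^ k * (ε / q ^ k * R ^ k) := by gcongr
    _ = ε * R ^ k := by field_simp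

end Pool.Agent.Run7.h145.QL.X
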