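import Pool.Agent.Run7.h145.QP.E1
import Pool.Agent.Y964.LW.A0

/-! Values of quadratic polynomials and functions constant on coalescing trajectories above a height. -/

set_option autoImplicit false

namespace Pool.Agent.Run7.h145.QL

open Finset Pool.Agent.H499R2.CO Pool.Agent.Y967.CM Filter Topology Pool.Agent.Run7.h145.QP
open Pool.Agent.Y964.LW (SameR same_of_coal)

open Classical in
theorem card_surv_d {d : ℤ} (hd : d % 2 = 1) (T : ℕ) (s : ℕ × ℤ) :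
    (#{c ∈ range (2 ^ T) | surv d T s ((c : ℕ) : ℤ)} : ℝ) = 2 ^ T * q step (0, 0) T s := by
  rw [← count_surv hd T s, card_filter]
  push_cast
  rfl

variable {ι : Type} [Fintype ι] [DecidableEq ι]

open Classical in
/-- The points whose values survive. -/
theorem surv_count_d {d : ℤ} (hd : d % 2 = 1) (A : ι → ι → ℤ) (l : ι → ℤ) (c : ℤ) {a b : ι → ℤ} {n : ℕ}
    (hn : ∀ i, b i - a i ≤ n) (p : ι)
    {j T : ℕ} (hj : 1 ≤ j) (hjT : j ≤ T) (hT : n < 2 ^ (T + 1)) (hT' : 2 ^ T ≤ n) (r : ℤ) :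
    (#{x ∈ Fintype.piFinset (fun i => Ioc (a i) (b i)) | ¬ (2 : ℤ) ^ j ∣ Dl A l x p ∧ surv d T (0, r) (Pol A l c x)} : ℝ) ≤
      4 * 4 ^ j * q step (0, 0) T (0, r) * n ^ Fintype.card ι := by
  have hι : 1 ≤ Fintype.card ι := Fintype.card_pos_iff.2 ⟨p⟩
  have hq := q_nonneg (st := step) (o := ((0 : ℕ), (0 : ℤ))) T (0, r)
  have h := line_count hn p (fun x => ¬ (2 : ℤ) ^ j ∣ Dl A l x p ∧ surv d T (0, r) (Pol A l c x))
    (C := 4 * 4 ^ j * (n * q step (0, 0) T (0, r))) (by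
      intro z
      have h1 := periodic_count' (fun t => Pol A l c (Function.update z p t))
        ((Ioc (a p) (b p)).filter (fun t => ¬ (2 : ℤ) ^ j ∣ Dl A l (Function.update z p t) p)) (T := T)
        (B := 4 * 4 ^ j) (fun r => line_class A l c hn p z hj hjT hT r) (surv d T (0, r))
        (fun y m => surv_periodic hd T (0, r) y m)
      rw [card_surv_d hd, filter_filter] at h1
      refine h1.trans ?_
      have : (2 : ℝ) ^ T ≤ n := by exact_mod_cast hT'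
      gcongr)
  refine h.trans (le_of_eq ?_)
  have e : (n : ℝ) ^ Fintype.card ι = n * n ^ (Fintype.card ι - 1) := by
    rw [← pow_succ']; congr 1; omega
  rw [e]; ring

open Classical in
/-- Few values do not merge with a given neighbour. -/
theorem bad_count_s {s : ℤ} (hs2 : s % 2 = 1) (hss : s * s = 1) (A : ι → ι → ℤ) {p r : ι} (hpr : Sy A p r ≠ 0)
    {ε : ℝ} (hε : 0 < ε) :
    ∃ n₀ : ℕ, ∀ n : ℕ, n₀ ≤ n → ∀ h : ℤ, |h| ≤ 4 ^ Nat.sqrt (Nat.log 2 n) →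
      ∀ (l : ι → ℤ) (c : ℤ) (a b : ι → ℤ), (∀ i, b i - a i ≤ n) → ∀ (R0 : ℕ) (f : ℤ → ℝ), f ∈ SameR R0 s →
      (#{x ∈ Fintype.piFinset (fun i => Ioc (a i) (b i)) |
        (n : ℤ) * R0 < Pol A l c x ∧ f (Pol A l c x + h) ≠ f (Pol A l c x)} : ℝ) ≤ ε * n ^ Fintype.card ι := by
  obtain ⟨C, hC, hq⟩ := q_rate
  have hι : 1 ≤ Fintype.card ι := Fintype.card_pos_iff.2 ⟨p⟩
  set v := (Sy A p r).natAbs with hv
  obtain ⟨i, hi⟩ : ∃ i : ℕ, 3 / ε < 2 ^ i := pow_unbounded_of_one_lt _ (by norm_num)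
  set j := v + i + 1 with hj
  obtain ⟨T₀, hT₀, hrate⟩ := rate_small (ε := ε / 3 / (4 * 4 ^ j * C)) (by positivity)
  refine ⟨2 ^ (T₀ + j) + ⌈6 / ε⌉₊ + 1, fun n hn h hh l c a b hab R0 f hf => ?_⟩
  have h2pow := Nat.one_le_two_pow (n := T₀ + j)
  have hn1 : 1 ≤ n := by omega
  have hn0 : (0 : ℝ) < n := by exact_mod_cast hn1
  have hn6 : 2 / (n : ℝ) ≤ ε / 3 := by
    have h1 := Nat.le_ceil (6 / ε)
    have h2 : ((2 ^ (T₀ + j) + ⌈6 / ε⌉₊ + 1 : ℕ) : ℝ) ≤ n := by exact_mod_cast hn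
    push_cast at h2
    have h3 : 6 / ε ≤ n := by
      have : (0 : ℝ) < 2 ^ (T₀ + j) := by positivity
      linarith
    rw [div_le_iff₀ hε] at h3
    rw [div_le_iff₀ hn0]
    linarith
  set T := Nat.log 2 n with hT
  have hTn : 2 ^ T ≤ n := Nat.pow_log_le_self 2 (by omega)
  have hTn' : n < 2 ^ (T + 1) := Nat.lt_pow_succ_log_self (by norm_num) n
  have hT1 : T₀ + j ≤ T := by
    rw [hT]
    apply Nat.le_log_of_pow_le (by norm_num)
    omega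
  set u := Nat.sqrt T with hu
  have hsub : ({x ∈ Fintype.piFinset (fun i => Ioc (a i) (b i)) |
      (n : ℤ) * R0 < Pol A l c x ∧ f (Pol A l c x + h) ≠ f (Pol A l c x)} : Finset (ι → ℤ)) ⊆
      ({x ∈ Fintype.piFinset (fun i => Ioc (a i) (b i)) | (2 : ℤ) ^ j ∣ Dl A l x p} : Finset (ι → ℤ)) ∪
      ({x ∈ Fintype.piFinset (fun i => Ioc (a i) (b i)) | ¬ (2 : ℤ) ^ j ∣ Dl A l x p ∧ surv s T (0, s * h) (Pol A l c x)} : Finset (ι → ℤ)) := by
    intro x hx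
    rw [mem_filter] at hx
    rw [mem_union, mem_filter, mem_filter]
    by_cases h1 : (2 : ℤ) ^ j ∣ Dl A l x p
    · left; exact ⟨hx.1, h1⟩
    · right
      refine ⟨hx.1, h1, ?_⟩
      by_contra h2
      apply hx.2.2
      refine (same_of_coal hs2 hss hf h2 ?_).symm
      refine lt_of_le_of_lt ?_ hx.2.1
      have h3 : ((2 ^ T : ℕ) : ℤ) ≤ n := by exact_mod_cast hTn
      push_cast at h3
      exact mul_le_mul_of_nonneg_right h3 (Int.natCast_nonneg _)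
  have h1 := deriv_count A l hab hpr j
  have h2 := surv_count_d hs2 A l c hab p (j := j) (T := T) (by omega) (by omega) hTn' hTn (s * h)
  have hsh : |s * h| = |h| := by
    rw [abs_mul]
    have : |s| = 1 := by
      have h3 : |s| * |s| = 1 := by rw [← abs_mul, hss, abs_one]
      have h4 := abs_nonneg s
      nlinarith
    rw [this, one_mul]
  have h3 : q step (0, 0) T (0, s * h) ≤ C * √ (1 + ((0 : ℕ) : ℝ) ^ 2 + u) * rho T := by
    apply hq T (by omega) 0 u (s * h)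
    rw [← Int.cast_abs, hsh]
    exact_mod_cast hh
  have h4 := hrate T (by omega)
  have h5 : 4 * 4 ^ j * q step (0, 0) T (0, s * h) ≤ ε / 3 := by
    calc 4 * 4 ^ j * q step (0, 0) T (0, s * h) ≤ 4 * 4 ^ j * (C * √ (1 + ((0 : ℕ) : ℝ) ^ 2 + u) * rho T) := by gcongr
      _ = (4 * 4 ^ j * C) * (√ (1 + ((0 : ℕ) : ℝ) ^ 2 + u) * rho T) := by ring
      _ ≤ (4 * 4 ^ j * C) * (ε / 3 / (4 * 4 ^ j * C)) := by gcongr
      _ = ε / 3 := by field_simp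
  have h6 : ((n : ℝ) / (2 ^ (j - v) : ℕ) + 2) * n ^ (Fintype.card ι - 1) ≤ (2 * ε / 3) * n ^ Fintype.card ι := by
    have e : (n : ℝ) ^ Fintype.card ι = n * n ^ (Fintype.card ι - 1) := by
      rw [← pow_succ']; congr 1; omega
    rw [e, ← mul_assoc]
    apply mul_le_mul_of_nonneg_right _ (by positivity)
    have e2 : j - v = i + 1 := by omega
    rw [e2]
    have h7 : 1 / ((2 ^ (i + 1) : ℕ) : ℝ) ≤ ε / 3 := by
      rw [div_le_div_iff₀ (by positivity) (by norm_num)]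
      rw [div_lt_iff₀ hε] at hi
      push_cast
      rw [pow_succ]
      nlinarith
    have h8 : 2 ≤ ε / 3 * n := by rwa [div_le_iff₀ hn0] at hn6
    have h9 : (n : ℝ) / ((2 ^ (i + 1) : ℕ) : ℝ) = (1 / ((2 ^ (i + 1) : ℕ) : ℝ)) * n := by ring
    rw [h9]
    have h10 : 1 / ((2 ^ (i + 1) : ℕ) : ℝ) * n ≤ ε / 3 * n := by gcongr
    linarith
  calc _ ≤ (#{x ∈ Fintype.piFinset (fun i => Ioc (a i) (b i)) | (2 : ℤ) ^ j ∣ Dl A l x p} : ℝ) +
        #{x ∈ Fintype.piFinset (fun i => Ioc (a i) (b i)) | ¬ (2 : ℤ) ^ j ∣ Dl A l x p ∧ surv s T (0, s * h) (Pol A l c x)} := by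
        exact_mod_cast (card_le_card hsub).trans (card_union_le _ _)
    _ ≤ (2 * ε / 3) * n ^ Fintype.card ι + ε / 3 * n ^ Fintype.card ι := by
        apply add_le_add
        · exact h1.trans h6
        · refine h2.trans ?_
          gcongr
    _ = _ := by ring

open Classical in
/-- The window counts. -/
theorem window_count (A : ι → ι → ℤ) (l : ι → ℤ) (c : ℤ) {a b : ι → ℤ} {n : ℕ} (hn : ∀ i, b i - a i ≤ n)
    {H L W : ℕ} (hH : 1 ≤ H) (hL : 1 ≤ L) (hHW : H ≤ W) {ε : ℝ} (hε : 0 < ε) (hWL : 2 * (W : ℝ) ≤ ε * L)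
    (hstar : ∀ f : ℤ → ℝ, (∀ n, |f n| ≤ 1) →
      |∑ x ∈ Fintype.piFinset (fun i => Ioc (a i) (b i)), ∑ h ∈ Icc 1 H, ∑ j ∈ Icc 1 L,
        (1 / ((H : ℝ) * L)) * (f (Pol A l c x + h) - f (Pol A l c x + h + j))| ≤ ε * n ^ Fintype.card ι) (w : ℤ) :
    (#{x ∈ Fintype.piFinset (fun i => Ioc (a i) (b i)) | w - W < Pol A l c x ∧ Pol A l c x ≤ w} : ℝ) ≤
      2 * ε * n ^ Fintype.card ι := by
  set B := Fintype.piFinset (fun i => Ioc (a i) (b i)) with hB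
  have hH0 : (0 : ℝ) < H := by exact_mod_cast hH
  have hL0 : (0 : ℝ) < L := by exact_mod_cast hL
  set f : ℤ → ℝ := rs (w - W) (w + H) (fun _ => 1) with hf
  have hf1 : ∀ n, |f n| ≤ 1 := fun n => rs_le (by simp) n
  have hf0 : ∀ n, 0 ≤ f n := by
    intro n; rw [hf]; unfold rs; split_ifs <;> norm_num
  have h1 := hstar f hf1
  have hcardB : (#B : ℝ) ≤ n ^ Fintype.card ι := by
    rw [hB, Fintype.card_piFinset]
    push_cast
    calc ∏ i, ((#(Ioc (a i) (b i)) : ℕ) : ℝ) ≤ ∏ _i : ι, (n : ℝ) := by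
          apply prod_le_prod (fun i _ => Nat.cast_nonneg _)
          intro i _
          rw [Int.card_Ioc]
          have := hn i
          have h : (b i - a i).toNat ≤ n := by omega
          exact_mod_cast h
      _ = _ := by rw [prod_const, card_univ]
  have e1 : ∑ x ∈ B, ∑ h ∈ Icc 1 H, ∑ j ∈ Icc 1 L,
        (1 / ((H : ℝ) * L)) * (f (Pol A l c x + h) - f (Pol A l c x + h + j)) =
      ∑ x ∈ B, (1 / (H : ℝ)) * ∑ h ∈ Icc 1 H, f (Pol A l c x + (h : ℕ)) -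
        ∑ x ∈ B, (1 / ((H : ℝ) * L)) * ∑ h ∈ Icc 1 H, ∑ j ∈ Icc 1 L, f (Pol A l c x + (h : ℕ) + (j : ℕ)) := by
    rw [← sum_sub_distrib]
    refine sum_congr rfl fun x _ => ?_
    rw [mul_sum, mul_sum, ← sum_sub_distrib]
    refine sum_congr rfl fun h _ => ?_
    rw [← mul_sum, sum_sub_distrib, sum_const, Nat.card_Icc, nsmul_eq_mul, Nat.add_sub_cancel, mul_sub]
    congr 1
    field_simp
  have h2 : ∑ x ∈ B, (1 / ((H : ℝ) * L)) * ∑ h ∈ Icc 1 H, ∑ j ∈ Icc 1 L, f (Pol A l c x + (h : ℕ) + (j : ℕ)) ≤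
      ε * n ^ Fintype.card ι := by
    have h3 : ∀ x ∈ B, (1 / ((H : ℝ) * L)) * ∑ h ∈ Icc 1 H, ∑ j ∈ Icc 1 L, f (Pol A l c x + (h : ℕ) + (j : ℕ)) ≤ ε := by
      intro x _
      have h4 : ∀ h ∈ Icc 1 H, ∑ j ∈ Icc 1 L, f (Pol A l c x + (h : ℕ) + (j : ℕ)) ≤ 2 * W := by
        intro h _
        rw [sum_shift, hf, sum_rs, sum_const, nsmul_eq_mul, mul_one, Int.card_Ioc]
        have : (min (Pol A l c x + (h : ℕ) + L) (w + H) - max (Pol A l c x + (h : ℕ)) (w - W)).toNat ≤ 2 * W := by omega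
        exact_mod_cast this
      calc (1 / ((H : ℝ) * L)) * ∑ h ∈ Icc 1 H, ∑ j ∈ Icc 1 L, f (Pol A l c x + (h : ℕ) + (j : ℕ)) ≤
          (1 / ((H : ℝ) * L)) * ∑ h ∈ Icc 1 H, (2 * W : ℝ) := by
            apply mul_le_mul_of_nonneg_left (sum_le_sum h4) (by positivity)
        _ = 2 * W / L := by
            rw [sum_const, Nat.card_Icc, nsmul_eq_mul, Nat.add_sub_cancel]
            field_simp
        _ ≤ ε := by rw [div_le_iff₀ hL0]; exact hWL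
    calc _ ≤ ∑ x ∈ B, ε := sum_le_sum h3
      _ = #B * ε := by rw [sum_const, nsmul_eq_mul]
      _ ≤ n ^ Fintype.card ι * ε := by gcongr
      _ = _ := by ring
  have h3 : (#{x ∈ B | w - W < Pol A l c x ∧ Pol A l c x ≤ w} : ℝ) ≤
      ∑ x ∈ B, (1 / (H : ℝ)) * ∑ h ∈ Icc 1 H, f (Pol A l c x + (h : ℕ)) := by
    rw [card_filter]
    push_cast
    apply sum_le_sum
    intro x _
    split_ifs with hx
    · have h4 : ∀ h ∈ Icc 1 H, f (Pol A l c x + (h : ℕ)) = 1 := by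
        intro h hh
        rw [mem_Icc] at hh
        rw [hf]; unfold rs
        rw [if_pos]
        omega
      rw [sum_congr rfl h4, sum_const, Nat.card_Icc, nsmul_eq_mul, Nat.add_sub_cancel, mul_one]
      have : 1 / (H : ℝ) * H = 1 := by field_simp
      rw [this]
    · apply mul_nonneg (by positivity)
      exact sum_nonneg fun h _ => hf0 _
  rw [e1] at h1
  have h4 := (abs_le.1 h1).2
  linarith

/-- The estimate `star` at the scale `n = 2 R`. -/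
theorem star_R (A : ι → ι → ℤ) {p q r t : ι} (hpq : p ≠ q) (hrt : r ≠ t)
    (hdet : Sy A p r * Sy A q t - Sy A p t * Sy A q r ≠ 0) {B : ℝ} (hB : 0 < B) :
    ∃ E : ℕ, ∀ ε : ℝ, 0 < ε → ∃ κ : ℝ, 0 < κ ∧ κ ≤ 1 ∧ ∃ R₁ : ℕ, ∀ R : ℕ, R₁ ≤ R →
      ∀ (l : ι → ℤ) (c : ℤ) (a b : ι → ℤ), (∀ i, |(l i : ℝ)| ≤ B * R) → |(c : ℝ)| ≤ B * R ^ 2 →
      (∀ i, |a i| ≤ R) → (∀ i, |b i| ≤ R) → ∃ H L : ℕ, H = 4 ^ Nat.sqrt (Nat.log 2 (2 * R)) ∧ 1 ≤ H ∧
      (H : ℝ) ≤ 2 * ((2 * R : ℕ) : ℝ) ∧ 1 ≤ L ∧ κ * ((2 * R : ℕ) : ℝ) ^ 2 / 2 ≤ L ∧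
      (∀ x ∈ Fintype.piFinset (fun i => Ioc (a i) (b i)), |Pol A l c x| + H + L ≤ E * (R : ℤ) ^ 2) ∧
      ∀ f : ℤ → ℝ, (∀ n, |f n| ≤ 1) →
      |∑ x ∈ Fintype.piFinset (fun i => Ioc (a i) (b i)), ∑ h ∈ Icc 1 H, ∑ j ∈ Icc 1 L,
        (1 / ((H : ℝ) * L)) * (f (Pol A l c x + h) - f (Pol A l c x + h + j))| ≤
          ε * ((2 * R : ℕ) : ℝ) ^ Fintype.card ι := by
  set k := Fintype.card ι with hk
  set C0 : ℝ := sa A + k * B + B with hC0
  have hC00 : 0 < C0 := by positivity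
  set Bd : ℝ := C0 + 4 with hBd
  have hBd0 : 0 < Bd := by positivity
  refine ⟨⌈4 * Bd⌉₊, fun ε hε => ?_⟩
  obtain ⟨κ, hκ0, hκ1, η, hη0, n₀, hstar⟩ := star A hpq hrt hdet hBd0 hε
  obtain ⟨n₂, hlog⟩ := log_cond hη0 (sz A) (sz_pos hdet)
  refine ⟨κ, hκ0, hκ1, n₀ + n₂ + ⌈2 / κ⌉₊ + 1, fun R hR l c a b hl hc ha hb => ?_⟩
  set n : ℕ := 2 * R with hn
  have hR1 : 1 ≤ R := by omega
  have hn1 : 1 ≤ n := by omega
  have hRr : (1 : ℝ) ≤ R := by exact_mod_cast hR1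
  have hnr : (n : ℝ) = 2 * R := by rw [hn]; push_cast; ring
  have hn0 : (0 : ℝ) < n := by rw [hnr]; linarith
  have hab : ∀ i, b i - a i ≤ n := by
    intro i
    have h1 := abs_le.1 (ha i)
    have h2 := abs_le.1 (hb i)
    rw [hn]; push_cast; omega
  set H : ℕ := 4 ^ Nat.sqrt (Nat.log 2 n) with hH
  have hH1 : 1 ≤ H := Nat.one_le_pow _ _ (by norm_num)
  have hHn : (H : ℝ) ≤ 2 * n := by exact_mod_cast H_le n hn1
  have hRbig : 2 / κ ≤ n := by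
    have h2 := Nat.le_ceil (2 / κ)
    have h3 : ((n₀ + n₂ + ⌈2 / κ⌉₊ + 1 : ℕ) : ℝ) ≤ R := by exact_mod_cast hR
    push_cast at h3
    have p1 : (0 : ℝ) ≤ n₀ := Nat.cast_nonneg _
    have p3 : (0 : ℝ) ≤ n₂ := Nat.cast_nonneg _
    have p6 : (0 : ℝ) ≤ ⌈2 / κ⌉₊ := Nat.cast_nonneg _
    rw [hnr]
    linarith
  set L : ℕ := ⌊κ * (n : ℝ) ^ 2⌋₊ with hL
  have hκn : 2 ≤ κ * (n : ℝ) ^ 2 := by
    have h1 := hRbig
    rw [div_le_iff₀ hκ0] at h1
    have h2 : (1 : ℝ) ≤ n := by exact_mod_cast hn1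
    nlinarith
  have hLle : (L : ℝ) ≤ κ * n ^ 2 := Nat.floor_le (by positivity)
  have hLge : κ * n ^ 2 / 2 ≤ L := by
    have := Nat.lt_floor_add_one (κ * (n : ℝ) ^ 2)
    rw [← hL] at this
    linarith
  have hL0 : (0 : ℝ) < L := by linarith
  have hL1 : 1 ≤ L := by exact_mod_cast hL0
  set X : ℕ := ⌈C0 * (R : ℝ) ^ 2⌉₊ + H + L + R with hX
  have hXle : (X : ℝ) ≤ Bd * n ^ 2 := by
    rw [hX]
    push_cast
    have h1 := Nat.ceil_lt_add_one (show 0 ≤ C0 * (R : ℝ) ^ 2 by positivity)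
    have h2 : (L : ℝ) ≤ n ^ 2 := hLle.trans (by nlinarith)
    rw [hnr] at hHn h2 ⊢
    have h3 : (R : ℝ) ≤ R ^ 2 := by nlinarith
    have h4 : C0 * (R : ℝ) ^ 2 ≤ C0 * (2 * R) ^ 2 := by nlinarith
    rw [hBd]
    nlinarith
  have hXE : (X : ℤ) ≤ (⌈4 * Bd⌉₊ : ℕ) * (R : ℤ) ^ 2 := by
    have h1 : (X : ℝ) ≤ (⌈4 * Bd⌉₊ : ℕ) * (R : ℝ) ^ 2 := by
      refine hXle.trans ?_
      rw [hnr]
      have := Nat.le_ceil (4 * Bd)
      nlinarith [sq_nonneg (R : ℝ)]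
    exact_mod_cast h1
  have hxR : ∀ x ∈ Fintype.piFinset (fun i => Ioc (a i) (b i)), ∀ i, |x i| ≤ R := by
    intro x hx i
    rw [Fintype.mem_piFinset] at hx
    have h1 := hx i
    rw [mem_Ioc] at h1
    have h2 := abs_le.1 (ha i)
    have h3 := abs_le.1 (hb i)
    rw [abs_le]; omega
  have hXP' : ∀ x ∈ Fintype.piFinset (fun i => Ioc (a i) (b i)), |Pol A l c x| + H + L ≤ X := by
    intro x hx
    have h1 := Pol_le A (hxR x hx) hl hc
    rw [← hk, ← hC0] at h1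
    have h2 : |(Pol A l c x : ℝ)| ≤ (⌈C0 * (R : ℝ) ^ 2⌉₊ : ℝ) := h1.trans (Nat.le_ceil _)
    have h3 : |Pol A l c x| ≤ ((⌈C0 * (R : ℝ) ^ 2⌉₊ : ℕ) : ℤ) := by exact_mod_cast h2
    have h0 : (0 : ℤ) ≤ R := Int.natCast_nonneg _
    rw [hX]; push_cast
    linarith
  have hst := hstar n (by omega) H hH1 (hlog n (by omega)) L hL1 hLle l c a b hab X hXP' hXle
  exact ⟨H, L, rfl, hH1, hHn, hL1, hLge, fun x hx => (hXP' x hx).trans hXE, hst⟩

end Pool.Agent.Run7.h145.QL
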