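import Pool.Agent.Y964.LW.A0
import Pool.Agent.H499R2.NDLln

/-! Laws in natural density and thresholds (copy of the first part of `Pool.Agent.Y964.LW.C1`, without
its imports). -/

set_option autoImplicit false

namespace Pool.Agent.Run7.h145.QL

open Finset Filter Topology Pool.Agent.H320R2.PD Pool.Agent.H499R2.ND Pool.Agent.H499R2.CO
  Pool.Agent.W41.FU Pool.Agent.W41
open Pool.Agent.Y964.LW (SameR oc)
open scoped Classical

/-- the threshold -/
noncomputable def thr (α σ x L : ℝ) : ℝ := α * L + x * (σ * Real.sqrt L)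

/-- comparison of the thresholds at `n` and `N` -/
theorem thr_cmp {α σ x θ D κ : ℝ} (hσ : 0 < σ) (hθ : 0 < θ) (hD : 0 ≤ D) (hκ : κ = σ * θ / 4) : ∃ L0 : ℝ, 1 ≤ L0 ∧
    ∀ L l : ℝ, L0 ≤ L → 0 ≤ l → |l - L| ≤ D →
      thr α σ x L + κ * Real.sqrt L ≤ thr α σ (x + θ) l ∧ thr α σ (x - θ) l ≤ thr α σ x L - κ * Real.sqrt L := by
  have hκ0 : 0 < κ := by rw [hκ]; positivity
  set C : ℝ := |α| * D + |x| * σ * D + θ * σ * D with hC
  have hC0 : 0 ≤ C := by positivity
  refine ⟨max 1 ((C / κ) ^ 2), le_max_left _ _, fun L l hL hl hd => ?_⟩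
  have hL1 : 1 ≤ L := (le_max_left _ _).trans hL
  have hs1 : 1 ≤ Real.sqrt L := Real.one_le_sqrt.2 hL1
  have hsC : C ≤ κ * Real.sqrt L := by
    have h1 : C / κ ≤ Real.sqrt L := Real.le_sqrt_of_sq_le ((le_max_right _ _).trans hL)
    rw [div_le_iff₀ hκ0] at h1
    linarith
  have hsd : |Real.sqrt l - Real.sqrt L| ≤ D := by
    have h1 : (Real.sqrt l - Real.sqrt L) * (Real.sqrt l + Real.sqrt L) = l - L := by
      have h2 := Real.sq_sqrt hl
      have h3 := Real.sq_sqrt (by linarith : 0 ≤ L)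
      nlinarith
    have h2 : |Real.sqrt l - Real.sqrt L| * (Real.sqrt l + Real.sqrt L) ≤ D := by
      have h4 : 0 ≤ Real.sqrt l + Real.sqrt L := by positivity
      rw [← abs_of_nonneg h4, ← abs_mul, h1]
      exact hd
    have h3 : 0 ≤ Real.sqrt l := Real.sqrt_nonneg l
    have h4 := abs_nonneg (Real.sqrt l - Real.sqrt L)
    nlinarith
  obtain ⟨d1, d2⟩ := abs_le.1 hd
  obtain ⟨s1, s2⟩ := abs_le.1 hsd
  have a1 : |α * (l - L)| ≤ |α| * D := by
    rw [abs_mul]; exact mul_le_mul_of_nonneg_left hd (abs_nonneg _)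
  have a2 : |x * (σ * (Real.sqrt l - Real.sqrt L))| ≤ |x| * σ * D := by
    rw [abs_mul, abs_mul, abs_of_pos hσ, mul_assoc]
    exact mul_le_mul_of_nonneg_left (mul_le_mul_of_nonneg_left hsd hσ.le) (abs_nonneg _)
  obtain ⟨a3, a4⟩ := abs_le.1 a1
  obtain ⟨a5, a6⟩ := abs_le.1 a2
  have a7 : θ * σ * (Real.sqrt L - D) ≤ θ * σ * Real.sqrt l := mul_le_mul_of_nonneg_left (by linarith) (by positivity)
  have a8 : θ * σ = 4 * κ := by rw [hκ]; ring
  unfold thr
  have e1 : θ * σ * (Real.sqrt L - D) = 4 * κ * Real.sqrt L - θ * σ * D := by rw [← a8]; ring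
  rw [e1] at a7
  have hk : 0 ≤ κ * Real.sqrt L := by positivity
  constructor
  · have e : α * l + (x + θ) * (σ * Real.sqrt l) = α * L + x * (σ * Real.sqrt L) + α * (l - L)
        + x * (σ * (Real.sqrt l - Real.sqrt L)) + θ * σ * Real.sqrt l := by ring
    rw [e]
    linarith
  · have e : α * l + (x - θ) * (σ * Real.sqrt l) = α * L + x * (σ * Real.sqrt L) + α * (l - L)
        + x * (σ * (Real.sqrt l - Real.sqrt L)) - θ * σ * Real.sqrt l := by ring
    rw [e]
    linarith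

/-- uniform counting from a density -/
theorem dn_unif {P : ℕ → Prop} {l : ℝ} (h : Dn P l) {ε : ℝ} (hε : 0 < ε) (E : ℕ) :
    ∀ᶠ N : ℕ in atTop, ∀ y : ℕ, y ≤ E * N → |cnt P y - l * y| ≤ ε * N := by
  have hE0 : (0 : ℝ) ≤ E := Nat.cast_nonneg _
  have h1 : ∀ᶠ y : ℕ in atTop, |cnt P y / y - l| < ε / (E + 1) := by
    have := (Metric.tendsto_nhds.1 h) (ε / (E + 1)) (by positivity)
    filter_upwards [this] with y hy
    rwa [Real.dist_eq] at hy
  obtain ⟨y0, hy0⟩ := eventually_atTop.1 h1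
  obtain ⟨N1, hN1⟩ := exists_nat_ge ((1 + |l|) * (y0 + 1) / ε)
  filter_upwards [eventually_ge_atTop (N1 + 1)] with N hN y hy
  have hNR : (N1 : ℝ) ≤ N := by exact_mod_cast (by omega : N1 ≤ N)
  have hN0 : (0 : ℝ) < N := by exact_mod_cast (by omega : 0 < N)
  have hyR : (y : ℝ) ≤ E * N := by exact_mod_cast hy
  rcases Nat.lt_or_ge y (y0 + 1) with h2 | h2
  · have h3 := cnt_le P y
    have h4 := cntn_nonneg P y
    have h5 : (y : ℝ) ≤ y0 + 1 := by exact_mod_cast h2.le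
    have h6 : |cnt P y - l * y| ≤ (1 + |l|) * (y0 + 1) := by
      refine (abs_sub _ _).trans ?_
      rw [abs_of_nonneg h4, abs_mul, abs_of_nonneg (Nat.cast_nonneg y : (0 : ℝ) ≤ y)]
      have := mul_le_mul_of_nonneg_left h5 (abs_nonneg l)
      nlinarith
    rw [div_le_iff₀ hε] at hN1
    have := mul_le_mul_of_nonneg_left hNR hε.le
    linarith
  · have hy1 : (0 : ℝ) < y := by exact_mod_cast (by omega : 0 < y)
    have h3 := hy0 y (by omega)
    have h4 : |cnt P y - l * y| ≤ ε / (E + 1) * y := by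
      have e : cnt P y - l * y = (cnt P y / y - l) * y := by field_simp
      rw [e, abs_mul, abs_of_pos hy1]
      exact mul_le_mul_of_nonneg_right h3.le hy1.le
    refine h4.trans ?_
    rw [div_mul_eq_mul_div, div_le_iff₀ (by positivity)]
    calc ε * y ≤ ε * (E * N) := mul_le_mul_of_nonneg_left hyR hε.le
      _ ≤ ε * N * (E + 1) := by nlinarith [mul_pos hε hN0]

/-- the law for the thresholds at `N`, uniformly in the range of summation -/
theorem fix_law {P : ℝ → ℕ → Prop} (hmono : ∀ τ τ' n, τ ≤ τ' → P τ n → P τ' n) {α σ : ℝ} (hσ : 0 < σ)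
    {F : ℝ → ℝ} (hF : Continuous F) (law : ∀ x, Dn (fun n => P (thr α σ x (Real.log n)) n) (F x)) (x : ℝ)
    {ε : ℝ} (hε : 0 < ε) (E : ℕ) : ∃ κ : ℝ, 0 < κ ∧ ∀ᶠ N : ℕ in atTop, ∀ τ : ℝ,
      |τ - thr α σ x (Real.log N)| ≤ κ * Real.sqrt (Real.log N) → ∀ y : ℕ, y ≤ E * N →
      |cnt (P τ) y - F x * y| ≤ ε * N := by
  have hE0 : (0 : ℝ) ≤ E := Nat.cast_nonneg _
  -- continuity
  obtain ⟨θ, hθ, hc1, hc2⟩ : ∃ θ : ℝ, 0 < θ ∧ |F (x + θ) - F x| ≤ ε / (4 * (E + 1)) ∧
      |F (x - θ) - F x| ≤ ε / (4 * (E + 1)) := by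
    obtain ⟨η, hη, h1⟩ := Metric.continuousAt_iff.1 hF.continuousAt (ε / (4 * (E + 1))) (by positivity)
    refine ⟨η / 2, by positivity, ?_, ?_⟩
    · have := h1 (x := x + η / 2) (by rw [Real.dist_eq, add_sub_cancel_left, abs_of_pos (by positivity)]; linarith)
      rw [Real.dist_eq] at this
      exact this.le
    · have := h1 (x := x - η / 2) (by
        rw [Real.dist_eq, sub_sub_cancel_left, abs_neg, abs_of_pos (by positivity)]; linarith)
      rw [Real.dist_eq] at this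
      exact this.le
  refine ⟨σ * θ / 4, by positivity, ?_⟩
  set ε1 : ℝ := ε / 4 with hε1
  have hε10 : 0 < ε1 := by positivity
  set D : ℝ := |Real.log ε1| + |Real.log (E + 1)| with hD
  obtain ⟨L0, hL01, hcmp⟩ := thr_cmp (α := α) (x := x) hσ hθ (by positivity : 0 ≤ D) rfl
  have tl : Tendsto (fun N : ℕ => Real.log N) atTop atTop :=
    Real.tendsto_log_atTop.comp tendsto_natCast_atTop_atTop
  have u1 := dn_unif (law (x + θ)) hε10 E
  have u2 := dn_unif (law (x - θ)) hε10 E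
  filter_upwards [u1, u2, tl.eventually_ge_atTop L0, eventually_ge_atTop 1] with N h1 h2 h3 hN1 τ hτ y hy
  have hN0 : (0 : ℝ) < N := by exact_mod_cast hN1
  have hyR : (y : ℝ) ≤ E * N := by exact_mod_cast hy
  obtain ⟨t1, t2⟩ := abs_le.1 hτ
  -- comparison for large `n`
  have hlog : ∀ n : ℕ, ε1 * N < n → n ≤ y → 1 ≤ n → |Real.log n - Real.log N| ≤ D ∧ 0 ≤ Real.log n := by
    intro n ha hb hn
    have hn0 : (0 : ℝ) < n := by exact_mod_cast hn
    refine ⟨?_, Real.log_natCast_nonneg n⟩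
    have b1 : Real.log ε1 + Real.log N ≤ Real.log n := by
      rw [← Real.log_mul hε10.ne' hN0.ne']
      exact Real.log_le_log (by positivity) ha.le
    have b2 : Real.log n ≤ Real.log (E + 1) + Real.log N := by
      rw [← Real.log_mul (by positivity) hN0.ne']
      apply Real.log_le_log hn0
      have : (n : ℝ) ≤ y := by exact_mod_cast hb
      nlinarith
    have b3 := neg_abs_le (Real.log ε1)
    have b4 := le_abs_self (Real.log ((E : ℝ) + 1))
    have b5 := abs_nonneg (Real.log ε1)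
    have b6 := abs_nonneg (Real.log ((E : ℝ) + 1))
    rw [abs_le]
    constructor <;> linarith
  have k1 : cnt (P τ) y ≤ cnt (fun n => P (thr α σ (x + θ) (Real.log n)) n) y + ε1 * N := by
    refine (cnt_or (Q := fun n => P (thr α σ (x + θ) (Real.log n)) n) (R := fun n => (n : ℝ) ≤ ε1 * N) y
      (fun n hn hny hP => ?_)).trans (add_le_add_right (cnt_small (by positivity) y) _)
    by_cases hs : (n : ℝ) ≤ ε1 * N
    · exact Or.inr hs
    · push Not at hs
      obtain ⟨c1, c2⟩ := hlog n hs hny hn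
      exact Or.inl (hmono _ _ n (by linarith [(hcmp _ _ h3 c2 c1).1]) hP)
  have k2 : cnt (fun n => P (thr α σ (x - θ) (Real.log n)) n) y ≤ cnt (P τ) y + ε1 * N := by
    refine (cnt_or (Q := P τ) (R := fun n => (n : ℝ) ≤ ε1 * N) y
      (fun n hn hny hP => ?_)).trans (add_le_add_right (cnt_small (by positivity) y) _)
    by_cases hs : (n : ℝ) ≤ ε1 * N
    · exact Or.inr hs
    · push Not at hs
      obtain ⟨c1, c2⟩ := hlog n hs hny hn
      exact Or.inl (hmono _ _ n (by linarith [(hcmp _ _ h3 c2 c1).2]) hP)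
  obtain ⟨p1, p2⟩ := abs_le.1 (h1 y hy)
  obtain ⟨p3, p4⟩ := abs_le.1 (h2 y hy)
  have hy0 : (0 : ℝ) ≤ y := Nat.cast_nonneg _
  have q1 : |(F (x + θ) - F x) * y| ≤ ε / 4 * N := by
    rw [abs_mul, abs_of_nonneg hy0]
    calc |F (x + θ) - F x| * y ≤ ε / (4 * (E + 1)) * (E * N) := mul_le_mul hc1 hyR hy0 (by positivity)
      _ ≤ ε / 4 * N := by
          rw [div_mul_eq_mul_div, div_le_iff₀ (by positivity)]
          nlinarith [mul_pos hε hN0]
  have q2 : |(F (x - θ) - F x) * y| ≤ ε / 4 * N := by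
    rw [abs_mul, abs_of_nonneg hy0]
    calc |F (x - θ) - F x| * y ≤ ε / (4 * (E + 1)) * (E * N) := mul_le_mul hc2 hyR hy0 (by positivity)
      _ ≤ ε / 4 * N := by
          rw [div_mul_eq_mul_div, div_le_iff₀ (by positivity)]
          nlinarith [mul_pos hε hN0]
  obtain ⟨r1, r2⟩ := abs_le.1 q1
  obtain ⟨r3, r4⟩ := abs_le.1 q2
  rw [sub_mul] at r1 r2 r3 r4
  rw [hε1] at k1 k2 p1 p2 p3 p4
  rw [abs_le]
  constructor
  · nlinarith [mul_pos hε hN0]
  · nlinarith [mul_pos hε hN0]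

/-- A family of events `E i τ` (`i` a class, `τ` a threshold), monotone in the threshold, whose indicator
functions are constant on coalescing trajectories above a height, compatible with multiplication by
two, with a law in natural density. -/
structure Fam (s : ℤ) (R : ℕ) (ι : Type) where
  E : ι → ℝ → ℕ → Prop
  sh : ι → ι
  w : ℝ
  α : ℝ
  σ : ℝ
  F : ι → ℝ → ℝ
  hw : 0 ≤ w
  hσ : 0 < σ
  mono : ∀ i τ τ' n, τ ≤ τ' → E i τ n → E i τ' n
  same : ∀ i τ (j : ℕ) (x y : ℕ), 1 ≤ x → 1 ≤ y → (Tz s)^[j] (x : ℤ) = (Tz s)^[j] (y : ℤ) →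
    oc s j (x : ℤ) = oc s j (y : ℤ) → (R : ℤ) < (Tz s)^[j] (x : ℤ) → (E i τ x → E i τ y)
  two : ∀ i τ n, 1 ≤ n → (E i τ (2 * n) ↔ E (sh i) (τ - w) n)
  Fsh : ∀ i x, F (sh i) x = F i x
  F01 : ∀ i x, 0 ≤ F i x ∧ F i x ≤ 1
  cont : ∀ i, Continuous (F i)
  law : ∀ i x, Dn (fun n => E i (thr α σ x (Real.log n)) n) (F i x)

/-- nonpositive integers stay nonpositive -/
theorem Tz_nonpos {s : ℤ} (hs : s = 1 ∨ s = -1) (j : ℕ) : ∀ {x : ℤ}, x ≤ 0 → (Tz s)^[j] x ≤ 0 := by
  induction j with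
  | zero => intro x hx; simpa using hx
  | succ j ih =>
    intro x hx
    rw [Function.iterate_succ_apply]
    apply ih
    unfold Tz
    rcases hs with rfl | rfl
    · split_ifs <;> omega
    · split_ifs <;> omega

/-- the balanced indicator function of an event -/
noncomputable def bf (P : ℕ → Prop) (a : ℝ) (z : ℤ) : ℝ := (if 0 < z ∧ P z.toNat then 1 else 0) - a

theorem bf_same {s : ℤ} (hs : s = 1 ∨ s = -1) {R : ℕ} {P : ℕ → Prop} {a : ℝ} (ha0 : 0 ≤ a) (ha1 : a ≤ 1)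
    (h : ∀ (j : ℕ) (x y : ℕ), 1 ≤ x → 1 ≤ y → (Tz s)^[j] (x : ℤ) = (Tz s)^[j] (y : ℤ) →
      oc s j (x : ℤ) = oc s j (y : ℤ) → (R : ℤ) < (Tz s)^[j] (x : ℤ) → (P x → P y)) :
    bf P a ∈ SameR R s := by
  refine ⟨fun z => ?_, fun j z z' h1 h2 h3 => ?_⟩
  · unfold bf
    rw [abs_le]
    split_ifs
    · constructor <;> linarith
    · constructor <;> linarith
  · have hR0 : (0 : ℤ) ≤ R := Int.natCast_nonneg R
    have hz : 0 < z := by
      by_contra hcon
      push Not at hcon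
      have := Tz_nonpos hs j hcon
      omega
    have hz' : 0 < z' := by
      by_contra hcon
      push Not at hcon
      have := Tz_nonpos hs j hcon
      rw [← h1] at this
      omega
    obtain ⟨x, rfl⟩ := Int.eq_ofNat_of_zero_le hz.le
    obtain ⟨y, rfl⟩ := Int.eq_ofNat_of_zero_le hz'.le
    have hx1 : 1 ≤ x := by omega
    have hy1 : 1 ≤ y := by omega
    have hiff : P x ↔ P y := ⟨h j x y hx1 hy1 h1 h2 h3, h j y x hy1 hx1 h1.symm h2.symm (by rw [← h1]; exact h3)⟩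
    unfold bf
    simp only [Int.toNat_natCast, hiff, hz, hz', true_and]

theorem bf_sum (P : ℕ → Prop) (a : ℝ) (n : ℕ) :
    ∑ m ∈ Icc 1 n, bf P a ((m : ℕ) : ℤ) = cnt P n - a * n := by
  rw [cnt_eq, card_filter]
  push_cast
  unfold bf
  rw [sum_sub_distrib, sum_const, Nat.card_Icc, Nat.add_sub_cancel, nsmul_eq_mul, mul_comm]
  congr 1
  apply sum_congr rfl
  intro m hm
  rw [mem_Icc] at hm
  have : 0 < (m : ℤ) := by exact_mod_cast hm.1
  simp only [Int.toNat_natCast, this, true_and]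

theorem Fam.two_pow {s : ℤ} {R : ℕ} {ι : Type} (A : Fam s R ι) (e : ℕ) : ∀ (i : ι) (τ : ℝ) (n : ℕ), 1 ≤ n →
    (A.E i τ (2 ^ e * n) ↔ A.E (A.sh^[e] i) (τ - e * A.w) n) := by
  induction e with
  | zero => intro i τ n _; simp
  | succ e ih =>
    intro i τ n hn
    rw [pow_succ, mul_comm (2 ^ e) 2, mul_assoc, A.two i τ _ (Nat.mul_pos (by positivity) hn), ih _ _ _ hn,
      Function.iterate_succ_apply]
    push_cast
    rw [show τ - A.w - (e : ℝ) * A.w = τ - ((e : ℝ) + 1) * A.w by ring]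

theorem Fam.F_iter {s : ℤ} {R : ℕ} {ι : Type} (A : Fam s R ι) (e : ℕ) : ∀ (i : ι) (x : ℝ),
    A.F (A.sh^[e] i) x = A.F i x := by
  induction e with
  | zero => intro i x; rfl
  | succ e ih => intro i x; rw [Function.iterate_succ_apply, ih, A.Fsh]


end Pool.Agent.Run7.h145.QL
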