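import Pool.Agent.Run7.h145.QL.T
import Pool.Agent.H499R2.HL.E

/-! Relative laws of the total stopping time, the number of odd terms and the Collatz time. -/

set_option autoImplicit false

namespace Pool.Agent.Run7.h145.QL

open Finset Filter Topology
open Pool.Agent.Y964.LW (SameR oc oc_succ oc_zero oc_add)
open Pool.Agent.H499R2.CO (Tz)
open Pool.Agent.H499R2.ND (Dn Tn Td Phi Phi_continuous phi_cdf Bas CC)
open Pool.Agent.H499R2.LT (odn od od_nat Td_nat law_one law_oneC ocn oC_nat Dn_sum Dn_iff)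
open Pool.Agent.H499R2.HL (H H_two H_of_two H_unique odn_two bk bo nu rr nu_pos rr_pos sqrt_rr law_k law_o)
open scoped Classical

theorem Td_Tz : Td = Tz := rfl

theorem Tz_nat (i n : ℕ) : (Tz 1)^[i] (n : ℤ) = ((Tn^[i] n : ℕ) : ℤ) := Td_nat i n

theorem oc_od (j : ℕ) : ∀ x : ℤ, (oc 1 j x : ℤ) = od 1 j x := by
  induction j with
  | zero => intro x; rfl
  | succ j ih =>
    intro x
    rw [oc_succ, od, Nat.cast_add, ih, Td_Tz]
    congr 1
    by_cases h : x % 2 = 0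
    · rw [if_pos h, if_neg (by omega)]; rfl
    · rw [if_neg h, if_pos (by omega)]; rfl

theorem oc_odn1 (j n : ℕ) : oc 1 j (n : ℤ) = odn j n := by
  have h1 := oc_od j (n : ℤ)
  rw [od_nat] at h1
  exact_mod_cast h1

theorem odn_add' (a b n : ℕ) : odn (a + b) n = odn a n + odn b (Tn^[a] n) := by
  rw [← oc_odn1, ← oc_odn1, ← oc_odn1, oc_add, Tz_nat]

theorem Tn_one_iter (i : ℕ) : Tn^[i] 1 = 1 ∨ Tn^[i] 1 = 2 := by
  induction i with
  | zero => exact Or.inl rfl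
  | succ i ih =>
    rw [Function.iterate_succ_apply']
    rcases ih with h | h
    · rw [h]; exact Or.inr rfl
    · rw [h]; exact Or.inl rfl

theorem same_H {R : ℕ → ℕ → Prop} {j x y : ℕ} (h1 : (Tz 1)^[j] (x : ℤ) = (Tz 1)^[j] (y : ℤ))
    (h2 : oc 1 j (x : ℤ) = oc 1 j (y : ℤ)) (h3 : ((2 : ℕ) : ℤ) < (Tz 1)^[j] (x : ℤ))
    (h : ∃ k, H k x ∧ R k (odn k x)) : ∃ k, H k y ∧ R k (odn k y) := by
  rw [Tz_nat, Tz_nat] at h1
  rw [Tz_nat] at h3
  rw [oc_odn1, oc_odn1] at h2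
  have h1' : Tn^[j] x = Tn^[j] y := by exact_mod_cast h1
  have h3' : 2 < Tn^[j] x := by exact_mod_cast h3
  have hno : ∀ z : ℕ, 2 < Tn^[j] z → ∀ i, i ≤ j → Tn^[i] z ≠ 1 := by
    intro z hz i hi hi1
    obtain ⟨l, rfl⟩ := Nat.exists_eq_add_of_le hi
    rw [show i + l = l + i by ring, Function.iterate_add_apply, hi1] at hz
    rcases Tn_one_iter l with h4 | h4 <;> omega
  obtain ⟨k, ⟨hk1, hk2⟩, hk3⟩ := h
  have hjk : j ≤ k := by
    by_contra hcon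
    push Not at hcon
    exact hno x h3' k hcon.le hk1
  obtain ⟨i, rfl⟩ := Nat.exists_eq_add_of_le hjk
  refine ⟨j + i, ⟨?_, fun l hl => ?_⟩, ?_⟩
  · rw [show j + i = i + j by ring, Function.iterate_add_apply] at hk1 ⊢
    rw [← h1']; exact hk1
  · rcases Nat.lt_or_ge l j with h5 | h5
    · exact hno y (by rw [← h1']; exact h3') l h5.le
    · obtain ⟨i', rfl⟩ := Nat.exists_eq_add_of_le h5
      have h6 := hk2 (j + i') hl
      rw [show j + i' = i' + j by ring, Function.iterate_add_apply] at h6 ⊢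
      rw [← h1']; exact h6
  · rw [odn_add', ← h2, ← h1', ← odn_add']; exact hk3

theorem two_H {R : ℕ → ℕ → Prop} {n : ℕ} : (∃ k, H k (2 * n) ∧ R k (odn k (2 * n))) ↔
    ∃ k, H k n ∧ R (k + 1) (odn k n) := by
  constructor
  · rintro ⟨k, hk, hR⟩
    obtain ⟨k', rfl, h'⟩ := H_of_two hk
    rw [odn_two] at hR
    exact ⟨k', h', hR⟩
  · rintro ⟨k, hk, hR⟩
    exact ⟨k + 1, H_two hk, by rw [odn_two]; exact hR⟩

theorem Fam.RL {s : ℤ} {R : ℕ} {ι : Type} (A : Fam s R ι) (W : Target) (hs : s = 1 ∨ s = -1) (i : ι) (x : ℝ) :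
    W.Fr (fun n => A.E i (thr A.α A.σ x (Real.log n)) n) (A.F i x) := W.fam hs A i x

/-- families of events given by the total stopping time and the number of odd terms -/
noncomputable def mkFam {ι : Type} (R : ι → ℝ → ℕ → ℕ → Prop) (sh : ι → ι) (w α σ : ℝ) (F : ι → ℝ → ℝ)
    (hw : 0 ≤ w) (hσ : 0 < σ) (mono : ∀ i τ τ' k o, τ ≤ τ' → R i τ k o → R i τ' k o)
    (two : ∀ i τ k o, R i τ (k + 1) o ↔ R (sh i) (τ - w) k o) (Fsh : ∀ i x, F (sh i) x = F i x)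
    (F01 : ∀ i x, 0 ≤ F i x ∧ F i x ≤ 1) (cont : ∀ i, Continuous (F i))
    (law : ∀ i x, Dn (fun n => ∃ k, H k n ∧ R i (thr α σ x (Real.log n)) k (odn k n)) (F i x)) : Fam 1 2 ι where
  E := fun i τ n => ∃ k, H k n ∧ R i τ k (odn k n)
  sh := sh
  w := w
  α := α
  σ := σ
  F := F
  hw := hw
  hσ := hσ
  mono := fun i τ τ' n h ⟨k, hk, hR⟩ => ⟨k, hk, mono i τ τ' k _ h hR⟩
  same := fun i τ j x y _ _ h1 h2 h3 h => same_H h1 h2 h3 h
  two := fun i τ n _ => two_H.trans (exists_congr fun k => and_congr_right fun _ => two i τ k _)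
  Fsh := Fsh
  F01 := F01
  cont := cont
  law := law

theorem phi01 (x : ℝ) : 0 ≤ Phi x ∧ Phi x ≤ 1 := by
  rw [phi_cdf]
  exact ⟨ProbabilityTheory.cdf_nonneg _ _, ProbabilityTheory.cdf_le_one _ _⟩

theorem hit_iff (n : ℕ) : (∃ k : ℕ, Tn^[k] n = 1) ↔ ∃ k, H k n := by
  constructor
  · intro h
    exact ⟨Nat.find h, Nat.find_spec h, fun i hi => Nat.find_min h hi⟩
  · rintro ⟨k, hk⟩; exact ⟨k, hk.1⟩

theorem bk_thr (x L : ℝ) : bk x L = thr (2 / Real.log (4 / 3)) (Real.log 3 * rr) x L := by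
  unfold bk thr
  rw [sqrt_rr]
  ring

theorem bo_thr (x L : ℝ) : bo x L = thr (1 / Real.log (4 / 3)) (Real.log 2 * rr) x L := by
  unfold bo thr
  rw [sqrt_rr]
  ring

/-- bound for the Collatz time -/
noncomputable def bc (x L : ℝ) : ℝ :=
  3 / Real.log (4 / 3) * L + x * (Real.log 6 * Real.sqrt (2 * L / Real.log (4 / 3) ^ 3))

theorem bc_thr (x L : ℝ) : bc x L = thr (3 / Real.log (4 / 3)) (Real.log 6 * rr) x L := by
  unfold bc thr
  rw [sqrt_rr]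
  ring

theorem div_sq_le {δ : ℝ} (h0 : 0 < δ) (h1 : δ ≤ 1) {m : ℕ} (hm : 1 ≤ m) : 0 ≤ δ / (m : ℝ) ^ 2 ∧ δ / (m : ℝ) ^ 2 ≤ 1 := by
  have hm1 : (1 : ℝ) ≤ m := by exact_mod_cast hm
  refine ⟨by positivity, ?_⟩
  rw [div_le_one (by positivity)]
  nlinarith

theorem div_le' {δ : ℝ} (h0 : 0 < δ) (h1 : δ ≤ 1) {m : ℕ} (hm : 1 ≤ m) : 0 ≤ δ / (m : ℝ) ∧ δ / (m : ℝ) ≤ 1 := by
  have hm1 : (1 : ℝ) ≤ m := by exact_mod_cast hm
  refine ⟨by positivity, ?_⟩
  rw [div_le_one (by positivity)]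
  linarith

theorem mul01 {a b : ℝ} (ha : 0 ≤ a ∧ a ≤ 1) (hb : 0 ≤ b ∧ b ≤ 1) : 0 ≤ a * b ∧ a * b ≤ 1 :=
  ⟨mul_nonneg ha.1 hb.1, mul_le_one₀ ha.2 hb.1 hb.2⟩

theorem mod_succ (a : ℤ) (k m : ℕ) : (((k + 1 : ℕ) : ℤ) ≡ a [ZMOD m]) ↔ ((k : ℤ) ≡ a - 1 [ZMOD m]) := by
  push_cast
  constructor
  · intro h
    have := h.sub_right 1
    rwa [add_sub_cancel_right] at this
  · intro h
    have := h.add_right 1
    rwa [sub_add_cancel] at this

theorem ocn_succ (k n : ℕ) : ocn (k + 1) n = (if n % 2 = 0 then 0 else 1) + ocn k (CC n) := by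
  rw [← oC_nat, Pool.Agent.H499R2.LT.oC, Pool.Agent.H499R2.LT.Cz_one, oC_nat]
  congr 1
  by_cases h : n % 2 = 0
  · rw [if_pos h, if_pos (by omega)]
  · rw [if_neg h, if_neg (by omega)]

theorem odn_succ (k n : ℕ) : odn (k + 1) n = (if n % 2 = 0 then 0 else 1) + odn k (Tn n) := by
  rw [show k + 1 = 1 + k by ring, odn_add']
  congr 1
  rw [← oc_odn1, oc_succ, oc_zero]
  by_cases h : n % 2 = 0
  · rw [if_pos h, if_neg (by omega)]
  · rw [if_neg h, if_pos (by omega)]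

end Pool.Agent.Run7.h145.QL
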