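import Pool.Agent.Run7.h145.QL.L2
import Pool.Agent.W26.HN.D

/-! Relative laws of the entrance times into cycles, both signs. -/

set_option autoImplicit false

namespace Pool.Agent.Run7.h145.QL

open Finset Filter Topology
open Pool.Agent.Y964.LW (SameR oc oc_succ oc_zero oc_add)
open Pool.Agent.H499R2.CO (Tz)
open Pool.Agent.H499R2.ND (Dn Td Phi Phi_continuous phi_cdf Inv HD)
open Pool.Agent.H499R2.LT (od od_add Dn_iff)
open Pool.Agent.H499R2.HL (bk bo nu rr nu_pos rr_pos sqrt_rr)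
open Pool.Agent.W26.HN (E E_unique exists_E E_two E_of_two od_two side_two)
open scoped Classical

variable (W : Target)

theorem side_step {s : ℤ} (hs : s = 1 ∨ s = -1) (x : ℤ) : Td 1 (s * x) = s * Tz s x := by
  unfold Td Tz
  rcases hs with rfl | rfl
  · simp
  · split_ifs <;> omega

theorem side_iter {s : ℤ} (hs : s = 1 ∨ s = -1) (j : ℕ) (x : ℤ) : (Td 1)^[j] (s * x) = s * (Tz s)^[j] x := by
  induction j generalizing x with
  | zero => rfl
  | succ j ih => rw [Function.iterate_succ_apply, Function.iterate_succ_apply, side_step hs, ih]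

theorem side_oc {s : ℤ} (hs : s = 1 ∨ s = -1) (j : ℕ) : ∀ x : ℤ, (oc s j x : ℤ) = od 1 j (s * x) := by
  induction j with
  | zero => intro x; rfl
  | succ j ih =>
    intro x
    rw [oc_succ, od, Nat.cast_add, ih, side_step hs]
    congr 1
    have hpar : (s * x) % 2 = 0 ↔ x % 2 = 0 := by rcases hs with rfl | rfl <;> omega
    by_cases h : x % 2 = 0
    · rw [if_pos (hpar.2 h), if_neg (by omega)]; rfl
    · rw [if_neg (fun h' => h (hpar.1 h')), if_pos (by omega)]; rfl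

/-- the trajectories of the elements of `F` are bounded by `R` -/
def Bd (F : Finset ℤ) (R : ℕ) : Prop := ∀ y ∈ F, ∀ i : ℕ, |(Td 1)^[i] y| ≤ R

theorem same_E {s : ℤ} (hs : s = 1 ∨ s = -1) {F : Finset ℤ} {B : ℕ} (hB : Bd F B) {R : ℕ → ℤ → Prop} {j x y : ℕ}
    (h1 : (Tz s)^[j] (x : ℤ) = (Tz s)^[j] (y : ℤ))
    (h2 : oc s j (x : ℤ) = oc s j (y : ℤ)) (h3 : (B : ℤ) < (Tz s)^[j] (x : ℤ))
    (h : ∃ k, E F k (s * x) ∧ R k (od 1 k (s * x))) : ∃ k, E F k (s * y) ∧ R k (od 1 k (s * y)) := by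
  have h1' : (Td 1)^[j] (s * (x : ℤ)) = (Td 1)^[j] (s * (y : ℤ)) := by rw [side_iter hs, side_iter hs, h1]
  have h2' : od 1 j (s * (x : ℤ)) = od 1 j (s * (y : ℤ)) := by rw [← side_oc hs, ← side_oc hs, h2]
  have h3' : (B : ℤ) < |(Td 1)^[j] (s * (x : ℤ))| := by
    rw [side_iter hs, abs_mul]
    have : |s| = 1 := by rcases hs with rfl | rfl <;> rfl
    rw [this, one_mul]
    exact h3.trans_le (le_abs_self _)
  have hno : ∀ z : ℤ, (B : ℤ) < |(Td 1)^[j] z| → ∀ i, i ≤ j → (Td 1)^[i] z ∉ F := by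
    intro z hz i hi hi1
    obtain ⟨l, rfl⟩ := Nat.exists_eq_add_of_le hi
    rw [show i + l = l + i by ring, Function.iterate_add_apply] at hz
    exact absurd (hB _ hi1 l) (not_le.2 hz)
  obtain ⟨k, ⟨hk1, hk2⟩, hk3⟩ := h
  have hjk : j ≤ k := by
    by_contra hcon
    push Not at hcon
    exact hno _ h3' k hcon.le hk1
  obtain ⟨i, rfl⟩ := Nat.exists_eq_add_of_le hjk
  refine ⟨j + i, ⟨?_, fun l hl => ?_⟩, ?_⟩
  · rw [show j + i = i + j by ring, Function.iterate_add_apply] at hk1 ⊢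
    rw [← h1']; exact hk1
  · rcases Nat.lt_or_ge l j with h5 | h5
    · exact hno _ (by rw [← h1']; exact h3') l h5.le
    · obtain ⟨i', rfl⟩ := Nat.exists_eq_add_of_le h5
      have h6 := hk2 (j + i') hl
      rw [show j + i' = i' + j by ring, Function.iterate_add_apply] at h6 ⊢
      rw [← h1']; exact h6
  · rw [od_add, ← h2', ← h1', ← od_add]; exact hk3

theorem two_E {s : ℤ} {F : Finset ℤ} (hF : ∀ y ∈ F, y % 2 = 1) {R : ℕ → ℤ → Prop} {n : ℕ} :
    (∃ k, E F k (s * ((2 * n : ℕ) : ℤ)) ∧ R k (od 1 k (s * ((2 * n : ℕ) : ℤ)))) ↔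
    ∃ k, E F k (s * n) ∧ R (k + 1) (od 1 k (s * n)) := by
  rw [side_two]
  constructor
  · rintro ⟨k, hk, hR⟩
    obtain ⟨k', rfl, h'⟩ := E_of_two hF hk
    rw [od_two] at hR
    exact ⟨k', h', hR⟩
  · rintro ⟨k, hk, hR⟩
    exact ⟨k + 1, E_two hF hk, by rw [od_two]; exact hR⟩

/-- families of events given by the entrance time and the number of odd terms -/
noncomputable def mkFamE {s : ℤ} (hs : s = 1 ∨ s = -1) {F : Finset ℤ} (hF : ∀ y ∈ F, y % 2 = 1) {B : ℕ}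
    (hB : Bd F B) {ι : Type} (R : ι → ℝ → ℕ → ℤ → Prop) (sh : ι → ι) (w α σ : ℝ) (G : ι → ℝ → ℝ)
    (hw : 0 ≤ w) (hσ : 0 < σ) (mono : ∀ i τ τ' k o, τ ≤ τ' → R i τ k o → R i τ' k o)
    (two : ∀ i τ k o, R i τ (k + 1) o ↔ R (sh i) (τ - w) k o) (Gsh : ∀ i x, G (sh i) x = G i x)
    (G01 : ∀ i x, 0 ≤ G i x ∧ G i x ≤ 1) (cont : ∀ i, Continuous (G i))
    (law : ∀ i x, Dn (fun n : ℕ => ∃ k, E F k (s * n) ∧ R i (thr α σ x (Real.log n)) k (od 1 k (s * n))) (G i x)) :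
    Fam s B ι where
  E := fun i τ n => ∃ k, E F k (s * n) ∧ R i τ k (od 1 k (s * n))
  sh := sh
  w := w
  α := α
  σ := σ
  F := G
  hw := hw
  hσ := hσ
  mono := fun i τ τ' _ h ⟨k, hk, hR⟩ => ⟨k, hk, mono i τ τ' k _ h hR⟩
  same := fun i τ _ _ _ _ _ h1 h2 h3 h => same_E hs hB (R := R i τ) h1 h2 h3 h
  two := fun i τ _ _ => (two_E hF (R := R i τ)).trans (exists_congr fun k => and_congr_right fun _ => two i τ k _)
  Fsh := Gsh
  F01 := G01
  cont := cont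
  law := law

/-- relative laws of the entrance times -/
theorem rel_entr {s : ℤ} (hs : s = 1 ∨ s = -1) {F : Finset ℤ} (hF : ∀ y ∈ F, y % 2 = 1) {B : ℕ} (hB : Bd F B) :
    ∃ δ : ℝ, 0 ≤ δ ∧ δ ≤ 1 ∧ ((∃ a ∈ F, 0 < s * a ∧ ¬ (3 : ℤ) ∣ a) → 0 < δ) ∧
    Dn (fun n : ℕ => ∃ k : ℕ, E F k (s * n)) δ ∧
    W.Fr (fun n : ℕ => ∃ k : ℕ, E F k (s * n)) δ ∧
    ∀ (m : ℕ) (b : ℤ), 1 ≤ m →
      W.Fr (fun n : ℕ => ∃ k : ℕ, E F k (s * n) ∧ od 1 k (s * n) ≡ b [ZMOD m]) (δ / m) ∧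
      ∀ x : ℝ, W.Fr (fun n : ℕ => ∃ k : ℕ, E F k (s * n) ∧ ((od 1 k (s * n) : ℝ) ≤ bo x (Real.log n) ∧
        od 1 k (s * n) ≡ b [ZMOD m])) (δ / m * Phi x) := by
  obtain ⟨δ, h0, h1, h2, h3⟩ := Pool.Agent.W26.HN.law_k hs F
  have hE : Dn (fun n : ℕ => ∃ k : ℕ, E F k (s * n)) δ := by
    refine Dn_iff (fun n _ => ?_) h2
    constructor
    · rintro ⟨k, hk⟩
      obtain ⟨j, _, hj⟩ := exists_E hk
      exact ⟨j, hj⟩
    · rintro ⟨k, hk⟩; exact ⟨k, hk.1⟩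
  have hδ1 : δ ≤ 1 := by
    refine le_of_tendsto' hE fun N => ?_
    rcases Nat.eq_zero_or_pos N with h | h
    · subst h; simp
    · rw [div_le_one (by exact_mod_cast h)]
      exact Pool.Agent.H499R2.ND.cnt_le _ N
  have hdiv : ∀ m : ℕ, 1 ≤ m → 0 ≤ δ / (m : ℝ) ∧ δ / (m : ℝ) ≤ 1 := by
    intro m hm
    have hm1 : (1 : ℝ) ≤ m := by exact_mod_cast hm
    refine ⟨by positivity, ?_⟩
    rw [div_le_one (by positivity)]
    linarith
  have hrr := rr_pos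
  have hl2 : 0 < Real.log 2 := Real.log_pos (by norm_num)
  refine ⟨δ, h0, hδ1, h1, hE, ?_, fun m b hm => ⟨?_, fun x => ?_⟩⟩
  · have h5 := (mkFamE hs hF hB (ι := Unit) (fun _ _ _ _ => True) id 0 1 1 (fun _ _ => δ) le_rfl one_pos
      (fun _ _ _ _ _ _ h => h) (fun _ _ _ _ => Iff.rfl) (fun _ _ => rfl) (fun _ _ => ⟨h0, hδ1⟩)
      (fun _ => continuous_const) (fun _ _ => by simpa using hE)).RL W hs () 0
    refine W.congr 0 (fun n _ => ?_) h5
    show (∃ k, E F k (s * n) ∧ True) ↔ _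
    simp
  · have h5 := (mkFamE hs hF hB (ι := ℤ) (fun i _ _ o => o ≡ i [ZMOD m])
      id 0 1 1 (fun _ _ => δ / (m : ℝ)) le_rfl one_pos
      (fun _ _ _ _ _ _ h => h) (fun i _ k o => Iff.rfl) (fun _ _ => rfl) (fun _ _ => hdiv m hm)
      (fun _ => continuous_const)
      (fun i _ => (h3 m i hm).1)).RL W hs b 0
    exact h5
  · have h5 := (mkFamE hs hF hB (ι := ℤ) (fun i τ _ o => (o : ℝ) ≤ τ ∧ o ≡ i [ZMOD m])
      id 0 (1 / Real.log (4 / 3)) (Real.log 2 * rr) (fun _ x => δ / (m : ℝ) * Phi x)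
      le_rfl (by positivity)
      (fun _ _ _ _ _ h1 h => ⟨h.1.trans h1, h.2⟩) (fun i τ k o => by
        rw [sub_zero]; rfl) (fun _ _ => rfl)
      (fun _ x => mul01 (hdiv m hm) (phi01 x))
      (fun _ => Phi_continuous.const_mul _)
      (fun i x => by
        refine Dn_iff (fun n _ => exists_congr fun k => ?_) (Pool.Agent.W26.HN.law_o hs F (h3 m i hm).2 x)
        rw [← bo_thr]
        tauto)).RL W hs b x
    refine W.congr 0 (fun n _ => ?_) h5
    rw [bo_thr]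
    exact Iff.rfl

/-- invariant sets as families of events -/
noncomputable def invFam {s : ℤ} (hs : s = 1 ∨ s = -1) {S : Set ℤ} (hS : Inv 1 S) {δ : ℝ} (h0 : 0 ≤ δ) (h1 : δ ≤ 1)
    (h : Dn (fun n : ℕ => s * (n : ℤ) ∈ S) δ) : Fam s 0 Unit where
  E := fun _ _ n => s * (n : ℤ) ∈ S
  sh := id
  w := 0
  α := 0
  σ := 1
  F := fun _ _ => δ
  hw := le_rfl
  hσ := one_pos
  mono := fun _ _ _ _ _ h => h
  same := by
    intro i τ j x y _ _ h1 _ _ hx
    have h2 : (Td 1)^[j] (s * (x : ℤ)) = (Td 1)^[j] (s * (y : ℤ)) := by rw [side_iter hs, side_iter hs, h1]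
    have hit : ∀ (j : ℕ) (z : ℤ), z ∈ S ↔ (Td 1)^[j] z ∈ S := by
      intro j
      induction j with
      | zero => intro z; rfl
      | succ j ih => intro z; rw [Function.iterate_succ_apply, ← ih]; exact hS z
    rw [hit j, ← h2, ← hit j]; exact hx
  two := by
    intro i τ n _
    have e : s * ((2 * n : ℕ) : ℤ) = 2 * (s * (n : ℤ)) := by push_cast; ring
    have e2 : Td 1 (2 * (s * (n : ℤ))) = s * (n : ℤ) := by
      unfold Td
      rw [if_pos (by omega)]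
      omega
    show s * ((2 * n : ℕ) : ℤ) ∈ S ↔ s * (n : ℤ) ∈ S
    rw [e, hS, e2]
  Fsh := fun _ _ => rfl
  F01 := fun _ _ => ⟨h0, h1⟩
  cont := fun _ => continuous_const
  law := fun _ _ => h

/-- frequency of invariant sets -/
theorem RL_inv {s : ℤ} (hs : s = 1 ∨ s = -1) {S : Set ℤ} (hS : Inv 1 S) {δ : ℝ} (h : Dn (fun n : ℕ => s * (n : ℤ) ∈ S) δ) :
    W.Fr (fun n : ℕ => s * (n : ℤ) ∈ S) δ := by
  have h0 : 0 ≤ δ := by
    refine ge_of_tendsto' h fun N => ?_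
    exact div_nonneg (Pool.Agent.H499R2.ND.cntn_nonneg _ _) (Nat.cast_nonneg _)
  have h1 : δ ≤ 1 := by
    refine le_of_tendsto' h fun N => ?_
    rcases Nat.eq_zero_or_pos N with h' | h'
    · subst h'; simp
    · rw [div_le_one (by exact_mod_cast h')]
      exact Pool.Agent.H499R2.ND.cnt_le _ N
  exact (invFam hs hS h0 h1 h).RL W hs () 0

/-- the law of large numbers, general form -/
theorem lln2 {P : ℕ → Prop} {f : ℕ → ℕ → Prop} {g : ℕ → ℕ → ℝ} {α σ δ η : ℝ} (hσ : 0 < σ) (hδ0 : 0 ≤ δ)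
    (hδ1 : δ ≤ 1) (hη : 0 < η)
    (h1 : ∀ x, W.Fr (fun n => ∃ k, f k n ∧ g k n ≤ thr α σ x (Real.log n)) (δ * Phi x))
    (h2 : W.Fr P δ) (hP : ∀ n, (∃ k, f k n) → P n) :
    W.Fr (fun n => ∃ k, f k n ∧ |g k n - α * Real.log n| ≤ η * Real.log n) δ := by
  have t1 : Tendsto Phi atTop (𝓝 1) := by
    have := ProbabilityTheory.tendsto_cdf_atTop (ProbabilityTheory.gaussianReal 0 1)
    refine this.congr fun x => ?_
    rw [phi_cdf]
  have t2 : Tendsto Phi atBot (𝓝 0) := by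
    have := ProbabilityTheory.tendsto_cdf_atBot (ProbabilityTheory.gaussianReal 0 1)
    refine this.congr fun x => ?_
    rw [phi_cdf]
  refine W.squeeze fun ζ hζ => ?_
  obtain ⟨x1, hx1⟩ := eventually_atTop.1 (t1.eventually_const_lt (show 1 - ζ / 2 < 1 by linarith))
  obtain ⟨x2, hx2⟩ := eventually_atBot.1 (t2.eventually_lt_const (show (0 : ℝ) < ζ / 2 by linarith))
  set X : ℝ := max (max x1 (-x2)) 1 with hX
  have hX0 : 0 < X := lt_of_lt_of_le one_pos (le_max_right _ _)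
  have a1 := hx1 X ((le_max_left _ _).trans (le_max_left _ _))
  have a2 := hx2 (-X) (by
    have : -x2 ≤ X := (le_max_right _ _).trans (le_max_left _ _)
    linarith)
  have hmono : ∀ n : ℕ, (∃ k, f k n ∧ g k n ≤ thr α σ (-X) (Real.log n)) →
      (∃ k, f k n ∧ g k n ≤ thr α σ X (Real.log n)) := by
    rintro n ⟨k, hk, h3⟩
    refine ⟨k, hk, h3.trans ?_⟩
    unfold thr
    have : 0 ≤ σ * Real.sqrt (Real.log n) := by positivity
    nlinarith
  have hd := W.diff (h1 (-X)) (h1 X) hmono (R := fun n => (∃ k, f k n ∧ g k n ≤ thr α σ X (Real.log n)) ∧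
    ¬ (∃ k, f k n ∧ g k n ≤ thr α σ (-X) (Real.log n))) (fun _ => Iff.rfl)
  have tl : Tendsto (fun n : ℕ => Real.sqrt (Real.log n)) atTop atTop :=
    Real.tendsto_sqrt_atTop.comp (Real.tendsto_log_atTop.comp tendsto_natCast_atTop_atTop)
  obtain ⟨n0, hn0⟩ := eventually_atTop.1 (tl.eventually_ge_atTop (X * σ / η))
  refine ⟨_, _, _, δ, n0, fun n hn h => ?_, fun n _ h => ?_, hd, h2, ?_, le_rfl, ?_⟩
  · obtain ⟨⟨k, hk, h3⟩, h4⟩ := h
    refine ⟨k, hk, ?_⟩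
    have h5 : ¬ g k n ≤ thr α σ (-X) (Real.log n) := fun h6 => h4 ⟨k, hk, h6⟩
    push Not at h5
    have h6 := hn0 n hn
    rw [div_le_iff₀ hη] at h6
    have h7 : 0 ≤ Real.log n := Real.log_natCast_nonneg n
    have h8 := Real.sq_sqrt h7
    have h9 := Real.sqrt_nonneg (Real.log n)
    have h10 : X * (σ * Real.sqrt (Real.log n)) ≤ η * Real.log n := by
      have h11 := mul_le_mul_of_nonneg_right h6 h9
      nlinarith
    unfold thr at h3 h5
    rw [abs_le]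
    constructor <;> linarith
  · obtain ⟨k, hk, _⟩ := h
    exact hP n ⟨k, hk⟩
  · have b1 := (phi01 X).2
    have b2 := (phi01 (-X)).1
    nlinarith
  · have b1 := (phi01 X).2
    have b2 := (phi01 (-X)).1
    nlinarith

end Pool.Agent.Run7.h145.QL
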