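import Pool.Agent.Run7.h145.QL.F

/-! Frequencies relative to a family of finite point sets : rules, and the law of every family
of events. -/

set_option autoImplicit false

namespace Pool.Agent.Run7.h145.QL

open Finset Filter Topology
open Pool.Agent.H499R2.ND (Dn cnt)
open Pool.Agent.H499R2.CO (Tz)
open Pool.Agent.Y964.LW (SameR oc)
open scoped Classical

/-- A family of finite families of positive integers: `ok j N I ν M` says that `ν x`, `x ∈ I`, is a member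
of the family `j` of size `N` with `M` the total weight. `small`: few members are small; `main`: functions
constant on coalescing trajectories above a height with small partial sums have small sums. -/
structure Target where
  J : Type
  X : J → Type
  ok : (j : J) → ℕ → Finset (X j) → (X j → ℕ) → ℝ → Prop
  E : J → ℕ
  pos : ∀ {j N I ν M}, ok j N I ν M → ∀ x ∈ I, 1 ≤ ν x ∧ ν x ≤ E j * N
  card : ∀ {j N I ν M}, ok j N I ν M → (#I : ℝ) ≤ M
  small : ∀ (j : J) (ε : ℝ), 0 < ε → ∃ η : ℝ, 0 < η ∧ ∃ N₀ : ℕ, ∀ N : ℕ, N₀ ≤ N → ∀ I ν M, ok j N I ν M →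
    (#{x ∈ I | (ν x : ℝ) ≤ η * N} : ℝ) ≤ ε * M
  main : ∀ (s : ℤ), (s = 1 ∨ s = -1) → ∀ (j : J) (ε : ℝ), 0 < ε → ∃ μ : ℝ, 0 < μ ∧ ∀ R0 : ℕ, ∃ N₀ : ℕ,
    ∀ N : ℕ, N₀ ≤ N → ∀ I ν M, ok j N I ν M → ∀ f ∈ SameR R0 s,
    (∀ y : ℕ, y ≤ E j * N → |∑ m ∈ Icc 1 y, f ((m : ℕ) : ℤ)| ≤ μ * N) →
    |∑ x ∈ I, f ((ν x : ℕ) : ℤ)| ≤ ε * M

/-- the property `P` has the frequency `l` -/
def Target.Fr (W : Target) (P : ℕ → Prop) (l : ℝ) : Prop := ∀ (j : W.J) (ε : ℝ), 0 < ε → ∃ N₀ : ℕ, ∀ N : ℕ, N₀ ≤ N →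
  ∀ I ν M, W.ok j N I ν M → |(#{x ∈ I | P (ν x)} : ℝ) - l * #I| ≤ ε * M

variable (W : Target)

theorem Target.M0 {j : W.J} {N : ℕ} {I : Finset (W.X j)} {ν : W.X j → ℕ} {M : ℝ} (h : W.ok j N I ν M) : 0 ≤ M :=
  (Nat.cast_nonneg _).trans (W.card h)

/-- few members are below a constant -/
theorem Target.low (W : Target) (n0 : ℕ) (j : W.J) {ε : ℝ} (hε : 0 < ε) : ∃ N₀ : ℕ, ∀ N : ℕ, N₀ ≤ N →
    ∀ I ν M, W.ok j N I ν M → (#{x ∈ I | ν x < n0} : ℝ) ≤ ε * M := by
  obtain ⟨η, hη, N1, h1⟩ := W.small j ε hε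
  refine ⟨max N1 ⌈n0 / η⌉₊, fun N hN I ν M hok => ?_⟩
  refine le_trans ?_ (h1 N ((le_max_left _ _).trans hN) I ν M hok)
  apply Nat.cast_le.2
  apply card_le_card
  intro x hx
  rw [mem_filter] at hx ⊢
  refine ⟨hx.1, ?_⟩
  have h2 : (n0 : ℝ) / η ≤ N := (Nat.le_ceil _).trans (by exact_mod_cast (le_max_right _ _).trans hN)
  rw [div_le_iff₀ hη] at h2
  have h3 : (ν x : ℝ) ≤ n0 := by exact_mod_cast hx.2.le
  linarith

/-- change of the property: squeeze by approximations which hold for all large `n` -/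
theorem Target.squeeze {Q : ℕ → Prop} {l : ℝ} (H : ∀ η : ℝ, 0 < η → ∃ (P R : ℕ → Prop) (l1 l2 : ℝ) (n0 : ℕ),
    (∀ n, n0 ≤ n → P n → Q n) ∧ (∀ n, n0 ≤ n → Q n → R n) ∧ W.Fr P l1 ∧ W.Fr R l2 ∧ l1 ≤ l ∧ l ≤ l2 ∧ l2 - l1 ≤ η) :
    W.Fr Q l := by
  intro j ε hε
  obtain ⟨P, R, l1, l2, n0, h1, h2, h3, h4, h5, h6, h7⟩ := H (ε / 4) (by positivity)
  obtain ⟨N1, k1⟩ := h3 j (ε / 4) (by positivity)
  obtain ⟨N2, k2⟩ := h4 j (ε / 4) (by positivity)
  obtain ⟨N3, k3⟩ := W.low n0 j (show 0 < ε / 4 by positivity)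
  refine ⟨max N1 (max N2 N3), fun N hN I ν M hok => ?_⟩
  have hN1 : N1 ≤ N := (le_max_left _ _).trans hN
  have hN2 : N2 ≤ N := ((le_max_left _ _).trans (le_max_right _ _)).trans hN
  have hN3 : N3 ≤ N := ((le_max_right _ _).trans (le_max_right _ _)).trans hN
  have f1 := k1 N hN1 I ν M hok
  have f2 := k2 N hN2 I ν M hok
  have f3 := k3 N hN3 I ν M hok
  have hM := W.M0 hok
  have hc := W.card hok
  have hc0 : (0 : ℝ) ≤ #I := Nat.cast_nonneg _
  have g1 : (#{x ∈ I | P (ν x)} : ℝ) ≤ #{x ∈ I | Q (ν x)} + #{x ∈ I | ν x < n0} := by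
    have : #{x ∈ I | P (ν x)} ≤ #{x ∈ I | Q (ν x)} + #{x ∈ I | ν x < n0} := by
      refine (card_le_card ?_).trans (card_union_le _ _)
      intro x hx
      rw [mem_filter] at hx
      rw [mem_union, mem_filter, mem_filter]
      by_cases hn : ν x < n0
      · exact Or.inr ⟨hx.1, hn⟩
      · exact Or.inl ⟨hx.1, h1 _ (by omega) hx.2⟩
    exact_mod_cast this
  have g2 : (#{x ∈ I | Q (ν x)} : ℝ) ≤ #{x ∈ I | R (ν x)} + #{x ∈ I | ν x < n0} := by
    have : #{x ∈ I | Q (ν x)} ≤ #{x ∈ I | R (ν x)} + #{x ∈ I | ν x < n0} := by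
      refine (card_le_card ?_).trans (card_union_le _ _)
      intro x hx
      rw [mem_filter] at hx
      rw [mem_union, mem_filter, mem_filter]
      by_cases hn : ν x < n0
      · exact Or.inr ⟨hx.1, hn⟩
      · exact Or.inl ⟨hx.1, h2 _ (by omega) hx.2⟩
    exact_mod_cast this
  obtain ⟨u1, u2⟩ := abs_le.1 f1
  obtain ⟨u3, u4⟩ := abs_le.1 f2
  have e1 : (l - l1) * #I ≤ ε / 4 * M := by
    calc (l - l1) * #I ≤ (ε / 4) * #I := mul_le_mul_of_nonneg_right (by linarith) hc0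
      _ ≤ ε / 4 * M := mul_le_mul_of_nonneg_left hc (by positivity)
  have e2 : (l2 - l) * #I ≤ ε / 4 * M := by
    calc (l2 - l) * #I ≤ (ε / 4) * #I := mul_le_mul_of_nonneg_right (by linarith) hc0
      _ ≤ ε / 4 * M := mul_le_mul_of_nonneg_left hc (by positivity)
  rw [abs_le]
  have hεM : 0 ≤ ε * M := mul_nonneg hε.le hM
  constructor <;> nlinarith

theorem Target.congr {P Q : ℕ → Prop} {l : ℝ} (n0 : ℕ) (h : ∀ n, n0 ≤ n → (P n ↔ Q n)) (H : W.Fr P l) : W.Fr Q l :=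
  W.squeeze fun η hη => ⟨P, P, l, l, n0, fun n hn => (h n hn).1, fun n hn => (h n hn).2, H, H, le_rfl, le_rfl, by
    linarith⟩

theorem Target.or {P Q R : ℕ → Prop} {l l' : ℝ} (hP : W.Fr P l) (hQ : W.Fr Q l') (hd : ∀ n, P n → ¬ Q n)
    (hR : ∀ n, R n ↔ P n ∨ Q n) : W.Fr R (l + l') := by
  intro j ε hε
  obtain ⟨N1, k1⟩ := hP j (ε / 2) (by positivity)
  obtain ⟨N2, k2⟩ := hQ j (ε / 2) (by positivity)
  refine ⟨max N1 N2, fun N hN I ν M hok => ?_⟩
  have f1 := k1 N ((le_max_left _ _).trans hN) I ν M hok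
  have f2 := k2 N ((le_max_right _ _).trans hN) I ν M hok
  have e : (#{x ∈ I | R (ν x)} : ℝ) = #{x ∈ I | P (ν x)} + #{x ∈ I | Q (ν x)} := by
    have : #{x ∈ I | R (ν x)} = #{x ∈ I | P (ν x)} + #{x ∈ I | Q (ν x)} := by
      rw [← card_union_of_disjoint]
      · congr 1
        ext x
        rw [mem_union, mem_filter, mem_filter, mem_filter, hR]
        tauto
      · rw [disjoint_left]
        intro x h1 h2
        rw [mem_filter] at h1 h2
        exact hd _ h1.2 h2.2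
    exact_mod_cast this
  rw [e]
  rw [abs_le] at f1 f2 ⊢
  constructor <;> linarith [f1.1, f1.2, f2.1, f2.2]

theorem Target.diff {P Q R : ℕ → Prop} {l l' : ℝ} (hP : W.Fr P l) (hQ : W.Fr Q l') (hd : ∀ n, P n → Q n)
    (hR : ∀ n, R n ↔ Q n ∧ ¬ P n) : W.Fr R (l' - l) := by
  intro j ε hε
  obtain ⟨N1, k1⟩ := hP j (ε / 2) (by positivity)
  obtain ⟨N2, k2⟩ := hQ j (ε / 2) (by positivity)
  refine ⟨max N1 N2, fun N hN I ν M hok => ?_⟩
  have f1 := k1 N ((le_max_left _ _).trans hN) I ν M hok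
  have f2 := k2 N ((le_max_right _ _).trans hN) I ν M hok
  have e : (#{x ∈ I | Q (ν x)} : ℝ) = #{x ∈ I | P (ν x)} + #{x ∈ I | R (ν x)} := by
    have : #{x ∈ I | Q (ν x)} = #{x ∈ I | P (ν x)} + #{x ∈ I | R (ν x)} := by
      rw [← card_union_of_disjoint]
      · congr 1
        ext x
        rw [mem_union, mem_filter, mem_filter, mem_filter, hR]
        have := hd (ν x)
        tauto
      · rw [disjoint_left]
        intro x h1 h2
        rw [mem_filter] at h1 h2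
        exact ((hR _).1 h2.2).2 h1.2
    exact_mod_cast this
  rw [e] at f2
  rw [abs_le] at f1 f2 ⊢
  constructor <;> linarith [f1.1, f1.2, f2.1, f2.2]

theorem Target.true {R : ℕ → Prop} (hR : ∀ n, R n) : W.Fr R 1 := by
  intro j ε hε
  refine ⟨0, fun N _ I ν M hok => ?_⟩
  have : #{x ∈ I | R (ν x)} = #I := by
    congr 1
    rw [filter_true_of_mem]
    exact fun x _ => hR _
  rw [this, one_mul, sub_self, abs_zero]
  exact mul_nonneg hε.le (W.M0 hok)

theorem Target.not {P R : ℕ → Prop} {l : ℝ} (hP : W.Fr P l) (hR : ∀ n, R n ↔ ¬ P n) : W.Fr R (1 - l) :=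
  W.diff hP (W.true (R := fun _ => True) (fun _ => trivial)) (fun _ _ => trivial) (fun n => by
    rw [hR n, true_and])

/-- THE LAW at fixed thresholds -/
theorem Target.fix (W : Target) {s : ℤ} (hs : s = 1 ∨ s = -1) {R : ℕ} {ι : Type} (A : Fam s R ι) (i : ι) (x : ℝ)
    (j : W.J) {ε : ℝ} (hε : 0 < ε) : ∃ κ : ℝ, 0 < κ ∧ ∃ N₀ : ℕ, ∀ N : ℕ, N₀ ≤ N → ∀ τ : ℝ,
    |τ - thr A.α A.σ x (Real.log N)| ≤ κ * Real.sqrt (Real.log N) → ∀ I ν M, W.ok j N I ν M →
    |(#{x ∈ I | A.E i τ (ν x)} : ℝ) - A.F i x * #I| ≤ ε * M := by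
  obtain ⟨μ, hμ, h1⟩ := W.main s hs j ε hε
  obtain ⟨N1, hmain⟩ := h1 R
  obtain ⟨κ, hκ, h2⟩ := fix_law (P := A.E i) (A.mono _) A.hσ (A.cont _) (A.law _) x hμ (W.E j)
  obtain ⟨N2, h3⟩ := eventually_atTop.1 h2
  refine ⟨κ, hκ, max N1 N2, fun N hN τ hτ I ν M hok => ?_⟩
  obtain ⟨F0, F1⟩ := A.F01 i x
  have hsame : bf (A.E i τ) (A.F i x) ∈ SameR R s := bf_same hs F0 F1 (A.same i τ)
  have h4 := hmain N ((le_max_left _ _).trans hN) I ν M hok _ hsame (fun y hy => by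
    rw [bf_sum]
    exact h3 N ((le_max_right _ _).trans hN) τ hτ y hy)
  refine le_trans (le_of_eq ?_) h4
  congr 1
  unfold bf
  rw [sum_sub_distrib, sum_const, nsmul_eq_mul, card_filter]
  push_cast
  rw [mul_comm (#I : ℝ)]
  congr 1
  apply sum_congr rfl
  intro x hx
  have h5 := (W.pos hok x hx).1
  have h6 : (0 : ℤ) < ((ν x : ℕ) : ℤ) := by exact_mod_cast h5
  simp only [Int.toNat_natCast, h6, true_and]

/-- THE LAW OF A FAMILY OF EVENTS -/
theorem Target.fam (W : Target) {s : ℤ} (hs : s = 1 ∨ s = -1) {R : ℕ} {ι : Type} (A : Fam s R ι) (i : ι) (x : ℝ) :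
    W.Fr (fun n => A.E i (thr A.α A.σ x (Real.log n)) n) (A.F i x) := by
  intro j ε hε
  obtain ⟨κ, hκ, N1, h1⟩ := W.fix hs A i x j (show 0 < ε / 2 by positivity)
  obtain ⟨η, hη, N2, h2⟩ := W.small j (ε / 2) (by positivity)
  -- comparison of the thresholds
  set D : ℝ := |Real.log η| + |Real.log (W.E j + 1)| with hD
  have hD0 : 0 ≤ D := by positivity
  have tl : Tendsto (fun N : ℕ => Real.log N) atTop atTop :=
    Real.tendsto_log_atTop.comp tendsto_natCast_atTop_atTop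
  have ts : Tendsto (fun N : ℕ => κ * Real.sqrt (Real.log N)) atTop atTop :=
    (Real.tendsto_sqrt_atTop.comp tl).const_mul_atTop hκ
  set C : ℝ := |A.α| * D + |x| * A.σ * D with hC
  obtain ⟨N3, h3⟩ := eventually_atTop.1 ((ts.eventually_ge_atTop C).and (tl.eventually_ge_atTop 1))
  refine ⟨max (max N1 N2) (max N3 1), fun N hN I ν M hok => ?_⟩
  have hN1 : N1 ≤ N := ((le_max_left _ _).trans (le_max_left _ _)).trans hN
  have hN2 : N2 ≤ N := ((le_max_right _ _).trans (le_max_left _ _)).trans hN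
  have hN3 : N3 ≤ N := ((le_max_left _ _).trans (le_max_right _ _)).trans hN
  have hN4 : 1 ≤ N := ((le_max_right _ _).trans (le_max_right _ _)).trans hN
  have hN0 : (0 : ℝ) < N := by exact_mod_cast hN4
  obtain ⟨g1, g2⟩ := h3 N hN3
  set L := Real.log N with hL
  have hL0 : 0 < L := by linarith
  have hvar : ∀ n : ℕ, η * N < n → n ≤ W.E j * N → |thr A.α A.σ x (Real.log n) - thr A.α A.σ x L| ≤
      κ * Real.sqrt L := by
    intro n ha hb
    have hn0 : (0 : ℝ) < n := lt_of_le_of_lt (by positivity) ha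
    have hn1 : 1 ≤ n := by exact_mod_cast hn0
    have b1 : Real.log η + L ≤ Real.log n := by
      rw [hL, ← Real.log_mul hη.ne' hN0.ne']
      exact Real.log_le_log (by positivity) ha.le
    have b2 : Real.log n ≤ Real.log (W.E j + 1) + L := by
      rw [hL, ← Real.log_mul (by positivity) hN0.ne']
      apply Real.log_le_log hn0
      have : (n : ℝ) ≤ W.E j * N := by exact_mod_cast hb
      nlinarith
    have b3 := neg_abs_le (Real.log η)
    have b4 := le_abs_self (Real.log ((W.E j : ℝ) + 1))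
    have b5 := abs_nonneg (Real.log η)
    have b6 := abs_nonneg (Real.log ((W.E j : ℝ) + 1))
    have b7 : |Real.log n - L| ≤ D := by
      rw [abs_le]
      constructor <;> linarith
    have b8 : 0 ≤ Real.log n := Real.log_natCast_nonneg n
    have b9 : |Real.sqrt (Real.log n) - Real.sqrt L| ≤ D := by
      have c1 : (Real.sqrt (Real.log n) - Real.sqrt L) * (Real.sqrt (Real.log n) + Real.sqrt L) = Real.log n - L := by
        have c2 := Real.sq_sqrt b8
        have c3 := Real.sq_sqrt hL0.le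
        nlinarith
      have c4 : 1 ≤ Real.sqrt L := Real.one_le_sqrt.2 g2
      have c5 : 0 ≤ Real.sqrt (Real.log n) := Real.sqrt_nonneg _
      have c6 : |Real.sqrt (Real.log n) - Real.sqrt L| * (Real.sqrt (Real.log n) + Real.sqrt L) ≤ D := by
        rw [← abs_of_nonneg (by positivity : 0 ≤ Real.sqrt (Real.log n) + Real.sqrt L), ← abs_mul, c1]
        exact b7
      have c7 := abs_nonneg (Real.sqrt (Real.log n) - Real.sqrt L)
      nlinarith
    have e : thr A.α A.σ x (Real.log n) - thr A.α A.σ x L =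
        A.α * (Real.log n - L) + x * (A.σ * (Real.sqrt (Real.log n) - Real.sqrt L)) := by
      unfold thr; ring
    rw [e]
    refine (abs_add_le _ _).trans ?_
    have a1 : |A.α * (Real.log n - L)| ≤ |A.α| * D := by
      rw [abs_mul]; exact mul_le_mul_of_nonneg_left b7 (abs_nonneg _)
    have a2 : |x * (A.σ * (Real.sqrt (Real.log n) - Real.sqrt L))| ≤ |x| * A.σ * D := by
      rw [abs_mul, abs_mul, abs_of_pos A.hσ, mul_assoc]
      exact mul_le_mul_of_nonneg_left (mul_le_mul_of_nonneg_left b9 A.hσ.le) (abs_nonneg _)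
    linarith
  have k1 := h1 N hN1 (thr A.α A.σ x L + κ * Real.sqrt L) (by
    rw [add_sub_cancel_left, abs_of_nonneg (by positivity)]) I ν M hok
  have k2 := h1 N hN1 (thr A.α A.σ x L - κ * Real.sqrt L) (by
    rw [sub_sub_cancel_left, abs_neg, abs_of_nonneg (by positivity)]) I ν M hok
  have k3 := h2 N hN2 I ν M hok
  have m1 : (#{y ∈ I | A.E i (thr A.α A.σ x (Real.log (ν y))) (ν y)} : ℝ) ≤
      #{y ∈ I | A.E i (thr A.α A.σ x L + κ * Real.sqrt L) (ν y)} + #{y ∈ I | (ν y : ℝ) ≤ η * N} := by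
    have : #{y ∈ I | A.E i (thr A.α A.σ x (Real.log (ν y))) (ν y)} ≤
      #{y ∈ I | A.E i (thr A.α A.σ x L + κ * Real.sqrt L) (ν y)} + #{y ∈ I | (ν y : ℝ) ≤ η * N} := by
      refine (card_le_card ?_).trans (card_union_le _ _)
      intro y hy
      rw [mem_filter] at hy
      rw [mem_union, mem_filter, mem_filter]
      by_cases hsm : (ν y : ℝ) ≤ η * N
      · exact Or.inr ⟨hy.1, hsm⟩
      · push Not at hsm
        refine Or.inl ⟨hy.1, A.mono _ _ _ _ ?_ hy.2⟩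
        have := (abs_le.1 (hvar _ hsm (W.pos hok y hy.1).2)).2
        linarith
    exact_mod_cast this
  have m2 : (#{y ∈ I | A.E i (thr A.α A.σ x L - κ * Real.sqrt L) (ν y)} : ℝ) ≤
      #{y ∈ I | A.E i (thr A.α A.σ x (Real.log (ν y))) (ν y)} + #{y ∈ I | (ν y : ℝ) ≤ η * N} := by
    have : #{y ∈ I | A.E i (thr A.α A.σ x L - κ * Real.sqrt L) (ν y)} ≤
      #{y ∈ I | A.E i (thr A.α A.σ x (Real.log (ν y))) (ν y)} + #{y ∈ I | (ν y : ℝ) ≤ η * N} := by
      refine (card_le_card ?_).trans (card_union_le _ _)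
      intro y hy
      rw [mem_filter] at hy
      rw [mem_union, mem_filter, mem_filter]
      by_cases hsm : (ν y : ℝ) ≤ η * N
      · exact Or.inr ⟨hy.1, hsm⟩
      · push Not at hsm
        refine Or.inl ⟨hy.1, A.mono _ _ _ _ ?_ hy.2⟩
        have := (abs_le.1 (hvar _ hsm (W.pos hok y hy.1).2)).1
        linarith
    exact_mod_cast this
  rw [abs_le] at k1 k2 ⊢
  constructor <;> linarith [k1.1, k1.2, k2.1, k2.2]

end Pool.Agent.Run7.h145.QL
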