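import Pool.Agent.Run7.h145.QL.B
import Pool.Agent.Run7.h145.QL.T

/-! The target: positive values of quadratic polynomials whose quadratic part has rank at least two. -/

set_option autoImplicit false

namespace Pool.Agent.Run7.h145.QL

open Finset Filter Topology Pool.Agent.Run7.h145.QP
open Pool.Agent.Y964.LW (SameR oc)
open scoped Classical

/-- a quadratic part of rank at least two and a bound for the lower coefficients -/
structure QJ where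
  k : ℕ
  A : Fin k → Fin k → ℤ
  B : ℝ
  hA : ∃ p q r t : Fin k, p ≠ q ∧ r ≠ t ∧ Sy A p r * Sy A q t - Sy A p t * Sy A q r ≠ 0
  hB : 0 < B

/-- bounds for the coefficients and the box -/
def Bnd {k : ℕ} (B : ℝ) (R : ℕ) (l : Fin k → ℤ) (c : ℤ) (a b : Fin k → ℤ) : Prop :=
  (∀ i, |(l i : ℝ)| ≤ B * R) ∧ |(c : ℝ)| ≤ B * R ^ 2 ∧ (∀ i, |a i| ≤ R) ∧ (∀ i, |b i| ≤ R)

theorem ex_E (j : QJ) : ∃ E : ℕ, (∀ R : ℕ, ∀ (l : Fin j.k → ℤ) (c : ℤ) (a b : Fin j.k → ℤ), Bnd j.B R l c a b →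
      ∀ x ∈ Fintype.piFinset (fun i => Ioc (a i) (b i)), |Pol j.A l c x| ≤ E * (R : ℤ) ^ 2) ∧
    ∀ s : ℤ, (s = 1 ∨ s = -1) → ∀ ε : ℝ, 0 < ε → ∃ μ : ℝ, 0 < μ ∧ ∀ R0 : ℕ, ∃ R₁ : ℕ, ∀ R : ℕ, R₁ ≤ R →
      ∀ f ∈ SameR R0 s, (∀ y : ℕ, y ≤ E * R ^ 2 → |∑ m ∈ Icc 1 y, f ((m : ℕ) : ℤ)| ≤ μ * ((R ^ 2 : ℕ) : ℝ)) →
      ∀ (l : Fin j.k → ℤ) (c : ℤ) (a b : Fin j.k → ℤ), Bnd j.B R l c a b → ∀ u v : ℤ, 0 ≤ u →
      |∑ x ∈ Fintype.piFinset (fun i => Ioc (a i) (b i)), rs u v f (Pol j.A l c x)| ≤ ε * R ^ j.k := by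
  obtain ⟨p, q, r, t, hpq, hrt, hdet⟩ := j.hA
  obtain ⟨E1, h1, g1⟩ := main_q (s := 1) (by norm_num) (by norm_num) j.A hpq hrt hdet j.hB
  obtain ⟨E2, h2, g2⟩ := main_q (s := -1) (by norm_num) (by norm_num) j.A hpq hrt hdet j.hB
  refine ⟨E1 + E2, fun R l c a b hb x hx => ?_, fun s hs ε hε => ?_⟩
  · refine (h1 R l c a b hb.1 hb.2.1 hb.2.2.1 hb.2.2.2 x hx).trans ?_
    apply mul_le_mul_of_nonneg_right _ (by positivity)
    push_cast
    have : (0 : ℤ) ≤ E2 := Int.natCast_nonneg _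
    omega
  · rcases hs with rfl | rfl
    · obtain ⟨μ, hμ, g⟩ := g1 ε hε
      refine ⟨μ, hμ, fun R0 => ?_⟩
      obtain ⟨R₁, g'⟩ := g R0
      refine ⟨R₁, fun R hR f hf hav l c a b hb u v hu => ?_⟩
      have := g' R hR f hf (fun y hy => hav y (hy.trans (Nat.mul_le_mul_right _ (by omega)))) l c a b
        hb.1 hb.2.1 hb.2.2.1 hb.2.2.2 u v hu
      rwa [Fintype.card_fin] at this
    · obtain ⟨μ, hμ, g⟩ := g2 ε hε
      refine ⟨μ, hμ, fun R0 => ?_⟩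
      obtain ⟨R₁, g'⟩ := g R0
      refine ⟨R₁, fun R hR f hf hav l c a b hb u v hu => ?_⟩
      have := g' R hR f hf (fun y hy => hav y (hy.trans (Nat.mul_le_mul_right _ (by omega)))) l c a b
        hb.1 hb.2.1 hb.2.2.1 hb.2.2.2 u v hu
      rwa [Fintype.card_fin] at this

/-- the size of the values -/
noncomputable def EE (j : QJ) : ℕ := Classical.choose (ex_E j)

theorem EE_spec (j : QJ) : (∀ R : ℕ, ∀ (l : Fin j.k → ℤ) (c : ℤ) (a b : Fin j.k → ℤ), Bnd j.B R l c a b →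
      ∀ x ∈ Fintype.piFinset (fun i => Ioc (a i) (b i)), |Pol j.A l c x| ≤ EE j * (R : ℤ) ^ 2) ∧
    ∀ s : ℤ, (s = 1 ∨ s = -1) → ∀ ε : ℝ, 0 < ε → ∃ μ : ℝ, 0 < μ ∧ ∀ R0 : ℕ, ∃ R₁ : ℕ, ∀ R : ℕ, R₁ ≤ R →
      ∀ f ∈ SameR R0 s, (∀ y : ℕ, y ≤ EE j * R ^ 2 → |∑ m ∈ Icc 1 y, f ((m : ℕ) : ℤ)| ≤ μ * ((R ^ 2 : ℕ) : ℝ)) →
      ∀ (l : Fin j.k → ℤ) (c : ℤ) (a b : Fin j.k → ℤ), Bnd j.B R l c a b → ∀ u v : ℤ, 0 ≤ u →
      |∑ x ∈ Fintype.piFinset (fun i => Ioc (a i) (b i)), rs u v f (Pol j.A l c x)| ≤ ε * R ^ j.k :=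
  Classical.choose_spec (ex_E j)

/-- the points with positive values in `(u, v]` -/
noncomputable def Pts {k : ℕ} (A : Fin k → Fin k → ℤ) (l : Fin k → ℤ) (c : ℤ) (a b : Fin k → ℤ) (u v : ℤ) :
    Finset (Fin k → ℤ) :=
  (Fintype.piFinset (fun i => Ioc (a i) (b i))).filter (fun x => (u < Pol A l c x ∧ Pol A l c x ≤ v) ∧ 0 < Pol A l c x)

def Ok (j : QJ) (N : ℕ) (I : Finset (Fin j.k → ℤ)) (ν : (Fin j.k → ℤ) → ℕ) (M : ℝ) : Prop :=
  ∃ (R : ℕ) (l : Fin j.k → ℤ) (c : ℤ) (a b : Fin j.k → ℤ) (u v : ℤ), N = R ^ 2 ∧ Bnd j.B R l c a b ∧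
    I = Pts j.A l c a b u v ∧ (ν = fun x => (Pol j.A l c x).toNat) ∧ M = (2 * (R : ℝ)) ^ j.k

theorem le_of_sq {R₁ R : ℕ} (h : R₁ ^ 2 ≤ R ^ 2) : R₁ ≤ R := by
  by_contra hcon
  push Not at hcon
  have : R ^ 2 < R₁ ^ 2 := Nat.pow_lt_pow_left hcon (by norm_num)
  omega

/-- THE TARGET -/
noncomputable def QV : Target where
  J := QJ
  X := fun j => Fin j.k → ℤ
  ok := Ok
  E := EE
  pos := by
    rintro j N I ν M ⟨R, l, c, a, b, u, v, rfl, hb, rfl, rfl, rfl⟩ x hx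
    unfold Pts at hx
    rw [mem_filter] at hx
    have h1 := (EE_spec j).1 R l c a b hb x hx.1
    have h2 := le_abs_self (Pol j.A l c x)
    have h3 := hx.2.2
    constructor
    · show 1 ≤ (Pol j.A l c x).toNat
      omega
    · show (Pol j.A l c x).toNat ≤ EE j * R ^ 2
      have h4 : (((Pol j.A l c x).toNat : ℕ) : ℤ) ≤ ((EE j * R ^ 2 : ℕ) : ℤ) := by
        rw [Int.toNat_of_nonneg h3.le]; push_cast; linarith
      exact_mod_cast h4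
  card := by
    rintro j N I ν M ⟨R, l, c, a, b, u, v, rfl, hb, rfl, rfl, rfl⟩
    have h1 : #(Pts j.A l c a b u v) ≤ #(Fintype.piFinset (fun i => Ioc (a i) (b i))) := card_filter_le _ _
    have h2 : (#(Fintype.piFinset (fun i => Ioc (a i) (b i))) : ℝ) ≤ (2 * (R : ℝ)) ^ j.k := by
      rw [Fintype.card_piFinset]
      push_cast
      calc ∏ i : Fin j.k, ((#(Ioc (a i) (b i)) : ℕ) : ℝ) ≤ ∏ _i : Fin j.k, (2 * (R : ℝ)) := by
            apply prod_le_prod (fun i _ => Nat.cast_nonneg _)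
            intro i _
            rw [Int.card_Ioc]
            have h3 := abs_le.1 (hb.2.2.1 i)
            have h4 := abs_le.1 (hb.2.2.2 i)
            have h : (b i - a i).toNat ≤ 2 * R := by omega
            exact_mod_cast h
        _ = _ := by rw [prod_const, card_univ, Fintype.card_fin]
    have h3 : (#(Pts j.A l c a b u v) : ℝ) ≤ #(Fintype.piFinset (fun i => Ioc (a i) (b i))) := by exact_mod_cast h1
    exact h3.trans h2
  small := by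
    intro j ε hε
    obtain ⟨p, q, r, t, hpq, hrt, hdet⟩ := j.hA
    obtain ⟨η, hη, R₁, h1⟩ := few_small j.A hpq hrt hdet j.hB hε
    refine ⟨η, hη, R₁ ^ 2, ?_⟩
    rintro N hN I ν M ⟨R, l, c, a, b, u, v, rfl, hb, rfl, rfl, rfl⟩
    have h2 := h1 R (le_of_sq hN) l c a b hb.1 hb.2.1 hb.2.2.1 hb.2.2.2 ⌊η * (R : ℝ) ^ 2⌋
    rw [Fintype.card_fin] at h2
    have h3 : ε * (R : ℝ) ^ j.k ≤ ε * (2 * (R : ℝ)) ^ j.k := by
      apply mul_le_mul_of_nonneg_left _ hε.le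
      apply pow_le_pow_left₀ (by positivity)
      have : (0 : ℝ) ≤ R := Nat.cast_nonneg _
      linarith
    refine le_trans ?_ (h2.trans h3)
    apply Nat.cast_le.2
    apply card_le_card
    intro x hx
    rw [mem_filter] at hx
    obtain ⟨hx1, hx2⟩ := hx
    unfold Pts at hx1
    rw [mem_filter] at hx1 ⊢
    have h4 := hx1.2.2
    have h5 : ((Pol j.A l c x : ℤ) : ℝ) ≤ η * (R : ℝ) ^ 2 := by
      have h6 : (((Pol j.A l c x).toNat : ℕ) : ℤ) = Pol j.A l c x := Int.toNat_of_nonneg h4.le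
      have h7 : (((Pol j.A l c x).toNat : ℕ) : ℝ) = ((Pol j.A l c x : ℤ) : ℝ) := by exact_mod_cast congrArg (fun z : ℤ => (z : ℝ)) h6
      rw [← h7]
      push_cast at hx2
      exact hx2
    refine ⟨hx1.1, ?_, ?_⟩
    · have h8 := Int.floor_le (η * (R : ℝ) ^ 2)
      have h9 : (0 : ℝ) < (Pol j.A l c x : ℤ) := by exact_mod_cast h4
      linarith
    · exact Int.le_floor.2 h5
  main := by
    intro s hs j ε hε
    obtain ⟨μ, hμ, g⟩ := (EE_spec j).2 s hs ε hε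
    refine ⟨μ, hμ, fun R0 => ?_⟩
    obtain ⟨R₁, g'⟩ := g R0
    refine ⟨R₁ ^ 2, ?_⟩
    rintro N hN I ν M ⟨R, l, c, a, b, u, v, rfl, hb, rfl, rfl, rfl⟩ f hf hav
    have h1 := g' R (le_of_sq hN) f hf hav l c a b hb (max u 0) v (le_max_right _ _)
    have h3 : ε * (R : ℝ) ^ j.k ≤ ε * (2 * (R : ℝ)) ^ j.k := by
      apply mul_le_mul_of_nonneg_left _ hε.le
      apply pow_le_pow_left₀ (by positivity)
      have : (0 : ℝ) ≤ R := Nat.cast_nonneg _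
      linarith
    refine le_trans (le_of_eq ?_) (h1.trans h3)
    congr 1
    unfold Pts
    rw [sum_filter]
    apply sum_congr rfl
    intro x _
    unfold rs
    by_cases h : (u < Pol j.A l c x ∧ Pol j.A l c x ≤ v) ∧ 0 < Pol j.A l c x
    · rw [if_pos h, if_pos ⟨max_lt h.1.1 h.2, h.1.2⟩, Int.toNat_of_nonneg h.2.le]
    · rw [if_neg h, if_neg]
      rintro ⟨h2, h4⟩
      rw [max_lt_iff] at h2
      exact h ⟨⟨h2.1, h4⟩, h2.2⟩

end Pool.Agent.Run7.h145.QL
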