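import Pool.Agent.Run7.h145.QL.Q

/-! From the frequencies for the target to counting statements, in residue classes. -/

set_option autoImplicit false

namespace Pool.Agent.Run7.h145.QL

open Finset Filter Topology Pool.Agent.Run7.h145.QP
open Pool.Agent.Y964.LW (SameR oc)
open scoped Classical

variable {k : ℕ}

/-- a minor of order two is not zero -/
def Mi (A : Fin k → Fin k → ℤ) : Prop :=
  ∃ p q r t : Fin k, p ≠ q ∧ r ≠ t ∧ Sy A p r * Sy A q t - Sy A p t * Sy A q r ≠ 0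

theorem mi_mul {A : Fin k → Fin k → ℤ} (hA : Mi A) {m : ℤ} (hm : m ≠ 0) : Mi (fun i j => m * A i j) := by
  obtain ⟨p, q, r, t, h1, h2, h3⟩ := hA
  refine ⟨p, q, r, t, h1, h2, ?_⟩
  have e : ∀ i j, Sy (fun i j => m * A i j) i j = m * Sy A i j := by
    intro i j; unfold Sy; ring
  rw [e, e, e, e]
  have : m * Sy A p r * (m * Sy A q t) - m * Sy A p t * (m * Sy A q r) =
      m * m * (Sy A p r * Sy A q t - Sy A p t * Sy A q r) := by ring
  rw [this]
  exact mul_ne_zero (mul_ne_zero hm hm) h3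

theorem pol_sub (A : Fin k → Fin k → ℤ) (l : Fin k → ℤ) (c : ℤ) (q : ℤ) (r y : Fin k → ℤ) :
    Pol A l c (fun i => r i + q * y i) =
      Pol (fun i j => q ^ 2 * A i j) (fun j => q * (∑ i, Sy A i j * r i + l j)) (Pol A l c r) y := by
  have h := Pol_add A l c r (fun i => q * y i)
  have e0 : (r + fun i => q * y i) = fun i => r i + q * y i := rfl
  rw [e0] at h
  have e1 : ∑ i, Lf A (fun i => q * y i) i * r i = ∑ j, q * (∑ i, Sy A i j * r i) * y j := by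
    unfold Lf
    simp_rw [sum_mul, mul_sum, sum_mul]
    rw [sum_comm]
    refine sum_congr rfl fun j _ => sum_congr rfl fun i _ => ?_
    ring
  rw [e1] at h
  have h2 : Pol A l c (fun i => r i + q * y i) = Pol A l c r + (∑ j, q * (∑ i, Sy A i j * r i) * y j +
      Pol A l 0 (fun i => q * y i)) := by linarith
  rw [h2]
  have e2 : Pol A l 0 (fun i => q * y i) = ∑ i, ∑ j, q ^ 2 * A i j * y i * y j + ∑ j, q * l j * y j := by
    unfold Pol
    rw [add_zero]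
    congr 1
    · refine sum_congr rfl fun i _ => sum_congr rfl fun j _ => ?_
      ring
    · refine sum_congr rfl fun j _ => ?_
      ring
  rw [e2]
  conv_rhs => unfold Pol
  have e3 : ∑ j, q * (∑ i, Sy A i j * r i + l j) * y j = ∑ j, q * (∑ i, Sy A i j * r i) * y j + ∑ j, q * l j * y j := by
    rw [← sum_add_distrib]
    refine sum_congr rfl fun j _ => ?_
    ring
  rw [e3]
  unfold Pol
  ring

theorem row_le (A : Fin k → Fin k → ℤ) (j : Fin k) : ∑ i, |(Sy A i j : ℝ)| ≤ 2 * sa A := by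
  have h1 : ∑ i, |(A i j : ℝ)| ≤ sa A := by
    unfold sa
    push_cast
    apply sum_le_sum
    intro i _
    have : |(A i j : ℝ)| = ((A i j).natAbs : ℝ) := by
      rw [← Int.cast_abs, Int.abs_eq_natAbs]; simp
    rw [this]
    exact single_le_sum (f := fun j => (((A i j).natAbs : ℕ) : ℝ)) (fun _ _ => Nat.cast_nonneg _) (mem_univ j)
  have h2 : ∑ i, |(A j i : ℝ)| ≤ sa A := by
    unfold sa
    push_cast
    have h3 : ∑ i, |(A j i : ℝ)| = ∑ i, (((A j i).natAbs : ℕ) : ℝ) := by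
      refine sum_congr rfl fun i _ => ?_
      rw [← Int.cast_abs, Int.abs_eq_natAbs]; simp
    rw [h3]
    exact single_le_sum (f := fun j => ∑ i, (((A j i).natAbs : ℕ) : ℝ)) (fun _ _ => sum_nonneg fun _ _ => Nat.cast_nonneg _)
      (mem_univ j)
  calc ∑ i, |(Sy A i j : ℝ)| ≤ ∑ i, (|(A i j : ℝ)| + |(A j i : ℝ)|) := by
        apply sum_le_sum
        intro i _
        unfold Sy
        push_cast
        exact abs_add_le _ _
    _ ≤ 2 * sa A := by rw [sum_add_distrib]; linarith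

/-- bounds after the substitution -/
theorem bnd_sub (A : Fin k → Fin k → ℤ) {B : ℝ} (hB : 0 < B) {q : ℕ} (hq : 1 ≤ q) {R : ℕ} (hR : 1 ≤ R)
    {l : Fin k → ℤ} {c : ℤ} {a b : Fin k → ℤ} (h : Bnd B R l c a b) {r : Fin k → ℤ} (hr : ∀ i, 0 ≤ r i ∧ r i < q) :
    Bnd ((q : ℝ) ^ 2 * (2 * sa A + (k + 1) * B)) R (fun j => (q : ℤ) * (∑ i, Sy A i j * r i + l j)) (Pol A l c r)
      (fun i => (a i - r i) / q) (fun i => (b i - r i) / q) := by
  obtain ⟨h1, h2, h3, h4⟩ := h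
  have hqr : (1 : ℝ) ≤ q := by exact_mod_cast hq
  have hRr : (1 : ℝ) ≤ R := by exact_mod_cast hR
  have hsa : (0 : ℝ) ≤ sa A := Nat.cast_nonneg _
  have hk0 : (0 : ℝ) ≤ k := Nat.cast_nonneg _
  have hrr : ∀ i, |(r i : ℝ)| ≤ q := by
    intro i
    obtain ⟨g1, g2⟩ := hr i
    rw [abs_of_nonneg (by exact_mod_cast g1)]
    exact_mod_cast g2.le
  refine ⟨fun j => ?_, ?_, ?_, ?_⟩
  · push_cast
    rw [abs_mul, abs_of_nonneg (by positivity : (0 : ℝ) ≤ q)]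
    have e1 : |∑ i, (Sy A i j : ℝ) * r i| ≤ 2 * sa A * q := by
      calc |∑ i, (Sy A i j : ℝ) * r i| ≤ ∑ i, |(Sy A i j : ℝ)| * q := by
            refine (abs_sum_le_sum_abs _ _).trans (sum_le_sum fun i _ => ?_)
            rw [abs_mul]
            exact mul_le_mul_of_nonneg_left (hrr i) (abs_nonneg _)
        _ ≤ 2 * sa A * q := by
            rw [← sum_mul]
            exact mul_le_mul_of_nonneg_right (row_le A j) (by positivity)
    have e2 : |∑ i, (Sy A i j : ℝ) * r i + l j| ≤ 2 * sa A * q + B * R := (abs_add_le _ _).trans (by linarith [h1 j])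
    calc (q : ℝ) * |∑ i, (Sy A i j : ℝ) * r i + l j| ≤ q * (2 * sa A * q + B * R) := by gcongr
      _ = 2 * sa A * q ^ 2 * 1 + B * R * q := by ring
      _ ≤ 2 * sa A * q ^ 2 * R + B * R * q ^ 2 := by
          have e3 : (q : ℝ) ≤ q ^ 2 := by nlinarith
          have e4 : 0 ≤ B * R := by positivity
          have e5 : 2 * (sa A : ℝ) * q ^ 2 * 1 ≤ 2 * sa A * q ^ 2 * R := by gcongr
          have e6 := mul_le_mul_of_nonneg_left e3 e4
          linarith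
      _ ≤ q ^ 2 * (2 * sa A + (k + 1) * B) * R := by
          have : 0 ≤ (q : ℝ) ^ 2 * k * B * R := by positivity
          nlinarith
  · have h5 := Pol_le A (l := l) (c := c) (x := r) (R := q * R) (B := B) (fun i => by
      obtain ⟨g1, g2⟩ := hr i
      rw [abs_of_nonneg g1]
      push_cast
      have : (1 : ℤ) ≤ R := by exact_mod_cast hR
      have g3 : (0 : ℤ) ≤ q := Int.natCast_nonneg _
      nlinarith) (fun i => by
      refine (h1 i).trans ?_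
      push_cast
      have : (R : ℝ) ≤ q * R := by nlinarith
      exact mul_le_mul_of_nonneg_left this hB.le) (by
      refine h2.trans ?_
      push_cast
      have : (R : ℝ) ≤ q * R := by nlinarith
      have h6 : (R : ℝ) ^ 2 ≤ (q * R) ^ 2 := pow_le_pow_left₀ (by positivity) this 2
      exact mul_le_mul_of_nonneg_left h6 hB.le)
    rw [Fintype.card_fin] at h5
    refine h5.trans ?_
    push_cast
    have e : ((sa A : ℝ) + k * B + B) * (q * R) ^ 2 = q ^ 2 * (sa A + (k + 1) * B) * R ^ 2 := by ring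
    rw [e]
    have : (q : ℝ) ^ 2 * (sa A + (k + 1) * B) * R ^ 2 ≤ q ^ 2 * (2 * sa A + (k + 1) * B) * R ^ 2 := by
      gcongr
      linarith
    exact this
  · intro i
    obtain ⟨g1, g2⟩ := hr i
    have g3 := abs_le.1 (h3 i)
    have hq0 : (0 : ℤ) < q := by exact_mod_cast hq
    have hR0 : (1 : ℤ) ≤ R := by exact_mod_cast hR
    have g4 := Int.ediv_mul_le (a i - r i) hq0.ne'
    have g5 := Int.lt_ediv_add_one_mul_self (a i - r i) hq0
    rw [abs_le]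
    constructor <;> nlinarith
  · intro i
    obtain ⟨g1, g2⟩ := hr i
    have g3 := abs_le.1 (h4 i)
    have hq0 : (0 : ℤ) < q := by exact_mod_cast hq
    have hR0 : (1 : ℤ) ≤ R := by exact_mod_cast hR
    have g4 := Int.ediv_mul_le (b i - r i) hq0.ne'
    have g5 := Int.lt_ediv_add_one_mul_self (b i - r i) hq0
    rw [abs_le]
    constructor <;> nlinarith

/-- the points of one class -/
theorem class_card (A : Fin k → Fin k → ℤ) (l : Fin k → ℤ) (c : ℤ) (a b : Fin k → ℤ) (u v : ℤ) {q : ℕ} (hq : 1 ≤ q)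
    {r : Fin k → ℤ} (hr : ∀ i, 0 ≤ r i ∧ r i < q) (P : ℤ → Prop) :
    #{x ∈ Pts A l c a b u v | (∀ i, x i % (q : ℤ) = r i) ∧ P (Pol A l c x)} =
      #{y ∈ Pts (fun i j => (q : ℤ) ^ 2 * A i j) (fun j => (q : ℤ) * (∑ i, Sy A i j * r i + l j)) (Pol A l c r)
        (fun i => (a i - r i) / q) (fun i => (b i - r i) / q) u v |
        P (Pol (fun i j => (q : ℤ) ^ 2 * A i j) (fun j => (q : ℤ) * (∑ i, Sy A i j * r i + l j)) (Pol A l c r) y)} := by
  have hq0 : (0 : ℤ) < q := by exact_mod_cast hq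
  symm
  apply card_bij (fun y _ => fun i => r i + (q : ℤ) * y i)
  · intro y hy
    rw [mem_filter] at hy ⊢
    obtain ⟨h1, h2⟩ := hy
    unfold Pts at h1 ⊢
    rw [mem_filter, Fintype.mem_piFinset] at h1 ⊢
    rw [pol_sub]
    refine ⟨⟨fun i => ?_, h1.2⟩, fun i => ?_, h2⟩
    · have h3 := h1.1 i
      rw [mem_Ioc] at h3 ⊢
      have h4 := (Int.ediv_lt_iff_lt_mul hq0).1 h3.1
      have h5 := (Int.le_ediv_iff_mul_le hq0).1 h3.2
      constructor <;> nlinarith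
    · rw [Int.add_mul_emod_self_left]
      exact Int.emod_eq_of_lt (hr i).1 (hr i).2
  · intro y hy y' hy' h
    ext i
    have h1 : r i + (q : ℤ) * y i = r i + (q : ℤ) * y' i := congrFun h i
    have h2 : (q : ℤ) * y i = q * y' i := by linarith
    exact mul_left_cancel₀ hq0.ne' h2
  · intro x hx
    rw [mem_filter] at hx
    obtain ⟨h1, h2, h3⟩ := hx
    have e : (fun i => r i + (q : ℤ) * (x i / q)) = x := by
      ext i
      rw [← h2 i, add_comm]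
      exact Int.mul_ediv_add_emod _ _
    refine ⟨fun i => x i / q, ?_, e⟩
    rw [mem_filter]
    unfold Pts at h1 ⊢
    rw [mem_filter, Fintype.mem_piFinset] at h1 ⊢
    rw [← pol_sub, e]
    refine ⟨⟨fun i => ?_, h1.2⟩, h3⟩
    have h4 := h1.1 i
    rw [mem_Ioc] at h4 ⊢
    have h5 : r i + (q : ℤ) * (x i / q) = x i := congrFun e i
    constructor
    · rw [Int.ediv_lt_iff_lt_mul hq0]; nlinarith
    · rw [Int.le_ediv_iff_mul_le hq0]; nlinarith

/-- one class -/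
theorem class_form {P : ℕ → Prop} {f : ℝ} (h : QV.Fr P f) {A : Fin k → Fin k → ℤ} (hA : Mi A) {B ε : ℝ} (hB : 0 < B)
    (hε : 0 < ε) {q : ℕ} (hq : 1 ≤ q) : ∃ R₀ : ℕ, 1 ≤ R₀ ∧ ∀ R : ℕ, R₀ ≤ R → ∀ (l : Fin k → ℤ) (c : ℤ) (a b : Fin k → ℤ),
      Bnd B R l c a b → ∀ (u v : ℤ) (r : Fin k → ℤ), (∀ i, 0 ≤ r i ∧ r i < q) →
      |(#{x ∈ Pts A l c a b u v | (∀ i, x i % (q : ℤ) = r i) ∧ P (Pol A l c x).toNat} : ℝ) -
        f * #{x ∈ Pts A l c a b u v | ∀ i, x i % (q : ℤ) = r i}| ≤ ε * R ^ k := by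
  have hqz : ((q : ℤ) ^ 2) ≠ 0 := by
    have : (q : ℤ) ≠ 0 := by exact_mod_cast (by omega : q ≠ 0)
    exact pow_ne_zero 2 this
  have hqr : (1 : ℝ) ≤ q := by exact_mod_cast hq
  obtain ⟨N₀, h1⟩ := h ⟨k, fun i j => (q : ℤ) ^ 2 * A i j, (q : ℝ) ^ 2 * (2 * sa A + (k + 1) * B), mi_mul hA hqz, by
    positivity⟩ (ε / 2 ^ k) (by positivity)
  refine ⟨N₀ + 1, by omega, fun R hR l c a b hb u v r hr => ?_⟩
  have hR1 : 1 ≤ R := by omega
  have h2 := h1 (R ^ 2) (by nlinarith) _ _ _ ⟨R, _, _, _, _, u, v, rfl, bnd_sub A hB hq hR1 hb hr, rfl, rfl, rfl⟩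
  simp only at h2
  have e1 := class_card A l c a b u v hq hr (fun z => P z.toNat)
  have e2 := class_card A l c a b u v hq hr (fun _ => True)
  simp only [and_true, filter_true] at e2
  rw [e1, e2]
  refine h2.trans (le_of_eq ?_)
  rw [mul_pow]
  field_simp

/-- PERIODIC CONDITIONS -/
theorem periodic_form {P : ℕ → Prop} {f : ℝ} (h : QV.Fr P f) {A : Fin k → Fin k → ℤ} (hA : Mi A) {B ε : ℝ} (hB : 0 < B)
    (hε : 0 < ε) {q : ℕ} (hq : 1 ≤ q) : ∃ R₀ : ℕ, 1 ≤ R₀ ∧ ∀ R : ℕ, R₀ ≤ R → ∀ (l : Fin k → ℤ) (c : ℤ) (a b : Fin k → ℤ),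
      Bnd B R l c a b → ∀ (u v : ℤ) (D : (Fin k → ℤ) → Prop), (∀ x y : Fin k → ℤ, (∀ i, x i ≡ y i [ZMOD q]) → (D x ↔ D y)) →
      |(#{x ∈ Pts A l c a b u v | D x ∧ P (Pol A l c x).toNat} : ℝ) -
        f * #{x ∈ Pts A l c a b u v | D x}| ≤ ε * R ^ k := by
  have hqr : (1 : ℝ) ≤ q := by exact_mod_cast hq
  have hq0 : (0 : ℤ) < q := by exact_mod_cast hq
  obtain ⟨R₀, hR0, h1⟩ := class_form h hA hB (show 0 < ε / q ^ k by positivity) hq
  refine ⟨R₀, hR0, fun R hR l c a b hb u v D hD => ?_⟩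
  set T := (Fintype.piFinset (fun _ : Fin k => Ico (0 : ℤ) q)).filter D with hT
  have hTc : (#T : ℝ) ≤ q ^ k := by
    have h2 : #T ≤ #(Fintype.piFinset (fun _ : Fin k => Ico (0 : ℤ) q)) := card_filter_le _ _
    rw [Fintype.card_piFinset] at h2
    simp only [Int.card_Ico, sub_zero, Int.toNat_natCast, prod_const, card_univ, Fintype.card_fin] at h2
    exact_mod_cast h2
  have key : ∀ Q : (Fin k → ℤ) → Prop, #{x ∈ Pts A l c a b u v | D x ∧ Q x} =
      ∑ r ∈ T, #{x ∈ Pts A l c a b u v | (∀ i, x i % (q : ℤ) = r i) ∧ Q x} := by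
    intro Q
    have hmaps : ∀ x ∈ (Pts A l c a b u v).filter (fun x => D x ∧ Q x), (fun i => x i % (q : ℤ)) ∈ T := by
      intro x hx
      rw [mem_filter] at hx
      rw [hT, mem_filter, Fintype.mem_piFinset]
      refine ⟨fun i => ?_, ?_⟩
      · rw [mem_Ico]
        exact ⟨Int.emod_nonneg _ hq0.ne', Int.emod_lt_of_pos _ hq0⟩
      · exact (hD _ _ fun i => Int.mod_modEq _ _).2 hx.2.1
    rw [card_eq_sum_card_fiberwise hmaps]
    apply sum_congr rfl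
    intro r hr
    rw [hT, mem_filter] at hr
    congr 1
    ext x
    rw [mem_filter, mem_filter, mem_filter]
    constructor
    · rintro ⟨⟨g1, g2, g3⟩, g4⟩
      exact ⟨g1, fun i => congrFun g4 i, g3⟩
    · rintro ⟨g1, g2, g3⟩
      have e : (fun i => x i % (q : ℤ)) = r := funext g2
      refine ⟨⟨g1, ?_, g3⟩, e⟩
      rw [← e] at hr
      exact (hD _ _ fun i => Int.mod_modEq _ _).1 hr.2
  have e1 := key (fun x => P (Pol A l c x).toNat)
  have e2 := key (fun _ => True)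
  simp only [and_true] at e2
  rw [e1, e2]
  push_cast
  rw [mul_sum, ← sum_sub_distrib]
  calc |∑ r ∈ T, ((#{x ∈ Pts A l c a b u v | (∀ i, x i % (q : ℤ) = r i) ∧ P (Pol A l c x).toNat} : ℝ) -
        f * #{x ∈ Pts A l c a b u v | ∀ i, x i % (q : ℤ) = r i})| ≤ ∑ _r ∈ T, ε / q ^ k * R ^ k := by
        refine (abs_sum_le_sum_abs _ _).trans (sum_le_sum fun r hr => ?_)
        rw [hT, mem_filter, Fintype.mem_piFinset] at hr
        exact h1 R hR l c a b hb u v r (fun i => by have := hr.1 i; rwa [mem_Ico] at this)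
    _ = #T * (ε / q ^ k * R ^ k) := by rw [sum_const, nsmul_eq_mul]
    _ ≤ q ^ k * (ε / q ^ k * R ^ k) := by gcongr
    _ = ε * R ^ k := by field_simp

/-- the set form -/
theorem ncard_pts (A : Fin k → Fin k → ℤ) (l : Fin k → ℤ) (c : ℤ) (a b : Fin k → ℤ) (u v : ℤ) (Q : (Fin k → ℤ) → Prop) :
    {x : Fin k → ℤ | (∀ i, a i < x i ∧ x i ≤ b i) ∧ (u < Pol A l c x ∧ Pol A l c x ≤ v) ∧ 0 < Pol A l c x ∧ Q x}.ncard =
      #{x ∈ Pts A l c a b u v | Q x} := by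
  rw [← Set.ncard_coe_finset]
  congr 1
  ext x
  unfold Pts
  simp only [Set.mem_ofPred_eq, coe_filter, mem_filter, Fintype.mem_piFinset, mem_Ioc]
  tauto

/-- THE COUNTING FORM -/
theorem count_form {P : ℕ → Prop} {f : ℝ} (h : QV.Fr P f) {A : Fin k → Fin k → ℤ} (hA : Mi A) {B ε : ℝ} (hB : 0 < B)
    (hε : 0 < ε) {q : ℕ} (hq : 1 ≤ q) : ∃ R₀ : ℕ, 1 ≤ R₀ ∧ ∀ R : ℕ, R₀ ≤ R → ∀ (l : Fin k → ℤ) (c : ℤ) (a b : Fin k → ℤ),
      (∀ i, |(l i : ℝ)| ≤ B * R) → |(c : ℝ)| ≤ B * R ^ 2 → (∀ i, |a i| ≤ R ∧ |b i| ≤ R) →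
      ∀ (u v : ℤ) (D : Set (Fin k → ℤ)), (∀ x y : Fin k → ℤ, (∀ i, x i ≡ y i [ZMOD q]) → (x ∈ D ↔ y ∈ D)) →
      |({x : Fin k → ℤ | (∀ i, a i < x i ∧ x i ≤ b i) ∧ (u < Pol A l c x ∧ Pol A l c x ≤ v) ∧ 0 < Pol A l c x ∧
          x ∈ D ∧ P (Pol A l c x).toNat}.ncard : ℝ) -
        f * {x : Fin k → ℤ | (∀ i, a i < x i ∧ x i ≤ b i) ∧ (u < Pol A l c x ∧ Pol A l c x ≤ v) ∧ 0 < Pol A l c x ∧
          x ∈ D}.ncard| ≤ ε * R ^ k := by
  obtain ⟨R₀, h0, h1⟩ := periodic_form h hA hB hε hq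
  refine ⟨R₀, h0, fun R hR l c a b hl hc hab u v D hD => ?_⟩
  have h2 := h1 R hR l c a b ⟨hl, hc, fun i => (hab i).1, fun i => (hab i).2⟩ u v (fun x => x ∈ D) hD
  rw [ncard_pts A l c a b u v (fun x => x ∈ D ∧ P (Pol A l c x).toNat), ncard_pts A l c a b u v (fun x => x ∈ D)]
  convert h2 using 4
  all_goals congr!

/-- THE COUNTING FORM, odd values -/
theorem count_odd {P : ℕ → Prop} {f : ℝ} (h : QV.Fr P f) {A : Fin k → Fin k → ℤ} (hA : Mi A) {B ε : ℝ} (hB : 0 < B)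
    (hε : 0 < ε) {q : ℕ} (hq : 1 ≤ q) : ∃ R₀ : ℕ, 1 ≤ R₀ ∧ ∀ R : ℕ, R₀ ≤ R → ∀ (l : Fin k → ℤ) (c : ℤ) (a b : Fin k → ℤ),
      (∀ i, |(l i : ℝ)| ≤ B * R) → |(c : ℝ)| ≤ B * R ^ 2 → (∀ i, |a i| ≤ R ∧ |b i| ≤ R) →
      ∀ (u v : ℤ) (D : Set (Fin k → ℤ)), (∀ x y : Fin k → ℤ, (∀ i, x i ≡ y i [ZMOD q]) → (x ∈ D ↔ y ∈ D)) →
      |({x : Fin k → ℤ | (∀ i, a i < x i ∧ x i ≤ b i) ∧ (u < Pol A l c x ∧ Pol A l c x ≤ v) ∧ 0 < Pol A l c x ∧
          (x ∈ D ∧ Odd (Pol A l c x)) ∧ P (Pol A l c x).toNat}.ncard : ℝ) -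
        f * {x : Fin k → ℤ | (∀ i, a i < x i ∧ x i ≤ b i) ∧ (u < Pol A l c x ∧ Pol A l c x ≤ v) ∧ 0 < Pol A l c x ∧
          x ∈ D ∧ Odd (Pol A l c x)}.ncard| ≤ ε * R ^ k := by
  obtain ⟨R₀, h0, h1⟩ := count_form h hA hB hε (show 1 ≤ 2 * q by omega)
  refine ⟨R₀, h0, fun R hR l c a b hl hc hab u v D hD => ?_⟩
  have h2 := h1 R hR l c a b hl hc hab u v {x | x ∈ D ∧ Odd (Pol A l c x)} (by
    intro x y hxy
    have e1 : ∀ i, x i ≡ y i [ZMOD q] := fun i => (hxy i).of_dvd (by push_cast; exact Dvd.intro_left _ rfl)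
    have e2 : ∀ i, x i ≡ y i [ZMOD 2] := fun i => (hxy i).of_dvd (by push_cast; exact Dvd.intro _ rfl)
    have e3 : Pol A l c x ≡ Pol A l c y [ZMOD 2] := by
      unfold Pol
      have hs : ∀ (s : Finset (Fin k)) (f g : Fin k → ℤ), (∀ i, f i ≡ g i [ZMOD 2]) → ∑ i ∈ s, f i ≡ ∑ i ∈ s, g i [ZMOD 2] := by
        intro s f g hfg
        induction s using Finset.induction_on with
        | empty => rfl
        | insert i s hi ih => rw [sum_insert hi, sum_insert hi]; exact (hfg i).add ih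
      refine Int.ModEq.add (Int.ModEq.add (hs _ _ _ fun i => hs _ _ _ fun j => ?_) (hs _ _ _ fun i => ?_)) rfl
      · exact ((Int.ModEq.refl _).mul (e2 i)).mul (e2 j)
      · exact (Int.ModEq.refl _).mul (e2 i)
    have e4 : Odd (Pol A l c x) ↔ Odd (Pol A l c y) := by
      rw [Int.odd_iff, Int.odd_iff]
      unfold Int.ModEq at e3
      rw [e3]
    simp only [Set.mem_ofPred_eq, hD x y e1, e4])
  exact h2

end Pool.Agent.Run7.h145.QL
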