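import Pool.Agent.Run7.h145.QL.X

/-! Odd values: cubes, sums of two squares, representations, averages. -/

set_option autoImplicit false

namespace Pool.Agent.Run7.h145.QL.X

open Finset Filter Topology
open Pool.Agent.Run7.h145.QP (Pol Sy Lf Pol_add)
open Pool.Agent.Run7.h145.QL

/-- congruent points have congruent values -/
theorem val_congr {k : ℕ} (A : Fin k → Fin k → ℤ) (l : Fin k → ℤ) (c : ℤ) (q : ℤ) {x y : Fin k → ℤ}
    (h : ∀ i, x i ≡ y i [ZMOD q]) : Val A l c x ≡ Val A l c y [ZMOD q] := by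
  unfold Val
  have hs : ∀ (s : Finset (Fin k)) (f g : Fin k → ℤ), (∀ i, f i ≡ g i [ZMOD q]) → ∑ i ∈ s, f i ≡ ∑ i ∈ s, g i [ZMOD q] := by
    intro s f g hfg
    induction s using Finset.induction_on with
    | empty => rfl
    | insert i s hi ih => rw [sum_insert hi, sum_insert hi]; exact (hfg i).add ih
  refine Int.ModEq.add (Int.ModEq.add (hs _ _ _ fun i => hs _ _ _ fun j => ?_) (hs _ _ _ fun i => ?_)) rfl
  · exact ((Int.ModEq.refl _).mul (h i)).mul (h j)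
  · exact (Int.ModEq.refl _).mul (h i)

theorem odd_congr {k : ℕ} (A : Fin k → Fin k → ℤ) (l : Fin k → ℤ) (c : ℤ) {x y : Fin k → ℤ}
    (h : ∀ i, x i ≡ y i [ZMOD 2]) : Odd (Val A l c x) ↔ Odd (Val A l c y) := by
  have := val_congr A l c 2 h
  rw [Int.odd_iff, Int.odd_iff]
  unfold Int.ModEq at this
  rw [this]

/-- positive proportion in a residue class -/
theorem pos_class {k : ℕ} (A : Fin k → Fin k → ℤ) (l : Fin k → ℤ) (c : ℤ) {x₀ : Fin k → ℤ}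
    (h0 : 0 < ∑ i, ∑ j, A i j * x₀ i * x₀ j) (z : Fin k → ℤ) {q : ℕ} (hq : 1 ≤ q) : ∃ κ : ℝ, 0 < κ ∧
      ∀ᶠ N : ℕ in atTop, κ * (N : ℝ) ^ k ≤
        {x : Fin k → ℤ | (∀ i, |x i| ≤ N) ∧ 0 < Val A l c x ∧ ∀ i, x i ≡ z i [ZMOD q]}.ncard := by
  have hq0 : (0 : ℤ) < q := by exact_mod_cast hq
  have hqr : (1 : ℝ) ≤ q := by exact_mod_cast hq
  obtain ⟨κ, hκ, h1⟩ := pos_prop (fun i j => (q : ℤ) ^ 2 * A i j)
    (fun j => (q : ℤ) * (∑ i, Sy A i j * z i + l j)) (Val A l c z) (x₀ := x₀) (by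
    have e : ∑ i, ∑ j, (q : ℤ) ^ 2 * A i j * x₀ i * x₀ j = (q : ℤ) ^ 2 * ∑ i, ∑ j, A i j * x₀ i * x₀ j := by
      simp_rw [mul_sum]
      refine sum_congr rfl fun i _ => sum_congr rfl fun j _ => ?_
      ring
    rw [e]
    positivity)
  set Z : ℕ := ∑ i, (z i).natAbs with hZ
  have hZi : ∀ i, |z i| ≤ Z := by
    intro i
    have := single_le_sum (f := fun i => (z i).natAbs) (fun _ _ => Nat.zero_le _) (mem_univ i)
    rw [Int.abs_eq_natAbs]
    exact_mod_cast this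
  have ht : Tendsto (fun N : ℕ => (N - Z) / q) atTop atTop :=
    (Nat.tendsto_div_const_atTop (by omega)).comp (tendsto_sub_atTop_nat Z)
  refine ⟨κ / (4 * q) ^ k, by positivity, ?_⟩
  filter_upwards [ht.eventually h1, eventually_ge_atTop (2 * (Z + q))] with N hN hN2
  set M : ℕ := (N - Z) / q with hM
  have hMN : M * q ≤ N - Z := Nat.div_mul_le_self _ _
  have hMN' : N - Z < (M + 1) * q := by
    have := Nat.lt_mul_div_succ (N - Z) (show 0 < q by omega)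
    rw [← hM] at this
    linarith
  have hM1 : 1 ≤ M := by
    rw [hM, Nat.le_div_iff_mul_le (by omega)]
    omega
  have hN4 : N ≤ 4 * q * M := by
    have h3 : N ≤ 2 * (N - Z) := by omega
    have h4 : (M + 1) * q ≤ 2 * q * M := by nlinarith
    nlinarith
  have hinj : Function.Injective (fun y : Fin k → ℤ => fun i => z i + (q : ℤ) * y i) := by
    intro y y' h
    ext i
    have h5 : z i + (q : ℤ) * y i = z i + (q : ℤ) * y' i := congrFun h i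
    exact mul_left_cancel₀ hq0.ne' (by linarith)
  have hsub : (fun y : Fin k → ℤ => fun i => z i + (q : ℤ) * y i) ''
      {y : Fin k → ℤ | (∀ i, |y i| ≤ M) ∧ 0 < Val (fun i j => (q : ℤ) ^ 2 * A i j)
        (fun j => (q : ℤ) * (∑ i, Sy A i j * z i + l j)) (Val A l c z) y} ⊆
      {x : Fin k → ℤ | (∀ i, |x i| ≤ N) ∧ 0 < Val A l c x ∧ ∀ i, x i ≡ z i [ZMOD q]} := by
    rintro x ⟨y, ⟨hy1, hy2⟩, rfl⟩
    refine ⟨fun i => ?_, ?_, fun i => ?_⟩
    · refine (abs_add_le _ _).trans ?_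
      rw [abs_mul, abs_of_pos hq0]
      have c1 := mul_le_mul_of_nonneg_left (hy1 i) hq0.le
      have c2 := hZi i
      have c3 : M * q + Z ≤ N := by omega
      have c4 : (M : ℤ) * q + Z ≤ N := by exact_mod_cast c3
      nlinarith
    · have := pol_sub A l c q z y
      show 0 < Pol A l c (fun i => z i + (q : ℤ) * y i)
      rw [this]
      exact hy2
    · show z i + (q : ℤ) * y i ≡ z i [ZMOD q]
      have : z i + (q : ℤ) * y i ≡ z i + 0 [ZMOD q] := Int.ModEq.add_left _ (by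
        rw [Int.modEq_zero_iff_dvd]; exact Dvd.intro _ rfl)
      rwa [add_zero] at this
  have hfin : {x : Fin k → ℤ | (∀ i, |x i| ≤ N) ∧ 0 < Val A l c x ∧ ∀ i, x i ≡ z i [ZMOD q]}.Finite :=
    (cube_finite k N).subset fun x hx => hx.1
  have h2 := Set.ncard_le_ncard hsub hfin
  rw [Set.ncard_image_of_injective _ hinj] at h2
  have h3 : ({y : Fin k → ℤ | (∀ i, |y i| ≤ M) ∧ 0 < Val (fun i j => (q : ℤ) ^ 2 * A i j)
        (fun j => (q : ℤ) * (∑ i, Sy A i j * z i + l j)) (Val A l c z) y}.ncard : ℝ) ≤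
      ({x : Fin k → ℤ | (∀ i, |x i| ≤ N) ∧ 0 < Val A l c x ∧ ∀ i, x i ≡ z i [ZMOD q]}.ncard : ℝ) := by exact_mod_cast h2
  refine le_trans ?_ (hN.trans h3)
  rw [div_mul_eq_mul_div, div_le_iff₀ (by positivity), mul_assoc, ← mul_pow]
  refine mul_le_mul_of_nonneg_left (pow_le_pow_left₀ (Nat.cast_nonneg _) ?_ k) hκ.le
  have : (N : ℝ) ≤ 4 * q * M := by exact_mod_cast hN4
  linarith

/-- CUBES, odd values -/
theorem cubes_odd {P : ℕ → Prop} {f : ℝ} (h : FrequencyOdd P f) {k : ℕ} {A : Fin k → Fin k → ℤ} (hA : RankTwo A)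
    (l : Fin k → ℤ) (c : ℤ) {x₀ z : Fin k → ℤ} (h0 : 0 < ∑ i, ∑ j, A i j * x₀ i * x₀ j) (hz : Odd (Val A l c z)) :
    Tendsto (fun N : ℕ => ({x : Fin k → ℤ | (∀ i, |x i| ≤ N) ∧ (0 < Val A l c x ∧ Odd (Val A l c x)) ∧
      P (Val A l c x).toNat}.ncard : ℝ) /
      {x : Fin k → ℤ | (∀ i, |x i| ≤ N) ∧ (0 < Val A l c x ∧ Odd (Val A l c x))}.ncard) atTop (𝓝 f) := by
  obtain ⟨κ, hκ, hpos⟩ := pos_class A l c h0 z (q := 2) (by norm_num)
  refine ratio_lim (j := k) hκ ?_ fun ε hε => ?_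
  · filter_upwards [hpos] with N hN
    refine hN.trans ?_
    have hsub : {x : Fin k → ℤ | (∀ i, |x i| ≤ N) ∧ 0 < Val A l c x ∧ ∀ i, x i ≡ z i [ZMOD (2 : ℕ)]} ⊆
        {x : Fin k → ℤ | (∀ i, |x i| ≤ N) ∧ (0 < Val A l c x ∧ Odd (Val A l c x))} := by
      rintro x ⟨h1, h2, h3⟩
      exact ⟨h1, h2, (odd_congr A l c h3).2 hz⟩
    exact_mod_cast Set.ncard_le_ncard hsub ((cube_finite k N).subset fun x hx => hx.1)
  obtain ⟨L, hL0, hL1, hL2⟩ := coef_bound l c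
  obtain ⟨R₀, h1⟩ := h k A hA L (ε / 2 ^ k) 1 hL0 (by positivity) le_rfl
  filter_upwards [eventually_ge_atTop (R₀ + 1)] with N hN
  have hN1 : (1 : ℝ) ≤ N := by exact_mod_cast (by omega : 1 ≤ N)
  obtain ⟨V, hV0, hV⟩ := val_bd A l c N
  have h2 := h1 (N + 1) (by omega) l c (fun _ => -(N : ℤ) - 1) (fun _ => (N : ℤ)) (fun i => by
      push_cast
      have := hL1 i
      nlinarith) (by
      push_cast
      have : (1 : ℝ) ≤ ((N : ℝ) + 1) ^ 2 := by nlinarith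
      nlinarith) (fun i => by
      constructor
      · rw [abs_le]; push_cast; constructor <;> omega
      · rw [abs_le]; push_cast; constructor <;> omega) 0 V Set.univ (fun _ _ _ => Iff.rfl)
  have e1 : {x ∈ Points A l c (fun _ => -(N : ℤ) - 1) (fun _ => (N : ℤ)) 0 V Set.univ | Odd (Val A l c x) ∧
      P (Val A l c x).toNat} =
      {x : Fin k → ℤ | (∀ i, |x i| ≤ N) ∧ (0 < Val A l c x ∧ Odd (Val A l c x)) ∧ P (Val A l c x).toNat} := by
    ext x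
    constructor
    · rintro ⟨⟨g1, g2, g3, -⟩, g4, g5⟩; exact ⟨cube_iff.2 g1, ⟨g3, g4⟩, g5⟩
    · rintro ⟨g1, ⟨g3, g4⟩, g5⟩
      exact ⟨⟨cube_iff.1 g1, ⟨g3, (le_abs_self _).trans (hV x g1)⟩, g3, trivial⟩, g4, g5⟩
  have e2 : {x ∈ Points A l c (fun _ => -(N : ℤ) - 1) (fun _ => (N : ℤ)) 0 V Set.univ | Odd (Val A l c x)} =
      {x : Fin k → ℤ | (∀ i, |x i| ≤ N) ∧ (0 < Val A l c x ∧ Odd (Val A l c x))} := by
    ext x
    constructor
    · rintro ⟨⟨g1, g2, g3, -⟩, g4⟩; exact ⟨cube_iff.2 g1, g3, g4⟩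
    · rintro ⟨g1, g3, g4⟩
      exact ⟨⟨cube_iff.1 g1, ⟨g3, (le_abs_self _).trans (hV x g1)⟩, g3, trivial⟩, g4⟩
  rw [e1, e2] at h2
  refine h2.trans ?_
  calc ε / 2 ^ k * ((N + 1 : ℕ) : ℝ) ^ k ≤ ε / 2 ^ k * (2 * N) ^ k := by
        gcongr
        push_cast; linarith
    _ = ε * (N : ℝ) ^ k := by rw [mul_pow]; field_simp

/-- REPRESENTATIONS, odd numbers -/
theorem represent_odd {P : ℕ → Prop} {f : ℝ} (hf : 0 < f) (h : FrequencyOdd P f) {α β γ : ℤ}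
    (hdisc : β ^ 2 ≠ 4 * α * γ) :
    ∃ κ : ℝ, 0 < κ ∧ ∃ n₀ : ℕ, ∀ n : ℕ, n₀ ≤ n → (∃ x y : ℤ, Odd (n - (α * x ^ 2 + β * x * y + γ * y ^ 2))) →
      κ * n ≤ {p : ℤ × ℤ | (0 < p.1 ∧ p.1 ^ 2 ≤ n) ∧ (0 < p.2 ∧ p.2 ^ 2 ≤ n) ∧
        ∃ t : ℕ, Odd t ∧ P t ∧ (n : ℤ) = (α * p.1 ^ 2 + β * p.1 * p.2 + γ * p.2 ^ 2) + t}.ncard := by
  set D : ℕ := α.natAbs + β.natAbs + γ.natAbs + 1 with hD
  have hD1 : 1 ≤ D := by omega
  have hDr : (1 : ℝ) ≤ D := by exact_mod_cast hD1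
  set ε : ℝ := f / (512 * D ^ 2) with hε
  have hε0 : 0 < ε := by positivity
  obtain ⟨R₀, h'⟩ := h 2 (Bin (-α) (-β) (-γ)) (bin_rank (by intro h1; apply hdisc; linear_combination h1)) 4 ε 2
    (by norm_num) hε0 (by norm_num)
  refine ⟨f / (2048 * D ^ 2), by positivity, (R₀ + 8 * D) ^ 2, fun n hn hpar => ?_⟩
  obtain ⟨z0, z1, hz⟩ := hpar
  set R := Nat.sqrt n with hR
  have hR1 : R₀ + 8 * D ≤ R := Nat.le_sqrt'.2 hn
  have hRn : R ^ 2 ≤ n := Nat.sqrt_le' n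
  have hRn' : n < (R + 1) ^ 2 := Nat.lt_succ_sqrt' n
  have hn4 : n ≤ 4 * R ^ 2 := by nlinarith
  set m := R / (4 * D) with hm
  have hmR : m * (4 * D) ≤ R := Nat.div_mul_le_self _ _
  have hmR' : R < (m + 1) * (4 * D) := by
    have := Nat.lt_mul_div_succ R (show 0 < 4 * D by omega)
    rw [← hm] at this
    linarith
  have hm1 : 1 ≤ m := by
    rw [hm, Nat.le_div_iff_mul_le (by omega)]
    omega
  have hm4 : R ≤ 8 * D * m := by nlinarith
  have hmle : 2 * m ≤ R := by nlinarith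
  set z : Fin 2 → ℤ := ![z0, z1] with hzdef
  set Dd : Set (Fin 2 → ℤ) := {x | ∀ i, x i ≡ z i [ZMOD (2 : ℕ)]} with hDd
  have h1 := h' R (by omega) 0 n (fun _ => 0) (fun _ => ((2 * m : ℕ) : ℤ)) (by
    intro i; simp) (by
    have : |((n : ℤ) : ℝ)| = n := by simp
    rw [this]
    exact_mod_cast hn4) (by
    intro i
    refine ⟨by simp, ?_⟩
    rw [abs_of_nonneg (by positivity)]
    exact_mod_cast hmle) 0 (2 * n) Dd (fun x y hxy => by
      constructor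
      · intro hx i; exact (hxy i).symm.trans (hx i)
      · intro hy i; exact (hxy i).trans (hy i))
  have hval : ∀ x : Fin 2 → ℤ, Val (Bin (-α) (-β) (-γ)) 0 n x =
      n - (α * x 0 ^ 2 + β * x 0 * x 1 + γ * x 1 ^ 2) := by
    intro x; rw [bin_val]; ring
  have hpos : ∀ x : Fin 2 → ℤ, (∀ i, (0 : ℤ) < x i ∧ x i ≤ ((2 * m : ℕ) : ℤ)) → 0 < Val (Bin (-α) (-β) (-γ)) 0 n x ∧
      Val (Bin (-α) (-β) (-γ)) 0 n x ≤ 2 * n := by
    intro x hx
    rw [hval]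
    have h0 := hx 0
    have h1 := hx 1
    push_cast at h0 h1
    have hb : |α * x 0 ^ 2 + β * x 0 * x 1 + γ * x 1 ^ 2| ≤ D * (2 * m) ^ 2 := by
      have a0 : |x 0| ≤ 2 * m := by rw [abs_le]; omega
      have a1 : |x 1| ≤ 2 * m := by rw [abs_le]; omega
      have t1 : |α * x 0 ^ 2| ≤ |α| * (2 * m) ^ 2 := by
        rw [abs_mul, abs_pow]; gcongr
      have t2 : |β * x 0 * x 1| ≤ |β| * (2 * m) ^ 2 := by
        rw [abs_mul, abs_mul, sq, mul_assoc]; gcongr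
      have t3 : |γ * x 1 ^ 2| ≤ |γ| * (2 * m) ^ 2 := by
        rw [abs_mul, abs_pow]; gcongr
      have t4 := abs_add_three (α * x 0 ^ 2) (β * x 0 * x 1) (γ * x 1 ^ 2)
      have hDz : (D : ℤ) = |α| + |β| + |γ| + 1 := by rw [hD]; push_cast; ring
      have t5 : (0 : ℤ) ≤ (2 * m : ℤ) ^ 2 := by positivity
      rw [hDz]
      have t6 : (|α| + |β| + |γ| + 1) * (2 * m : ℤ) ^ 2 = |α| * (2 * m) ^ 2 + |β| * (2 * m) ^ 2 + |γ| * (2 * m) ^ 2 +
        (2 * m) ^ 2 := by ring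
      rw [t6]
      linarith
    have hDm : D * (2 * m) ^ 2 < n := by
      have q1 : (m * (4 * D)) ^ 2 ≤ R ^ 2 := Nat.pow_le_pow_left hmR 2
      have hR0 : 0 < R := by omega
      have q2 : 0 < R ^ 2 := by positivity
      have q3 : D * (2 * m) ^ 2 * 4 ≤ (m * (4 * D)) ^ 2 := by
        have e : (m * (4 * D)) ^ 2 = (D * (2 * m) ^ 2 * 4) * D := by ring
        rw [e]
        exact Nat.le_mul_of_pos_right _ (by omega)
      nlinarith
    have hDm' : (D : ℤ) * (2 * m : ℤ) ^ 2 < n := by exact_mod_cast hDm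
    have hb' := abs_le.1 hb
    constructor
    · linarith [hb'.2]
    · linarith [hb'.1]
  have hodd : ∀ x ∈ Dd, Odd (Val (Bin (-α) (-β) (-γ)) 0 n x) := by
    intro x hx
    have h2 := (odd_congr (Bin (-α) (-β) (-γ)) 0 n (x := x) (y := z) (fun i => hx i)).2
    apply h2
    rw [hval]
    exact hz
  -- number of the points
  have hcnt : ((m ^ 2 : ℕ) : ℝ) ≤ ({x ∈ Points (Bin (-α) (-β) (-γ)) 0 n (fun _ : Fin 2 => (0 : ℤ))
      (fun _ => ((2 * m : ℕ) : ℤ)) 0 (2 * n) Dd | Odd (Val (Bin (-α) (-β) (-γ)) 0 n x)}.ncard : ℝ) := by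
    have hsub : (fun y : Fin 2 → ℤ => fun i => 2 * y i - 2 + (if z i % 2 = 0 then 2 else 1)) ''
        ((Fintype.piFinset (fun _ : Fin 2 => Ioc (0 : ℤ) m) : Finset (Fin 2 → ℤ)) : Set (Fin 2 → ℤ)) ⊆
        {x ∈ Points (Bin (-α) (-β) (-γ)) 0 n (fun _ : Fin 2 => (0 : ℤ))
          (fun _ => ((2 * m : ℕ) : ℤ)) 0 (2 * n) Dd | Odd (Val (Bin (-α) (-β) (-γ)) 0 n x)} := by
      rintro x ⟨y, hy, rfl⟩
      rw [mem_coe, Fintype.mem_piFinset] at hy
      have hbox : ∀ i, (0 : ℤ) < 2 * y i - 2 + (if z i % 2 = 0 then 2 else 1) ∧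
          2 * y i - 2 + (if z i % 2 = 0 then 2 else 1) ≤ ((2 * m : ℕ) : ℤ) := by
        intro i
        have := mem_Ioc.1 (hy i)
        push_cast
        split_ifs <;> omega
      have hDx : (fun i => 2 * y i - 2 + (if z i % 2 = 0 then 2 else 1)) ∈ Dd := by
        intro i
        show 2 * y i - 2 + (if z i % 2 = 0 then 2 else 1) ≡ z i [ZMOD (2 : ℕ)]
        unfold Int.ModEq
        push_cast
        split_ifs <;> omega
      obtain ⟨g2, g3⟩ := hpos _ hbox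
      exact ⟨⟨hbox, ⟨g2, g3⟩, g2, hDx⟩, hodd _ hDx⟩
    have hinj : Function.Injective (fun y : Fin 2 → ℤ => fun i => 2 * y i - 2 + (if z i % 2 = 0 then (2 : ℤ) else 1)) := by
      intro y y' h
      ext i
      have h5 : 2 * y i - 2 + (if z i % 2 = 0 then (2 : ℤ) else 1) = 2 * y' i - 2 + (if z i % 2 = 0 then 2 else 1) :=
        congrFun h i
      omega
    have hfin : {x ∈ Points (Bin (-α) (-β) (-γ)) 0 n (fun _ : Fin 2 => (0 : ℤ))
          (fun _ => ((2 * m : ℕ) : ℤ)) 0 (2 * n) Dd | Odd (Val (Bin (-α) (-β) (-γ)) 0 n x)}.Finite := by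
      apply (cube_finite 2 (2 * m)).subset
      rintro x ⟨⟨g1, -⟩, -⟩ i
      have := g1 i
      rw [abs_of_pos this.1]
      exact this.2
    have h2 := Set.ncard_le_ncard hsub hfin
    rw [Set.ncard_image_of_injective _ hinj, Set.ncard_coe_finset, Fintype.card_piFinset] at h2
    simp only [Int.card_Ioc, sub_zero, Int.toNat_natCast, prod_const, card_univ, Fintype.card_fin] at h2
    exact_mod_cast h2
  rw [ncard_pair (fun x y => (0 < x ∧ x ^ 2 ≤ n) ∧ (0 < y ∧ y ^ 2 ≤ n) ∧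
    ∃ t : ℕ, Odd t ∧ P t ∧ (n : ℤ) = (α * x ^ 2 + β * x * y + γ * y ^ 2) + t)]
  have hsub : {x ∈ Points (Bin (-α) (-β) (-γ)) 0 n (fun _ : Fin 2 => (0 : ℤ)) (fun _ => ((2 * m : ℕ) : ℤ)) 0 (2 * n) Dd |
      Odd (Val (Bin (-α) (-β) (-γ)) 0 n x) ∧ P (Val (Bin (-α) (-β) (-γ)) 0 n x).toNat} ⊆
      {x : Fin 2 → ℤ | (0 < x 0 ∧ x 0 ^ 2 ≤ n) ∧ (0 < x 1 ∧ x 1 ^ 2 ≤ n) ∧
      ∃ t : ℕ, Odd t ∧ P t ∧ (n : ℤ) = (α * x 0 ^ 2 + β * x 0 * x 1 + γ * x 1 ^ 2) + t} := by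
    rintro x ⟨⟨q1, q2, q3, -⟩, q4, q5⟩
    have hsq : ∀ t : ℤ, 0 < t → t ≤ ((2 * m : ℕ) : ℤ) → t ^ 2 ≤ n := by
      intro t ht0 ht
      have p1 : t ^ 2 ≤ ((2 * m : ℕ) : ℤ) ^ 2 := pow_le_pow_left₀ ht0.le ht 2
      have p2 : (2 * m) ^ 2 ≤ n := (Nat.pow_le_pow_left hmle 2).trans hRn
      have p3 : ((2 * m : ℕ) : ℤ) ^ 2 ≤ n := by exact_mod_cast p2
      linarith
    refine ⟨⟨(q1 0).1, hsq _ (q1 0).1 (q1 0).2⟩, ⟨(q1 1).1, hsq _ (q1 1).1 (q1 1).2⟩,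
      (Val (Bin (-α) (-β) (-γ)) 0 n x).toNat, ?_, q5, ?_⟩
    · have h5 : ((Val (Bin (-α) (-β) (-γ)) 0 n x).toNat : ℤ) = Val (Bin (-α) (-β) (-γ)) 0 n x :=
        Int.toNat_of_nonneg q3.le
      rw [Nat.odd_iff]
      rw [Int.odd_iff] at q4
      omega
    · rw [Int.toNat_of_nonneg q3.le, hval]; ring
  have hfin : {x : Fin 2 → ℤ | (0 < x 0 ∧ x 0 ^ 2 ≤ n) ∧ (0 < x 1 ∧ x 1 ^ 2 ≤ n) ∧
      ∃ t : ℕ, Odd t ∧ P t ∧ (n : ℤ) = (α * x 0 ^ 2 + β * x 0 * x 1 + γ * x 1 ^ 2) + t}.Finite := by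
    apply (cube_finite 2 n).subset
    rintro x ⟨⟨q1, q2⟩, ⟨q3, q4⟩, -⟩ i
    fin_cases i
    · simp only [Fin.zero_eta]; rw [abs_of_pos q1]; nlinarith
    · simp only [Fin.mk_one]; rw [abs_of_pos q3]; nlinarith
  have h2 := Set.ncard_le_ncard hsub hfin
  have h2r : ({x ∈ Points (Bin (-α) (-β) (-γ)) 0 n (fun _ : Fin 2 => (0 : ℤ)) (fun _ => ((2 * m : ℕ) : ℤ)) 0 (2 * n) Dd |
      Odd (Val (Bin (-α) (-β) (-γ)) 0 n x) ∧ P (Val (Bin (-α) (-β) (-γ)) 0 n x).toNat}.ncard : ℝ) ≤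
      ({x : Fin 2 → ℤ | (0 < x 0 ∧ x 0 ^ 2 ≤ n) ∧ (0 < x 1 ∧ x 1 ^ 2 ≤ n) ∧
      ∃ t : ℕ, Odd t ∧ P t ∧ (n : ℤ) = (α * x 0 ^ 2 + β * x 0 * x 1 + γ * x 1 ^ 2) + t}.ncard : ℝ) := by exact_mod_cast h2
  refine le_trans ?_ h2r
  have h3 := (abs_le.1 h1).1
  have hmr : (R : ℝ) ≤ 8 * D * m := by exact_mod_cast hm4
  have h4 : (R : ℝ) ^ 2 / (64 * D ^ 2) ≤ m ^ 2 := by
    rw [div_le_iff₀ (by positivity)]
    calc (R : ℝ) ^ 2 ≤ (8 * D * m) ^ 2 := pow_le_pow_left₀ (by positivity) hmr 2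
      _ = _ := by ring
  have h5 : (n : ℝ) ≤ 4 * R ^ 2 := by exact_mod_cast hn4
  have h6 : f * ((R : ℝ) ^ 2 / (64 * D ^ 2)) ≤ f * m ^ 2 := by gcongr
  have h6' := mul_le_mul_of_nonneg_left hcnt hf.le
  rw [Nat.cast_pow] at h6'
  have h7 : f / (2048 * D ^ 2) * (n : ℝ) ≤ f / (2048 * D ^ 2) * (4 * R ^ 2) := by gcongr
  have h8 : f / (2048 * (D : ℝ) ^ 2) * (4 * R ^ 2) ≤ f * ((R : ℝ) ^ 2 / (64 * D ^ 2)) - ε * R ^ 2 := by
    rw [hε]
    have e1 : f / (2048 * (D : ℝ) ^ 2) * (4 * R ^ 2) = f * R ^ 2 / D ^ 2 * (1 / 512) := by field_simp; ring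
    have e2 : f * ((R : ℝ) ^ 2 / (64 * D ^ 2)) - f / (512 * (D : ℝ) ^ 2) * R ^ 2 = f * R ^ 2 / D ^ 2 * (7 / 512) := by
      field_simp; ring
    rw [e1, e2]
    gcongr
    norm_num
  linarith

/-- few small values -/
theorem low_fr (n0 : ℕ) : QV.Fr (fun n => n < n0) 0 := by
  have h0 : QV.Fr (fun _ => False) 0 := by
    intro j ε hε
    refine ⟨0, fun N _ I ν M hok => ?_⟩
    classical
    have : #{x ∈ I | False} = 0 := by simp
    simp only [zero_mul, sub_zero]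
    have h1 : (#{x ∈ I | (fun _ => False) (ν x)} : ℝ) = 0 := by simp
    rw [h1, abs_zero]
    exact mul_nonneg hε.le (QV.M0 hok)
  exact QV.congr n0 (fun n hn => by simp; omega) h0

open scoped Classical in
/-- The average of `F m` over the odd positive values `m` of quadratic polynomials is `V`. -/
def AverageOdd (F : ℕ → ℝ) (V : ℝ) : Prop := ∀ (k : ℕ) (A : Fin k → Fin k → ℤ), RankTwo A →
  ∀ (B ε : ℝ) (q : ℕ), 0 < B → 0 < ε → 1 ≤ q → ∃ R₀ : ℕ, ∀ R : ℕ, R₀ ≤ R →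
  ∀ (l : Fin k → ℤ) (c : ℤ) (a b : Fin k → ℤ), (∀ i, |(l i : ℝ)| ≤ B * R) → |(c : ℝ)| ≤ B * R ^ 2 →
  (∀ i, |a i| ≤ R ∧ |b i| ≤ R) → ∀ (u v : ℤ) (D : Set (Fin k → ℤ)),
  (∀ x y : Fin k → ℤ, (∀ i, x i ≡ y i [ZMOD q]) → (x ∈ D ↔ y ∈ D)) →
  |∑ x ∈ (Fintype.piFinset fun i => Ioc (a i) (b i)).filter (fun x => x ∈ Points A l c a b u v D ∧ Odd (Val A l c x)),
      F (Val A l c x).toNat - V * {x ∈ Points A l c a b u v D | Odd (Val A l c x)}.ncard| ≤ ε * R ^ k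

theorem avg_odd {F : ℕ → ℝ} {H v1 v2 l1 l2 : ℝ} (hF : ∀ m, |F m| ≤ H) (hl : l1 + l2 = 1)
    (h : ∀ η : ℝ, 0 < η → ∃ (P1 P2 : ℕ → Prop) (n0 : ℕ), FrequencyOdd P1 l1 ∧ FrequencyOdd P2 l2 ∧
      (∀ n, P1 n → ¬ P2 n) ∧ (∀ n, n0 ≤ n → Odd n → P1 n → |F n - v1| ≤ η) ∧
      (∀ n, n0 ≤ n → Odd n → P2 n → |F n - v2| ≤ η)) : AverageOdd F (l1 * v1 + l2 * v2) := by
  classical
  intro k A hA B ε q hB hε hq
  have hH0 : 0 ≤ H := (abs_nonneg _).trans (hF 0)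
  set K : ℝ := H + |v1| + |v2| + 1 with hK
  have hK1 : 1 ≤ K := by rw [hK]; linarith [abs_nonneg v1, abs_nonneg v2]
  obtain ⟨P1, P2, n0, f1, f2, hd, g1, g2⟩ := h (ε / (4 * 2 ^ k)) (by positivity)
  set e : ℝ := ε / (8 * K) with he
  have he0 : 0 < e := by positivity
  obtain ⟨R1, k1⟩ := f1 k A hA B e q hB he0 hq
  obtain ⟨R2, k2⟩ := f2 k A hA B e q hB he0 hq
  obtain ⟨R3, k3⟩ := of_fr_odd (low_fr n0) k A hA B e q hB he0 hq
  refine ⟨max R1 (max R2 R3), fun R hR l c a b hl' hc hab u v D hD => ?_⟩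
  have m1 := k1 R ((le_max_left _ _).trans hR) l c a b hl' hc hab u v D hD
  have m2 := k2 R (((le_max_left _ _).trans (le_max_right _ _)).trans hR) l c a b hl' hc hab u v D hD
  have m3 := k3 R (((le_max_right _ _).trans (le_max_right _ _)).trans hR) l c a b hl' hc hab u v D hD
  set S := (Fintype.piFinset fun i => Ioc (a i) (b i)).filter (fun x => x ∈ Points A l c a b u v D ∧ Odd (Val A l c x))
    with hS
  have hmem : ∀ x, x ∈ S ↔ x ∈ Points A l c a b u v D ∧ Odd (Val A l c x) := by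
    intro x
    rw [hS, mem_filter, Fintype.mem_piFinset]
    constructor
    · rintro ⟨-, h1⟩; exact h1
    · intro h1; exact ⟨fun i => mem_Ioc.2 (h1.1.1 i), h1⟩
  have cnt : ∀ Q : ℕ → Prop, {x ∈ Points A l c a b u v D | Odd (Val A l c x) ∧ Q (Val A l c x).toNat}.ncard =
      #{x ∈ S | Q (Val A l c x).toNat} := by
    intro Q
    rw [← Set.ncard_coe_finset]
    congr 1
    ext x
    rw [mem_coe, mem_filter, hmem]
    constructor
    · rintro ⟨h1, h2, h3⟩; exact ⟨⟨h1, h2⟩, h3⟩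
    · rintro ⟨⟨h1, h2⟩, h3⟩; exact ⟨h1, h2, h3⟩
  have cnt0 : {x ∈ Points A l c a b u v D | Odd (Val A l c x)}.ncard = #S := by
    rw [← Set.ncard_coe_finset]
    congr 1
    ext x
    rw [mem_coe, hmem]
    rfl
  rw [cnt, cnt0] at m1 m2
  rw [cnt (fun n => n < n0), cnt0] at m3
  rw [cnt0]
  have hS1 : (#S : ℝ) ≤ 2 ^ k * R ^ k := by
    have h3 : #S ≤ #(Fintype.piFinset fun i => Ioc (a i) (b i)) := card_filter_le _ _
    rw [Fintype.card_piFinset] at h3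
    have h4 : ∏ i, #(Ioc (a i) (b i)) ≤ ∏ _i : Fin k, (2 * R) := by
      refine prod_le_prod' fun i _ => ?_
      rw [Int.card_Ioc]
      have h5 := abs_le.1 (hab i).1
      have h6 := abs_le.1 (hab i).2
      omega
    rw [prod_const, card_univ, Fintype.card_fin] at h4
    have h7 : #S ≤ (2 * R) ^ k := h3.trans h4
    rw [← mul_pow]
    exact_mod_cast h7
  have pt : ∀ x ∈ S, |F (Val A l c x).toNat - (v1 * (if P1 (Val A l c x).toNat then 1 else 0) +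
      v2 * (if P2 (Val A l c x).toNat then 1 else 0))| ≤ ε / (4 * 2 ^ k) +
      K * ((1 - (if P1 (Val A l c x).toNat then 1 else 0) - (if P2 (Val A l c x).toNat then 1 else 0)) +
        (if (Val A l c x).toNat < n0 then 1 else 0)) := by
    intro x hx
    obtain ⟨hx1, hx2⟩ := (hmem x).1 hx
    have hx3 : 0 < Val A l c x := hx1.2.2.1
    have hodd : Odd (Val A l c x).toNat := by
      rw [Int.odd_iff] at hx2
      rw [Nat.odd_iff]
      omega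
    set n := (Val A l c x).toNat with hn
    have hFn := hF n
    have hη : 0 ≤ ε / (4 * 2 ^ k) := by positivity
    have hv1 := abs_nonneg v1
    have hv2 := abs_nonneg v2
    by_cases hlow : n < n0
    · rw [if_pos hlow]
      by_cases p1 : P1 n
      · rw [if_pos p1, if_neg (hd n p1)]
        have : |F n - (v1 * 1 + v2 * 0)| ≤ |F n| + |v1| := by
          rw [mul_one, mul_zero, add_zero]; exact abs_sub _ _
        nlinarith
      · rw [if_neg p1]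
        by_cases p2 : P2 n
        · rw [if_pos p2]
          have : |F n - (v1 * 0 + v2 * 1)| ≤ |F n| + |v2| := by
            rw [mul_one, mul_zero, zero_add]; exact abs_sub _ _
          nlinarith
        · rw [if_neg p2]
          rw [mul_zero, mul_zero, add_zero, sub_zero]
          nlinarith
    · rw [if_neg hlow]
      push Not at hlow
      by_cases p1 : P1 n
      · rw [if_pos p1, if_neg (hd n p1)]
        have := g1 n hlow hodd p1
        rw [mul_one, mul_zero, add_zero]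
        linarith
      · rw [if_neg p1]
        by_cases p2 : P2 n
        · rw [if_pos p2]
          have := g2 n hlow hodd p2
          rw [mul_one, mul_zero, zero_add]
          linarith
        · rw [if_neg p2]
          rw [mul_zero, mul_zero, add_zero, sub_zero]
          nlinarith
  have s1 : (∑ x ∈ S, (if P1 (Val A l c x).toNat then (1 : ℝ) else 0)) = #{x ∈ S | P1 (Val A l c x).toNat} := by
    rw [card_filter]; push_cast; rfl
  have s2 : (∑ x ∈ S, (if P2 (Val A l c x).toNat then (1 : ℝ) else 0)) = #{x ∈ S | P2 (Val A l c x).toNat} := by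
    rw [card_filter]; push_cast; rfl
  have s3 : (∑ x ∈ S, (if (Val A l c x).toNat < n0 then (1 : ℝ) else 0)) = #{x ∈ S | (Val A l c x).toNat < n0} := by
    rw [card_filter]; push_cast; rfl
  set c1 : ℝ := (#{x ∈ S | P1 (Val A l c x).toNat} : ℝ) with hc1
  set c2 : ℝ := (#{x ∈ S | P2 (Val A l c x).toNat} : ℝ) with hc2
  set c3 : ℝ := (#{x ∈ S | (Val A l c x).toNat < n0} : ℝ) with hc3
  have key : |∑ x ∈ S, F (Val A l c x).toNat - (v1 * c1 + v2 * c2)| ≤ ε / (4 * 2 ^ k) * #S +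
      K * ((#S - c1 - c2) + c3) := by
    have e1 : ∑ x ∈ S, F (Val A l c x).toNat - (v1 * c1 + v2 * c2) =
        ∑ x ∈ S, (F (Val A l c x).toNat - (v1 * (if P1 (Val A l c x).toNat then 1 else 0) +
      v2 * (if P2 (Val A l c x).toNat then 1 else 0))) := by
      rw [sum_sub_distrib, sum_add_distrib, ← mul_sum, ← mul_sum, s1, s2]
    rw [e1]
    refine (abs_sum_le_sum_abs _ _).trans ((sum_le_sum pt).trans (le_of_eq ?_))
    rw [sum_add_distrib, ← mul_sum, sum_add_distrib, sum_sub_distrib, sum_sub_distrib, s1, s2, s3]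
    simp only [sum_const, nsmul_eq_mul, mul_one]
    ring
  have hRk : (0 : ℝ) ≤ (R : ℝ) ^ k := by positivity
  have a1 := abs_le.1 m1
  have a2 := abs_le.1 m2
  have a3 := abs_le.1 m3
  rw [zero_mul, sub_zero] at a3
  have a4 : c3 ≤ e * (R : ℝ) ^ k := by
    refine le_trans (le_of_eq ?_) a3.2
    rw [hc3]
    congr 2
    ext x
    simp only [mem_filter]
  have b1 : #S - c1 - c2 ≤ 2 * (e * (R : ℝ) ^ k) := by
    have : (#S : ℝ) = l1 * #S + l2 * #S := by rw [← add_mul, hl, one_mul]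
    linarith [a1.1, a2.1]
  have b2 : ε / (4 * 2 ^ k) * (#S : ℝ) ≤ ε / 4 * (R : ℝ) ^ k := by
    calc ε / (4 * 2 ^ k) * (#S : ℝ) ≤ ε / (4 * 2 ^ k) * (2 ^ k * R ^ k) := by gcongr
      _ = _ := by field_simp
  have b3 : K * ((#S - c1 - c2) + c3) ≤ 3 / 8 * ε * (R : ℝ) ^ k := by
    calc K * ((#S - c1 - c2) + c3) ≤ K * (3 * (e * (R : ℝ) ^ k)) := by
          refine mul_le_mul_of_nonneg_left ?_ (by linarith)
          linarith [a4]
      _ = _ := by rw [he]; field_simp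
  have b4 : |v1 * c1 + v2 * c2 - (l1 * v1 + l2 * v2) * #S| ≤ 1 / 4 * ε * (R : ℝ) ^ k := by
    have e2 : v1 * c1 + v2 * c2 - (l1 * v1 + l2 * v2) * #S = v1 * (c1 - l1 * #S) + v2 * (c2 - l2 * #S) := by ring
    rw [e2]
    refine (abs_add_le _ _).trans ?_
    rw [abs_mul, abs_mul]
    have q1 : |v1| * |c1 - l1 * #S| ≤ K * (e * (R : ℝ) ^ k) := by
      refine mul_le_mul ?_ m1 (abs_nonneg _) (by linarith)
      rw [hK]; linarith [abs_nonneg v2]
    have q2 : |v2| * |c2 - l2 * #S| ≤ K * (e * (R : ℝ) ^ k) := by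
      refine mul_le_mul ?_ m2 (abs_nonneg _) (by linarith)
      rw [hK]; linarith [abs_nonneg v1]
    have q3 : K * (e * (R : ℝ) ^ k) = 1 / 8 * ε * (R : ℝ) ^ k := by rw [he]; field_simp
    linarith
  calc |∑ x ∈ S, F (Val A l c x).toNat - (l1 * v1 + l2 * v2) * #S| ≤
        |∑ x ∈ S, F (Val A l c x).toNat - (v1 * c1 + v2 * c2)| + |v1 * c1 + v2 * c2 - (l1 * v1 + l2 * v2) * #S| :=
          abs_sub_le _ _ _
    _ ≤ ε * (R : ℝ) ^ k := by
        have : 0 ≤ ε * (R : ℝ) ^ k := by positivity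
        linarith

end Pool.Agent.Run7.h145.QL.X
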